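import Pool.Agent.R21.EQ.Stms

/-!
# Project EQ: basic facts about `ex`, `cf`, `cR`, `cP`
-/

open Finset

namespace Pool.Agent.R21.EQ

theorem norm_ex (t : ℝ) : ‖ex t‖ = 1 := by
  unfold ex
  exact Complex.norm_exp_ofReal_mul_I _

theorem ex_ne_zero (t : ℝ) : ex t ≠ 0 := Complex.exp_ne_zero _

theorem ex_zero : ex 0 = 1 := by simp [ex]

theorem ex_add (s t : ℝ) : ex (s + t) = ex s * ex t := by
  unfold ex
  rw [← Complex.exp_add]
  congr 1
  push_cast
  ring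

theorem ex_nat (n : ℕ) : ex n = 1 := by
  unfold ex
  rw [Complex.exp_eq_one_iff]
  exact ⟨n, by push_cast; ring⟩

theorem ex_add_nat (t : ℝ) (n : ℕ) : ex (t + n) = ex t := by
  rw [ex_add, ex_nat, mul_one]

theorem ex_conj (t : ℝ) : (starRingEnd ℂ) (ex t) = ex (-t) := by
  unfold ex
  rw [← Complex.exp_conj]
  congr 1
  rw [map_mul, Complex.conj_I, Complex.conj_ofReal]
  push_cast
  ring

theorem ex_continuous : Continuous ex := by
  unfold ex
  fun_prop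

theorem norm_ex_sub_one (t : ℝ) : ‖ex t - 1‖ ≤ 2 * Real.pi * |t| := by
  unfold ex
  rw [mul_comm ((2 * Real.pi * t : ℝ) : ℂ) Complex.I]
  refine (Real.norm_exp_I_mul_ofReal_sub_one_le).trans ?_
  rw [Real.norm_eq_abs, abs_mul, abs_of_pos (by positivity : (0 : ℝ) < 2 * Real.pi)]

theorem one_add_ne_zero {y : ℝ} (hy : 0 ≤ y) : (1 + (y : ℂ)) ≠ 0 := by
  have : ((1 + y : ℝ) : ℂ) ≠ 0 := by
    rw [Complex.ofReal_ne_zero]
    positivity
  simpa using this

theorem cf_continuous (y : ℝ) : Continuous (cf y) := by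
  unfold cf
  exact (continuous_const.add (continuous_const.mul ex_continuous)).div_const _

theorem cf_add_nat (y t : ℝ) (n : ℕ) : cf y (t + n) = cf y t := by
  unfold cf
  rw [ex_add_nat]

theorem norm_cf_le_one {y : ℝ} (hy : 0 ≤ y) (t : ℝ) : ‖cf y t‖ ≤ 1 := by
  unfold cf
  rw [norm_div]
  have h1 : ‖(1 + (y : ℂ))‖ = 1 + y := by
    have : (1 + (y : ℂ)) = ((1 + y : ℝ) : ℂ) := by push_cast; ring
    rw [this, Complex.norm_real, Real.norm_eq_abs, abs_of_nonneg (by positivity)]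
  rw [h1, div_le_one (by positivity)]
  refine (norm_add_le _ _).trans ?_
  rw [norm_mul, norm_ex, Complex.norm_real, Real.norm_eq_abs, abs_of_nonneg hy]
  simp

theorem cf_zero {y : ℝ} (hy : 0 ≤ y) : cf y 0 = 1 := by
  unfold cf
  rw [ex_zero, mul_one]
  exact div_self (one_add_ne_zero hy)

theorem cf_conj (y t : ℝ) : (starRingEnd ℂ) (cf y t) = cf y (-t) := by
  unfold cf
  rw [map_div₀, map_add, map_mul, ex_conj]
  simp

theorem cR_continuous (α : ℕ) (σ : ℝ) : Continuous (cR α σ) := by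
  unfold cR
  refine continuous_finsetProd _ ?_
  intro a _
  exact (cf_continuous _).comp (continuous_const.mul continuous_id)

theorem cR_add_nat (α : ℕ) (σ θ : ℝ) (n : ℕ) : cR α σ (θ + n) = cR α σ θ := by
  unfold cR
  refine prod_congr rfl ?_
  intro a _
  have : (3 : ℝ) ^ a * (θ + n) = 3 ^ a * θ + ((3 ^ a * n : ℕ) : ℝ) := by
    push_cast
    ring
  rw [this, cf_add_nat]

theorem cR_conj (α : ℕ) (σ θ : ℝ) : (starRingEnd ℂ) (cR α σ θ) = cR α σ (-θ) := by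
  unfold cR
  rw [map_prod]
  refine prod_congr rfl ?_
  intro a _
  rw [cf_conj, mul_neg]

theorem cR_zero (α : ℕ) (σ : ℝ) : cR α σ 0 = 1 := by
  unfold cR
  refine prod_eq_one ?_
  intro a _
  rw [mul_zero]
  exact cf_zero (Real.exp_pos _).le

theorem Rw_le_one (α : ℕ) (σ θ : ℝ) : Rw α σ θ ≤ 1 := by
  unfold Rw cR
  rw [norm_prod]
  exact prod_le_one (fun _ _ => norm_nonneg _) fun a _ => norm_cf_le_one (Real.exp_pos _).le _

theorem Rw_nonneg (α : ℕ) (σ θ : ℝ) : 0 ≤ Rw α σ θ := norm_nonneg _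

theorem Rw_continuous (α : ℕ) (σ : ℝ) : Continuous (Rw α σ) := (cR_continuous α σ).norm

theorem Rw_add_nat (α : ℕ) (σ θ : ℝ) (n : ℕ) : Rw α σ (θ + n) = Rw α σ θ := by
  unfold Rw
  rw [cR_add_nat]

theorem cP_continuous (α β : ℕ) (σ : ℝ) : Continuous (cP α β σ) := by
  unfold cP
  refine continuous_finsetProd _ ?_
  intro b _
  exact (cR_continuous _ _).comp (continuous_const.mul continuous_id)

theorem cP_add_nat (α β : ℕ) (σ θ : ℝ) (n : ℕ) : cP α β σ (θ + n) = cP α β σ θ := by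
  unfold cP
  refine prod_congr rfl ?_
  intro b _
  have : (4 : ℝ) ^ b * (θ + n) = 4 ^ b * θ + ((4 ^ b * n : ℕ) : ℝ) := by
    push_cast
    ring
  rw [this, cR_add_nat]

theorem cP_conj (α β : ℕ) (σ θ : ℝ) : (starRingEnd ℂ) (cP α β σ θ) = cP α β σ (-θ) := by
  unfold cP
  rw [map_prod]
  refine prod_congr rfl ?_
  intro b _
  rw [cR_conj, mul_neg]

theorem Ph_le_one (α β : ℕ) (σ θ : ℝ) : Ph α β σ θ ≤ 1 := by
  unfold Ph cP
  rw [norm_prod]
  exact prod_le_one (fun _ _ => norm_nonneg _) fun b _ => Rw_le_one _ _ _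

theorem Ph_nonneg (α β : ℕ) (σ θ : ℝ) : 0 ≤ Ph α β σ θ := norm_nonneg _

theorem Ph_continuous (α β : ℕ) (σ : ℝ) : Continuous (Ph α β σ) := (cP_continuous α β σ).norm

theorem Ph_add_nat (α β : ℕ) (σ θ : ℝ) (n : ℕ) : Ph α β σ (θ + n) = Ph α β σ θ := by
  unfold Ph
  rw [cP_add_nat]

theorem cP_succ (α β : ℕ) (σ θ : ℝ) :
    cP α (β + 1) σ θ = cR α σ θ * cP α β (4 * σ) (4 * θ) := by
  unfold cP
  rw [prod_range_succ', mul_comm]
  simp only [pow_zero, one_mul]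
  congr 1
  refine prod_congr rfl ?_
  intro b _
  rw [pow_succ, mul_assoc, mul_assoc]

theorem Ph_succ (α β : ℕ) (σ θ : ℝ) :
    Ph α (β + 1) σ θ = Rw α σ θ * Ph α β (4 * σ) (4 * θ) := by
  unfold Ph Rw
  rw [cP_succ, norm_mul]

/-- split off `j` rows -/
theorem Ph_split (α β j : ℕ) (σ θ : ℝ) :
    Ph α (j + β) σ θ = (∏ b ∈ range j, Rw α (4 ^ b * σ) (4 ^ b * θ)) *
      Ph α β (4 ^ j * σ) (4 ^ j * θ) := by
  unfold Ph Rw cP
  rw [prod_range_add, norm_mul, norm_prod]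
  congr 2
  refine prod_congr rfl ?_
  intro b _
  have h1 : (4 : ℝ) ^ (j + b) * σ = 4 ^ b * (4 ^ j * σ) := by rw [pow_add]; ring
  have h2 : (4 : ℝ) ^ (j + b) * θ = 4 ^ b * (4 ^ j * θ) := by rw [pow_add]; ring
  rw [h1, h2]

theorem Ph_quarter (α β : ℕ) (σ u : ℝ) (k : ℕ) :
    Ph α (β + 1) σ (k / 4 + u) = Rw α σ (k / 4 + u) * Ph α β (4 * σ) (4 * u) := by
  rw [Ph_succ]
  congr 1
  have : 4 * ((k : ℝ) / 4 + u) = 4 * u + k := by ring
  rw [this, Ph_add_nat]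

theorem LL_pos {σ : ℝ} (h1 : σ ≤ 1) (h0 : 0 < σ) : 1 ≤ LL σ := by
  unfold LL
  have := Real.log_nonpos h0.le h1
  linarith

end Pool.Agent.R21.EQ
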