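import Pool.Agent.R21.EQ.Stms

/-!
# Project EQ (MP_a28f5d_nt): central integrals
-/

set_option autoImplicit false

open Finset MeasureTheory

namespace Pool.Agent.R359.EQC

open Pool.Agent.R21.EQ

theorem cont_ex : Continuous ex := by
  unfold ex
  fun_prop

theorem cont_cP (α β : ℕ) (σ : ℝ) : Continuous (cP α β σ) := by
  unfold cP
  refine continuous_finsetProd _ fun b _ => ?_
  unfold cR
  refine continuous_finsetProd _ fun a _ => ?_
  unfold cf
  have h1 : Continuous fun θ : ℝ => ex (3 ^ a * (4 ^ b * θ)) :=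
    cont_ex.comp (by fun_prop)
  fun_prop

theorem cont_Ph (α β : ℕ) (σ : ℝ) : Continuous (Ph α β σ) := by
  unfold Ph
  exact (cont_cP α β σ).norm

theorem norm_ex' (t : ℝ) : ‖ex t‖ = 1 := by
  unfold ex
  exact Complex.norm_exp_ofReal_mul_I _

theorem Ph_le_one (α β : ℕ) (σ θ : ℝ) : Ph α β σ θ ≤ 1 := by
  unfold Ph cP
  rw [norm_prod]
  refine Finset.prod_le_one (fun _ _ => norm_nonneg _) fun b _ => ?_
  unfold cR
  rw [norm_prod]
  refine Finset.prod_le_one (fun _ _ => norm_nonneg _) fun a _ => ?_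
  unfold cf
  set y := Real.exp (-(3 ^ a * (4 ^ b * σ)))
  have hy : 0 < y := Real.exp_pos _
  have h1 : (0 : ℝ) < 1 + y := by linarith
  have h2 : ‖(1 : ℂ) + (y : ℂ)‖ = 1 + y := by
    have : (1 : ℂ) + (y : ℂ) = ((1 + y : ℝ) : ℂ) := by push_cast; ring
    rw [this, Complex.norm_real, Real.norm_eq_abs, abs_of_pos h1]
  rw [norm_div, h2, div_le_one h1]
  refine (norm_add_le _ _).trans ?_
  rw [norm_mul, norm_ex', norm_one, Complex.norm_real, Real.norm_eq_abs, abs_of_pos hy, mul_one]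

theorem LL_ge {σ : ℝ} (hσ : 0 < σ) (h1 : σ ≤ 1) : 1 ≤ LL σ := by
  unfold LL
  have := Real.log_nonpos hσ.le h1
  linarith

theorem gauss_int {b : ℝ} (hb : 0 < b) {x y : ℝ} (hxy : x ≤ y) :
    ∫ v in x..y, Real.exp (-(b * v ^ 2)) ≤ √(Real.pi / b) := by
  have e : (fun v : ℝ => Real.exp (-(b * v ^ 2))) = fun v : ℝ => Real.exp (-b * v ^ 2) := by
    funext v
    rw [neg_mul]
  rw [e, ← integral_gaussian b, intervalIntegral.integral_of_le hxy]
  exact setIntegral_le_integral (integrable_exp_neg_mul_sq hb)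
    (Filter.Eventually.of_forall fun v => (Real.exp_pos _).le)

theorem cont_gauss (b : ℝ) : Continuous fun v : ℝ => Real.exp (-(b * v ^ 2)) := by fun_prop

theorem kbd_of (h : S_Gau) : S_Kbd := by
  intro M hM
  obtain ⟨c, σ₀, hc, hσ₀, hσ₀1, hG⟩ := h M hM
  have hL0 : 1 ≤ LL σ₀ := LL_ge hσ₀ hσ₀1
  refine ⟨√(Real.pi / c) + 2 * M * √(LL σ₀), by positivity, fun σ hσ hσ1 α β hα hβ => ?_⟩
  have hL : 1 ≤ LL σ := LL_ge hσ hσ1
  have hLs : 0 < √(LL σ) := Real.sqrt_pos.2 (by linarith)
  have hMσ : -(M * σ) ≤ M * σ := by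
    have : 0 ≤ M * σ := by positivity
    linarith
  rw [le_div_iff₀ hLs, add_mul]
  rcases le_or_gt σ σ₀ with hs | hs
  · set b := c * LL σ / σ ^ 2 with hb
    have hb0 : 0 < b := by positivity
    have h1 : ∫ v in (-(M * σ))..(M * σ), Ph α β σ v ≤ √(Real.pi / b) := by
      refine le_trans ?_ (gauss_int hb0 hMσ)
      refine intervalIntegral.integral_mono_on hMσ ((cont_Ph α β σ).intervalIntegrable _ _)
        ((cont_gauss b).intervalIntegrable _ _) fun v hv => ?_
      refine (hG σ hσ hs α β hα hβ v (abs_le.2 ⟨hv.1, hv.2⟩)).trans (le_of_eq ?_)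
      congr 1
      rw [hb]
      field_simp
    have h2 : √(Real.pi / b) * √(LL σ) = √(Real.pi / c) * σ := by
      rw [← Real.sqrt_mul (by positivity)]
      have e : Real.pi / b * LL σ = Real.pi / c * σ ^ 2 := by
        rw [hb]
        field_simp
      rw [e, Real.sqrt_mul (by positivity), Real.sqrt_sq hσ.le]
    have h3 := mul_le_mul_of_nonneg_right h1 hLs.le
    have h4 : 0 ≤ 2 * M * √(LL σ₀) * σ := by positivity
    linarith
  · have h1 : ∫ v in (-(M * σ))..(M * σ), Ph α β σ v ≤ 2 * M * σ := by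
      have h2 : ∫ v in (-(M * σ))..(M * σ), Ph α β σ v ≤ ∫ _v in (-(M * σ))..(M * σ), (1 : ℝ) :=
        intervalIntegral.integral_mono_on hMσ ((cont_Ph α β σ).intervalIntegrable _ _)
          intervalIntegrable_const fun v _ => Ph_le_one _ _ _ _
      rw [intervalIntegral.integral_const, smul_eq_mul, mul_one] at h2
      linarith
    have h2 : √(LL σ) ≤ √(LL σ₀) := by
      refine Real.sqrt_le_sqrt ?_
      unfold LL
      have := Real.log_le_log hσ₀ hs.le
      linarith
    have h3 : 2 * M * σ * √(LL σ) ≤ 2 * M * σ * √(LL σ₀) :=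
      mul_le_mul_of_nonneg_left h2 (by positivity)
    have h4 := mul_le_mul_of_nonneg_right h1 hLs.le
    have h5 : 0 ≤ √(Real.pi / c) * σ := by positivity
    linarith

theorem k1_of (h : S_Gau) : S_K1 := by
  obtain ⟨c, σ₀, hc, hσ₀, hσ₀1, hG⟩ := h 1 le_rfl
  refine ⟨√(2 * Real.pi) / c, σ₀, by positivity, hσ₀, hσ₀1, fun σ hσ hs α β hα hβ δ hδ hδ1 => ?_⟩
  have hL : 1 ≤ LL σ := LL_ge hσ (hs.trans hσ₀1)
  set b := c * LL σ / σ ^ 2 with hb
  have hb0 : 0 < b := by positivity
  have hbs : 0 < √b := Real.sqrt_pos.2 hb0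
  have hδσ : δ * σ ≤ σ := mul_le_of_le_one_left hσ.le hδ1
  have hδ0 : 0 ≤ δ * σ := by positivity
  have hle : -(δ * σ) ≤ δ * σ := by linarith
  have h1 : ∫ v in (-(δ * σ))..(δ * σ), Ph α β σ v * |v| ≤
      ∫ v in (-(δ * σ))..(δ * σ), (1 / √b) * Real.exp (-((b / 2) * v ^ 2)) := by
    refine intervalIntegral.integral_mono_on hle
      (((cont_Ph α β σ).mul continuous_abs).intervalIntegrable _ _)
      ((continuous_const.mul (cont_gauss (b / 2))).intervalIntegrable _ _) fun v hv => ?_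
    have h2 := hG σ hσ hs α β hα hβ v (by
      rw [one_mul, abs_le]
      constructor <;> linarith [hv.1, hv.2])
    have e1 : -(c * LL σ * (v / σ) ^ 2) = -((b / 2) * v ^ 2) + -((b / 2) * v ^ 2) := by
      rw [hb]
      field_simp
      ring
    rw [e1, Real.exp_add] at h2
    set E := Real.exp (-((b / 2) * v ^ 2)) with hE
    have hE0 : 0 < E := Real.exp_pos _
    have h3 : √b * |v| * E ≤ 1 := by
      have h4 : √b * |v| ≤ Real.exp ((b / 2) * v ^ 2) := by
        have h5 := Real.add_one_le_exp ((b / 2) * v ^ 2)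
        have h6 : (√b * |v|) ^ 2 = b * v ^ 2 := by
          rw [mul_pow, Real.sq_sqrt hb0.le, sq_abs]
        nlinarith [sq_nonneg (√b * |v| - 1)]
      calc √b * |v| * E ≤ Real.exp ((b / 2) * v ^ 2) * E :=
            mul_le_mul_of_nonneg_right h4 hE0.le
        _ = 1 := by
            rw [hE, ← Real.exp_add]
            simp
    calc Ph α β σ v * |v| ≤ E * E * |v| := mul_le_mul_of_nonneg_right h2 (abs_nonneg v)
      _ = (1 / √b) * (√b * |v| * E) * E := by
          field_simp
      _ ≤ (1 / √b) * 1 * E := by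
          refine mul_le_mul_of_nonneg_right ?_ hE0.le
          exact mul_le_mul_of_nonneg_left h3 (by positivity)
      _ = 1 / √b * E := by ring
  refine h1.trans ?_
  rw [intervalIntegral.integral_const_mul]
  refine (mul_le_mul_of_nonneg_left (gauss_int (by positivity : 0 < b / 2) hle)
    (by positivity)).trans (le_of_eq ?_)
  have e2 : Real.pi / (b / 2) = 2 * Real.pi / b := by field_simp
  rw [e2, Real.sqrt_div' _ hb0.le, div_mul_div_comm, one_mul, Real.mul_self_sqrt hb0.le, hb]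
  field_simp

theorem var_le (α β : ℕ) (σ : ℝ) : var α β σ ≤ mom 2 α β σ := by
  unfold var mom
  refine Finset.sum_le_sum fun b _ => Finset.sum_le_sum fun a _ => ?_
  refine mul_le_mul_of_nonneg_left ?_ (by positivity)
  unfold pp
  set y := Real.exp (-(3 ^ a * 4 ^ b * σ)) with hy
  have hy0 : 0 < y := Real.exp_pos _
  have h1 : y / (1 + y) ≤ y := div_le_self hy0.le (by linarith)
  have h2 : 0 ≤ y / (1 + y) := by positivity
  nlinarith

theorem p0_of (h1 : S_Gau) (h2 : S_Loc) (h3 : S_Mom) : S_P0 := by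
  intro δ hδ hδ1
  obtain ⟨c, σ₁, hc, hσ₁, hσ₁1, hG⟩ := h1 1 le_rfl
  obtain ⟨Cl, hCl, hL⟩ := h2
  obtain ⟨Cm, hCm, hM⟩ := h3
  set C1 := 2 * Real.pi ^ 2 * Cm with hC1
  set C2 := Cl * Cm with hC2
  set C3 := √(2 * Real.pi / c) with hC3
  have hC1p : 0 < C1 := by positivity
  have hC2p : 0 < C2 := by positivity
  have hC3p : 0 < C3 := by
    rw [hC3]
    exact Real.sqrt_pos.2 (by positivity)
  set K := max 1 ((2 / c) * (C1 + 4 * C3)) with hK
  have hK1 : 1 ≤ K := le_max_left _ _
  have hK2 : (2 / c) * (C1 + 4 * C3) ≤ K := le_max_right _ _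
  have hK0 : 0 < K := by linarith
  set Q := 4 * K + K / δ + 4 * C2 * K ^ 4 * Real.exp C1 with hQ
  have hQ0 : 0 < Q := by positivity
  refine ⟨Real.exp (-C1), min σ₁ (Real.exp (-Q ^ 2)), Real.exp_pos _,
    lt_min hσ₁ (Real.exp_pos _), (min_le_left _ _).trans hσ₁1, ?_⟩
  intro σ hσ hs α β n hα hβ hmean
  have hs1 : σ ≤ σ₁ := hs.trans (min_le_left _ _)
  have hs2 : σ ≤ Real.exp (-Q ^ 2) := hs.trans (min_le_right _ _)
  have hσ1 : σ ≤ 1 := hs1.trans hσ₁1
  set L := LL σ with hLdef
  have hL1 : 1 ≤ L := LL_ge hσ hσ1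
  have hLQ : Q ^ 2 ≤ L := by
    have h4 : Real.log σ ≤ -Q ^ 2 := by
      rw [Real.log_le_iff_le_exp hσ]
      exact hs2
    rw [hLdef]
    unfold LL
    linarith
  set w := √L with hw
  have hw0 : 0 < w := Real.sqrt_pos.2 (by linarith)
  have hww : w ^ 2 = L := Real.sq_sqrt (by linarith)
  have hwQ : Q ≤ w := Real.le_sqrt_of_sq_le hLQ
  have hw4K : 4 * K ≤ w := by
    have h4 : 0 ≤ K / δ := by positivity
    have h5 : 0 ≤ 4 * C2 * K ^ 4 * Real.exp C1 := by positivity
    linarith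
  have hwδ : K ≤ δ * w := by
    have h4 : K / δ ≤ w := by
      have h5 : 0 ≤ 4 * C2 * K ^ 4 * Real.exp C1 := by positivity
      linarith
    rw [div_le_iff₀ hδ] at h4
    linarith
  have hwC : 4 * C2 * K ^ 4 * Real.exp C1 ≤ w := by
    have h4 : 0 ≤ K / δ := by positivity
    linarith
  set r := K * σ / w with hr
  set ρ := σ / w with hρ
  have hρ0 : 0 < ρ := by positivity
  have hr0 : 0 < r := by positivity
  have hρr : ρ ≤ r := by
    rw [hr, hρ]
    refine div_le_div_of_nonneg_right ?_ hw0.le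
    nlinarith
  have hr4 : r ≤ σ / 4 := by
    rw [hr, div_le_iff₀ hw0]
    nlinarith
  have hrδ : r ≤ δ * σ := by
    rw [hr, div_le_iff₀ hw0]
    nlinarith
  have hδσ : δ * σ ≤ σ := mul_le_of_le_one_left hσ.le hδ1
  set F : ℝ → ℂ := fun u => cP α β σ u * ex (-(n * u)) with hF
  have hFc : Continuous F := by
    rw [hF]
    refine (cont_cP α β σ).mul (cont_ex.comp ?_)
    fun_prop
  have hgc : Continuous fun u => (F u).re := Complex.continuous_re.comp hFc
  have hgi : ∀ x y : ℝ, IntervalIntegrable (fun u => (F u).re) volume x y := fun x y =>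
    hgc.intervalIntegrable x y
  have hre : (∫ u in (-(δ * σ))..(δ * σ), F u).re = ∫ u in (-(δ * σ))..(δ * σ), (F u).re :=
    (Complex.reCLM.intervalIntegral_comp_comm (hFc.intervalIntegrable _ _)).symm
  rw [hre]
  have hsplit : ∫ u in (-(δ * σ))..(δ * σ), (F u).re =
      (∫ u in (-(δ * σ))..(-r), (F u).re) + (∫ u in (-r)..r, (F u).re) +
        ∫ u in r..(δ * σ), (F u).re := by
    rw [intervalIntegral.integral_add_adjacent_intervals (hgi _ _) (hgi _ _),
      intervalIntegral.integral_add_adjacent_intervals (hgi _ _) (hgi _ _)]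
  rw [hsplit]
  -- the outer part
  set b := c * L / (2 * σ ^ 2) with hb
  have hb0 : 0 < b := by positivity
  set E := Real.exp (-(c * K ^ 2 / 2)) with hE
  have hE0 : 0 < E := Real.exp_pos _
  have hout : ∀ u : ℝ, r ≤ |u| → |u| ≤ δ * σ → -(E * Real.exp (-(b * u ^ 2))) ≤ (F u).re := by
    intro u hu1 hu2
    have h4 : ‖F u‖ ≤ Real.exp (-(c * L * (u / σ) ^ 2)) := by
      rw [hF]
      simp only [norm_mul, norm_ex', mul_one]
      exact hG σ hσ hs1 α β hα hβ u (by linarith)
    have h5 : -‖F u‖ ≤ (F u).re := by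
      have := Complex.abs_re_le_norm (F u)
      have := neg_abs_le (F u).re
      linarith
    have h6 : Real.exp (-(c * L * (u / σ) ^ 2)) ≤ E * Real.exp (-(b * u ^ 2)) := by
      rw [hE, ← Real.exp_add]
      refine Real.exp_le_exp.2 ?_
      have h7 : r ^ 2 ≤ u ^ 2 := by
        rw [← sq_abs u]
        exact pow_le_pow_left₀ hr0.le hu1 2
      have h8 : c * L * (u / σ) ^ 2 = 2 * (b * u ^ 2) := by
        rw [hb]
        field_simp
      have h9 : b * r ^ 2 = c * K ^ 2 / 2 := by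
        rw [hb, hr, ← hww]
        field_simp
      have h10 : b * r ^ 2 ≤ b * u ^ 2 := mul_le_mul_of_nonneg_left h7 hb0.le
      rw [h8]
      linarith
    linarith
  have hsq : √(Real.pi / b) = C3 * ρ := by
    have e : Real.pi / b = (2 * Real.pi / c) * ρ ^ 2 := by
      rw [hb, hρ, ← hww]
      field_simp
    rw [e, Real.sqrt_mul (by positivity), Real.sqrt_sq hρ0.le]
  have hEb : E * C3 ≤ Real.exp (-C1) / 4 := by
    have h4 : C1 + 4 * C3 ≤ c * K ^ 2 / 2 := by
      have h5 : C1 + 4 * C3 ≤ c * K / 2 := by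
        have := mul_le_mul_of_nonneg_left hK2 (by positivity : 0 ≤ c / 2)
        have e : c / 2 * ((2 / c) * (C1 + 4 * C3)) = C1 + 4 * C3 := by
          field_simp
        rw [e] at this
        linarith
      have h6 : K ≤ K ^ 2 := by nlinarith
      nlinarith
    have h5 : E ≤ Real.exp (-C1) * Real.exp (-(4 * C3)) := by
      rw [hE, ← Real.exp_add]
      exact Real.exp_le_exp.2 (by linarith)
    have h6 : Real.exp (-(4 * C3)) * (4 * C3) ≤ 1 := by
      have h7 := Real.add_one_le_exp (4 * C3)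
      calc Real.exp (-(4 * C3)) * (4 * C3) ≤ Real.exp (-(4 * C3)) * Real.exp (4 * C3) :=
            mul_le_mul_of_nonneg_left (by linarith) (Real.exp_pos _).le
        _ = 1 := by
            rw [← Real.exp_add]
            simp
    calc E * C3 ≤ Real.exp (-C1) * Real.exp (-(4 * C3)) * C3 :=
          mul_le_mul_of_nonneg_right h5 hC3p.le
      _ = Real.exp (-C1) * (Real.exp (-(4 * C3)) * (4 * C3)) / 4 := by ring
      _ ≤ Real.exp (-C1) * 1 / 4 := by
          refine div_le_div_of_nonneg_right ?_ (by norm_num)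
          exact mul_le_mul_of_nonneg_left h6 (Real.exp_pos _).le
      _ = Real.exp (-C1) / 4 := by rw [mul_one]
  have houtint : ∀ x y : ℝ, x ≤ y → (∀ u ∈ Set.Icc x y, r ≤ |u| ∧ |u| ≤ δ * σ) →
      -(Real.exp (-C1) / 4 * ρ) ≤ ∫ u in x..y, (F u).re := by
    intro x y hxy hu
    have h4 : ∫ u in x..y, -(E * Real.exp (-(b * u ^ 2))) ≤ ∫ u in x..y, (F u).re := by
      refine intervalIntegral.integral_mono_on hxy
        ((continuous_const.mul (cont_gauss b)).neg.intervalIntegrable _ _) (hgi _ _) ?_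
      intro u hux
      exact hout u (hu u hux).1 (hu u hux).2
    rw [intervalIntegral.integral_neg, intervalIntegral.integral_const_mul] at h4
    have h5 := gauss_int hb0 hxy
    rw [hsq] at h5
    have h6 : E * ∫ u in x..y, Real.exp (-(b * u ^ 2)) ≤ E * (C3 * ρ) :=
      mul_le_mul_of_nonneg_left h5 hE0.le
    have h7 : E * C3 * ρ ≤ Real.exp (-C1) / 4 * ρ := mul_le_mul_of_nonneg_right hEb hρ0.le
    linarith
  have hl := houtint (-(δ * σ)) (-r) (by linarith) (by
    intro u hu
    have : u ≤ 0 := by linarith [hu.2]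
    rw [abs_of_nonpos this]
    constructor <;> linarith [hu.1, hu.2])
  have hrr := houtint r (δ * σ) hrδ (by
    intro u hu
    have : 0 ≤ u := by linarith [hu.1]
    rw [abs_of_nonneg this]
    exact ⟨hu.1, hu.2⟩)
  -- the inner part
  set G : ℝ → ℝ := fun u => Real.exp (-(C1 * L / σ ^ 2 * u ^ 2)) with hGdef
  have hGc : Continuous G := cont_gauss _
  have hin : ∀ u ∈ Set.Icc (-r) r, G u - C2 * r ^ 3 * L / σ ^ 3 ≤ (F u).re := by
    intro u hu
    have hu1 : |u| ≤ r := abs_le.2 hu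
    have h4 := hL σ hσ α β u (hu1.trans hr4)
    rw [hmean] at h4
    obtain ⟨m2, m3⟩ := hM σ hσ hσ1 α β
    have h5 : Cl * |u| ^ 3 * mom 3 α β σ ≤ C2 * r ^ 3 * L / σ ^ 3 := by
      have h6 : |u| ^ 3 ≤ r ^ 3 := pow_le_pow_left₀ (abs_nonneg u) hu1 3
      calc Cl * |u| ^ 3 * mom 3 α β σ ≤ Cl * |u| ^ 3 * (Cm * L / σ ^ 3) :=
            mul_le_mul_of_nonneg_left m3 (by positivity)
        _ ≤ Cl * r ^ 3 * (Cm * L / σ ^ 3) := by
            refine mul_le_mul_of_nonneg_right ?_ (by positivity)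
            exact mul_le_mul_of_nonneg_left h6 hCl.le
        _ = C2 * r ^ 3 * L / σ ^ 3 := by
            rw [hC2]
            ring
    have h7 : G u ≤ Real.exp (-(2 * Real.pi ^ 2 * u ^ 2 * var α β σ)) := by
      rw [hGdef]
      refine Real.exp_le_exp.2 ?_
      have h8 := (var_le α β σ).trans m2
      have h9 : 2 * Real.pi ^ 2 * u ^ 2 * var α β σ ≤
          2 * Real.pi ^ 2 * u ^ 2 * (Cm * L / σ ^ 2) :=
        mul_le_mul_of_nonneg_left h8 (by positivity)
      have e : 2 * Real.pi ^ 2 * u ^ 2 * (Cm * L / σ ^ 2) = C1 * L / σ ^ 2 * u ^ 2 := by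
        rw [hC1]
        ring
      linarith
    have h10 : Real.exp (-(2 * Real.pi ^ 2 * u ^ 2 * var α β σ)) -
        Cl * |u| ^ 3 * mom 3 α β σ ≤ (F u).re := by
      have h11 := (Complex.abs_re_le_norm _).trans h4
      rw [Complex.sub_re, Complex.ofReal_re] at h11
      have h12 := (abs_le.1 h11).1
      rw [hF]
      simp only
      linarith
    linarith
  have hinint : 2 * ρ * Real.exp (-C1) - 2 * r * (C2 * r ^ 3 * L / σ ^ 3) ≤
      ∫ u in (-r)..r, (F u).re := by
    have h4 : ∫ u in (-r)..r, (G u - C2 * r ^ 3 * L / σ ^ 3) ≤ ∫ u in (-r)..r, (F u).re :=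
      intervalIntegral.integral_mono_on (by linarith)
        ((hGc.sub continuous_const).intervalIntegrable _ _) (hgi _ _) hin
    rw [intervalIntegral.integral_sub (hGc.intervalIntegrable _ _) intervalIntegrable_const,
      intervalIntegral.integral_const, smul_eq_mul] at h4
    have h5 : 2 * ρ * Real.exp (-C1) ≤ ∫ u in (-r)..r, G u := by
      have h6 : ∫ u in (-ρ)..ρ, G u ≤ ∫ u in (-r)..r, G u := by
        refine intervalIntegral.integral_mono_interval (by linarith) (by linarith) hρr ?_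
          (hGc.intervalIntegrable _ _)
        exact Filter.Eventually.of_forall fun u => (Real.exp_pos _).le
      have h7 : ∫ _u in (-ρ)..ρ, Real.exp (-C1) ≤ ∫ u in (-ρ)..ρ, G u := by
        refine intervalIntegral.integral_mono_on (by linarith) intervalIntegrable_const
          (hGc.intervalIntegrable _ _) fun u hu => ?_
        rw [hGdef]
        refine Real.exp_le_exp.2 ?_
        have h8 : u ^ 2 ≤ ρ ^ 2 := by
          rw [← sq_abs u]
          exact pow_le_pow_left₀ (abs_nonneg u) (abs_le.2 hu) 2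
        have h9 : C1 * L / σ ^ 2 * ρ ^ 2 = C1 := by
          rw [hρ, ← hww]
          field_simp
        have h10 := mul_le_mul_of_nonneg_left h8 (by positivity : 0 ≤ C1 * L / σ ^ 2)
        linarith
      rw [intervalIntegral.integral_const, smul_eq_mul] at h7
      linarith
    have e : (r - -r) * (C2 * r ^ 3 * L / σ ^ 3) = 2 * r * (C2 * r ^ 3 * L / σ ^ 3) := by ring
    rw [e] at h4
    linarith
  have herr : 2 * r * (C2 * r ^ 3 * L / σ ^ 3) ≤ Real.exp (-C1) / 2 * ρ := by
    have e : 2 * r * (C2 * r ^ 3 * L / σ ^ 3) = 2 * C2 * K ^ 4 / w * ρ := by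
      rw [hr, hρ, ← hww]
      field_simp
    rw [e]
    refine mul_le_mul_of_nonneg_right ?_ hρ0.le
    rw [div_le_iff₀ hw0]
    have h4 := mul_le_mul_of_nonneg_left hwC (Real.exp_pos (-C1)).le
    have h5 : Real.exp (-C1) * (4 * C2 * K ^ 4 * Real.exp C1) = 4 * C2 * K ^ 4 := by
      have : Real.exp (-C1) * Real.exp C1 = 1 := by
        rw [← Real.exp_add]
        simp
      calc Real.exp (-C1) * (4 * C2 * K ^ 4 * Real.exp C1) =
            4 * C2 * K ^ 4 * (Real.exp (-C1) * Real.exp C1) := by ring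
        _ = _ := by rw [this, mul_one]
    rw [h5] at h4
    linarith
  have hfin : Real.exp (-C1) * σ / w = Real.exp (-C1) * ρ := by
    rw [hρ]
    ring
  rw [hfin]
  linarith

end Pool.Agent.R359.EQC
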