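import Pool.Agent.R21.EQ.Stms

/-!
MP_a28f5d_nt, piece EQ-DEC: tiling of the circle.
-/

set_option autoImplicit false

namespace Pool.Agent.R339.EQDec

open Finset Pool.Agent.R21.EQ

/-- reindexing of fractions by lowest terms -/
theorem reindex (g : ℝ → ℂ) (J : ℕ) :
    ∑ k ∈ range (4 ^ J), g ((k : ℝ) / 4 ^ J) = g 0 +
      ∑ j ∈ range J, ∑ k ∈ (range (4 ^ (j + 1))).filter (fun k => ¬ 4 ∣ k),
        g ((k : ℝ) / 4 ^ (j + 1)) := by
  induction J with
  | zero => simp
  | succ J ih =>
    rw [Finset.sum_range_succ, ← add_assoc, ← ih,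
      ← Finset.sum_filter_add_sum_filter_not (range (4 ^ (J + 1))) (fun k => 4 ∣ k)]
    congr 1
    refine Finset.sum_nbij' (fun k => k / 4) (fun k => 4 * k) ?_ ?_ ?_ ?_ ?_
    · intro k hk
      rw [Finset.mem_filter, Finset.mem_range] at hk
      rw [Finset.mem_range]
      obtain ⟨hk1, k', rfl⟩ := hk
      rw [pow_succ] at hk1
      omega
    · intro k hk
      rw [Finset.mem_range] at hk
      rw [Finset.mem_filter, Finset.mem_range, pow_succ]
      exact ⟨by omega, dvd_mul_right 4 k⟩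
    · intro k hk
      rw [Finset.mem_filter] at hk
      obtain ⟨k', rfl⟩ := hk.2
      omega
    · intro k _
      omega
    · intro k hk
      rw [Finset.mem_filter] at hk
      obtain ⟨k', rfl⟩ := hk.2
      congr 1
      have : 4 * k' / 4 = k' := by omega
      rw [this, pow_succ]
      push_cast
      field_simp

end Pool.Agent.R339.EQDec

namespace Pool.Agent.R21.EQ

open Finset Pool.Agent.R339.EQDec

theorem dec : S_Dec := by
  intro Φ hc hper J η hη hJ
  have h4 : (0 : ℝ) < 4 ^ J := by positivity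
  have hp : Function.Periodic Φ 1 := hper
  have hint : ∀ a b : ℝ, IntervalIntegrable Φ MeasureTheory.volume a b := fun a b =>
    hc.intervalIntegrable a b
  have e1 : ∫ θ in (0 : ℝ)..1, Φ θ = ∫ θ in (-η)..(1 - η), Φ θ := by
    have h := hp.intervalIntegral_add_eq 0 (-η)
    rw [zero_add] at h
    rw [h]
    congr 1
    ring
  have e2 : ∫ θ in (-η)..(1 - η), Φ θ =
      ∑ k ∈ range (4 ^ J), ∫ θ in ((k : ℝ) / 4 ^ J - η)..(((k + 1 : ℕ) : ℝ) / 4 ^ J - η), Φ θ := by
    have h := intervalIntegral.sum_integral_adjacent_intervals (f := Φ)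
      (μ := MeasureTheory.volume) (a := fun k : ℕ => (k : ℝ) / 4 ^ J - η) (n := 4 ^ J)
      (fun k _ => hint _ _)
    rw [h]
    congr 1
    · simp
    · push_cast
      rw [div_self h4.ne']
  have e3 : ∀ k : ℕ, ∫ θ in ((k : ℝ) / 4 ^ J - η)..(((k + 1 : ℕ) : ℝ) / 4 ^ J - η), Φ θ =
      (∫ u in (-η)..η, Φ ((k : ℝ) / 4 ^ J + u)) +
        ∫ u in η..(1 / 4 ^ J - η), Φ ((k : ℝ) / 4 ^ J + u) := by
    intro k
    have hc' : Continuous fun u => Φ ((k : ℝ) / 4 ^ J + u) := hc.comp (by fun_prop)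
    rw [intervalIntegral.integral_add_adjacent_intervals (hc'.intervalIntegrable _ _)
      (hc'.intervalIntegrable _ _), intervalIntegral.integral_comp_add_left (fun x => Φ x)]
    congr 1
    push_cast
    ring
  rw [e1, e2, Finset.sum_congr rfl fun k _ => e3 k, Finset.sum_add_distrib]
  congr 1
  have h := reindex (fun t => ∫ u in (-η)..η, Φ (t + u)) J
  simp only [zero_add] at h
  exact h

end Pool.Agent.R21.EQ
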