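import Pool.Agent.R21.EQ.Basic

/-!
# Project EQ: the final assembly
-/

open Finset Filter Topology

namespace Pool.Agent.R21.EQ

theorem LL_tendsto : Tendsto LL (𝓝[>] 0) atTop := by
  have h : Tendsto (fun σ : ℝ => -Real.log σ) (𝓝[>] 0) atTop :=
    tendsto_neg_atBot_atTop.comp Real.tendsto_log_nhdsGT_zero
  have h2 := tendsto_atTop_add_const_left (𝓝[>] (0:ℝ)) (1 : ℝ) h
  refine h2.congr ?_
  intro σ
  unfold LL
  ring

theorem small (K c ε : ℝ) (hc : 0 < c) (hε : 0 < ε) :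
    ∃ σ₀ : ℝ, 0 < σ₀ ∧ σ₀ ≤ 1 ∧ ∀ σ : ℝ, 0 < σ → σ ≤ σ₀ →
      K / √(LL σ) ≤ ε ∧ K * (√(LL σ) * Real.exp (-(c * LL (4 * σ)))) ≤ ε ∧
        K * (√σ * √(LL σ)) ≤ ε := by
  have h1 : Tendsto (fun σ => K / √(LL σ)) (𝓝[>] 0) (𝓝 0) :=
    tendsto_const_nhds.div_atTop (Real.tendsto_sqrt_atTop.comp LL_tendsto)
  have h2 : Tendsto (fun σ => (K * Real.exp (c * Real.log 4)) *
      ((LL σ) ^ (1 / 2 : ℝ) * Real.exp (-c * LL σ))) (𝓝[>] 0) (𝓝 0) := by
    have := (tendsto_rpow_mul_exp_neg_mul_atTop_nhds_zero (1 / 2) c hc).comp LL_tendsto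
    have h3 := this.const_mul (K * Real.exp (c * Real.log 4))
    rw [mul_zero] at h3
    exact h3
  have h3 : Tendsto (fun σ : ℝ => K * √(σ - σ * Real.log σ)) (𝓝[>] 0) (𝓝 0) := by
    have hc : Continuous fun σ : ℝ => K * √(σ - σ * Real.log σ) :=
      continuous_const.mul (Real.continuous_sqrt.comp (continuous_id.sub Real.continuous_mul_log))
    have := (hc.tendsto 0).mono_left (nhdsWithin_le_nhds (s := Set.Ioi 0))
    simpa using this
  have e1 := h1.eventually (ge_mem_nhds hε)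
  have e2 := h2.eventually (ge_mem_nhds hε)
  have e3 := h3.eventually (ge_mem_nhds hε)
  have hall := e1.and (e2.and e3)
  rw [eventually_iff, mem_nhdsGT_iff_exists_Ioc_subset] at hall
  obtain ⟨u, hu, hsub⟩ := hall
  refine ⟨min u 1, lt_min hu one_pos, min_le_right _ _, ?_⟩
  intro σ h0 hσ
  obtain ⟨a1, a2, a3⟩ := hsub ⟨h0, hσ.trans (min_le_left _ _)⟩
  refine ⟨a1, ?_, ?_⟩
  · refine le_trans (le_of_eq ?_) a2
    have hLL : LL (4 * σ) = LL σ - Real.log 4 := by
      unfold LL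
      rw [Real.log_mul (by norm_num) h0.ne']
      ring
    rw [hLL, Real.sqrt_eq_rpow]
    have : Real.exp (-(c * (LL σ - Real.log 4))) =
        Real.exp (c * Real.log 4) * Real.exp (-c * LL σ) := by
      rw [← Real.exp_add]
      congr 1
      ring
    rw [this]
    ring
  · refine le_trans (le_of_eq ?_) a3
    rw [← Real.sqrt_mul h0.le]
    congr 2
    unfold LL
    ring

/-- the integrand -/
noncomputable def PhiF (n α β : ℕ) (σ θ : ℝ) : ℂ :=
  cP α β σ θ * ex (-(n * θ)) * ((Real.exp σ : ℂ) * ex (-θ) - 1)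

theorem PhiF_continuous (n α β : ℕ) (σ : ℝ) : Continuous (PhiF n α β σ) := by
  unfold PhiF
  have h1 := cP_continuous α β σ
  have h2 : Continuous fun θ : ℝ => ex (-(n * θ)) :=
    ex_continuous.comp (continuous_const.mul continuous_id).neg
  have h3 : Continuous fun θ : ℝ => ex (-θ) := ex_continuous.comp continuous_neg
  exact (h1.mul h2).mul ((continuous_const.mul h3).sub continuous_const)

theorem ex_neg_nat (n : ℕ) : ex (-(n : ℝ)) = 1 := by
  have h := ex_add (-(n : ℝ)) n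
  rw [neg_add_cancel, ex_zero, ex_nat, mul_one] at h
  exact h.symm

theorem PhiF_per (n α β : ℕ) (σ θ : ℝ) : PhiF n α β σ (θ + 1) = PhiF n α β σ θ := by
  unfold PhiF
  have h1 : cP α β σ (θ + 1) = cP α β σ θ := by
    have := cP_add_nat α β σ θ 1
    simpa using this
  have h2 : ex (-(n * (θ + 1))) = ex (-(n * θ)) := by
    have : -((n : ℝ) * (θ + 1)) = -(n * θ) + -(n : ℝ) := by ring
    rw [this, ex_add, ex_neg_nat, mul_one]
  have h3 : ex (-(θ + 1)) = ex (-θ) := by
    have : -(θ + 1) = -θ + -((1 : ℕ) : ℝ) := by push_cast; ring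
    rw [this, ex_add, ex_neg_nat, mul_one]
  rw [h1, h2, h3]

theorem PhiF_conj (n α β : ℕ) (σ θ : ℝ) :
    (starRingEnd ℂ) (PhiF n α β σ θ) = PhiF n α β σ (-θ) := by
  unfold PhiF
  rw [map_mul, map_mul, cP_conj, ex_conj, map_sub, map_mul, ex_conj, Complex.conj_ofReal, map_one]
  congr 2
  congr 1
  ring

theorem norm_last (σ θ : ℝ) : ‖(Real.exp σ : ℂ) * ex (-θ) - 1‖ ≤ Real.exp σ + 1 := by
  refine (norm_sub_le _ _).trans ?_
  rw [norm_mul, norm_ex, Complex.norm_real, Real.norm_eq_abs, abs_of_pos (Real.exp_pos _)]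
  simp

theorem PhiF_norm (n α β : ℕ) {σ : ℝ} (hσ : Real.exp σ ≤ 2) (θ : ℝ) :
    ‖PhiF n α β σ θ‖ ≤ 3 * Ph α β σ θ := by
  unfold PhiF
  rw [norm_mul, norm_mul, norm_ex, mul_one]
  have h1 := norm_last σ θ
  have h2 := Ph_nonneg α β σ θ
  have h3 : ‖cP α β σ θ‖ = Ph α β σ θ := rfl
  rw [h3]
  nlinarith

theorem conj_integral (g : ℝ → ℂ) (hg : Continuous g) (r : ℝ) :
    (starRingEnd ℂ) (∫ u in (-r)..r, g u) = ∫ u in (-r)..r, (starRingEnd ℂ) (g (-u)) := by
  have h1 : ∫ u in (-r)..r, (starRingEnd ℂ) (g (-u)) = ∫ u in (-r)..r, (starRingEnd ℂ) (g u) := by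
    have := intervalIntegral.integral_comp_neg (a := -r) (b := r)
      (f := fun u => (starRingEnd ℂ) (g u))
    rw [neg_neg] at this
    exact this
  rw [h1]
  have h2 := Complex.conjCLE.toContinuousLinearMap.intervalIntegral_comp_comm (a := -r) (b := r)
    (hg.intervalIntegrable (μ := MeasureTheory.volume) (-r) r)
  simpa using h2.symm

theorem re_B1 {n α β' : ℕ} {σ Cp Cq : ℝ} (h0 : 0 < σ) (h1 : σ ≤ 1) (he : Real.exp σ ≤ 2)
    (hLa : 0 < La α σ) {u : ℝ} (hu : cR α σ u ≠ 0) (hCq : 0 < Cq)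
    (hp : ‖cR α σ (1 / 4 + u) / cR α σ u - cR α σ (1 / 4)‖ ≤ Cp * (|u| / σ) / La α σ)
    (hq : Rw α σ (1 / 4) ≤ Cq / La α σ) :
    ‖PhiF n α (β' + 1) σ (1 / 4 + u) -
      (ex (-(n / 4)) * (cR α σ (1 / 4) * ((Real.exp σ : ℂ) * ex (-(1 / 4)) - 1))) *
        (cP α (β' + 1) σ u * ex (-(n * u)))‖ ≤
      (3 * Cp + 13 * Cq) / (σ * La α σ) * (Ph α (β' + 1) σ u * |u|) := by
  have hcP : cP α (β' + 1) σ (1 / 4 + u) =
      (cR α σ (1 / 4 + u) / cR α σ u) * cP α (β' + 1) σ u := by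
    rw [cP_succ, cP_succ α β' σ u]
    have h4 : 4 * (1 / 4 + u) = 4 * u + ((1 : ℕ) : ℝ) := by push_cast; ring
    rw [h4, cP_add_nat]
    field_simp
  have hx1 : ex (-(n * (1 / 4 + u))) = ex (-(n / 4)) * ex (-(n * u)) := by
    rw [← ex_add]
    congr 1
    ring
  have hx2 : ex (-(1 / 4 + u)) = ex (-(1 / 4)) * ex (-u) := by
    rw [← ex_add]
    congr 1
    ring
  unfold PhiF
  rw [hcP, hx1, hx2]
  set T := cR α σ (1 / 4 + u) / cR α σ u with hT
  set c := cR α σ (1 / 4) with hcdef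
  set q := ex (-(1 / 4)) with hqdef
  have key : T * cP α (β' + 1) σ u * (ex (-(n / 4)) * ex (-(n * u))) *
      ((Real.exp σ : ℂ) * (q * ex (-u)) - 1) -
      ex (-(n / 4)) * (c * ((Real.exp σ : ℂ) * q - 1)) * (cP α (β' + 1) σ u * ex (-(n * u))) =
      cP α (β' + 1) σ u * (ex (-(n * u)) * ex (-(n / 4))) *
        ((T - c) * ((Real.exp σ : ℂ) * (q * ex (-u)) - 1) +
          c * (Real.exp σ : ℂ) * q * (ex (-u) - 1)) := by
    ring
  rw [key, norm_mul, norm_mul, norm_mul, norm_ex, norm_ex, one_mul, mul_one]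
  have hPh : ‖cP α (β' + 1) σ u‖ = Ph α (β' + 1) σ u := rfl
  rw [hPh]
  have hE : ‖(Real.exp σ : ℂ)‖ = Real.exp σ := by
    rw [Complex.norm_real, Real.norm_eq_abs, abs_of_pos (Real.exp_pos _)]
  have hb : ‖(T - c) * ((Real.exp σ : ℂ) * (q * ex (-u)) - 1) +
      c * (Real.exp σ : ℂ) * q * (ex (-u) - 1)‖ ≤
      (3 * Cp + 13 * Cq) / (σ * La α σ) * |u| := by
    refine (norm_add_le _ _).trans ?_
    rw [norm_mul, norm_mul, norm_mul, norm_mul, hE]
    have hn1 : ‖(Real.exp σ : ℂ) * (q * ex (-u)) - 1‖ ≤ 3 := by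
      rw [hqdef, ← ex_add]
      have := norm_last σ (1 / 4 + u)
      have h5 : -(1 / 4 + u) = -(1 / 4) + -u := by ring
      rw [h5] at this
      linarith
    have hn2 : ‖ex (-u) - 1‖ ≤ 2 * Real.pi * |u| := by
      have := norm_ex_sub_one (-u)
      rwa [abs_neg] at this
    have hn3 : ‖q‖ = 1 := norm_ex _
    have hn4 : ‖c‖ ≤ Cq / La α σ := hq
    rw [hn3, mul_one]
    have hu0 := abs_nonneg u
    have hus : |u| ≤ |u| / σ := by
      rw [le_div_iff₀ h0]
      nlinarith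
    have t1 : ‖T - c‖ * ‖(Real.exp σ : ℂ) * (q * ex (-u)) - 1‖ ≤
        (Cp * (|u| / σ) / La α σ) * 3 :=
      mul_le_mul hp hn1 (norm_nonneg _) ((norm_nonneg _).trans hp)
    have hpi : Real.pi ≤ 13 / 4 := by
      have := Real.pi_lt_d2
      linarith
    have t2 : ‖c‖ * Real.exp σ * ‖ex (-u) - 1‖ ≤ (Cq / La α σ * 2) * (13 / 2 * (|u| / σ)) := by
      refine mul_le_mul (mul_le_mul hn4 he (Real.exp_pos _).le ?_) ?_ (norm_nonneg _) ?_
      · exact (norm_nonneg _).trans hn4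
      · refine hn2.trans ?_
        have : 2 * Real.pi * |u| ≤ 13 / 2 * |u| :=
          mul_le_mul_of_nonneg_right (by linarith) hu0
        refine this.trans ?_
        exact mul_le_mul_of_nonneg_left hus (by norm_num)
      · have : 0 ≤ Cq / La α σ := (norm_nonneg _).trans hn4
        positivity
    refine (add_le_add t1 t2).trans (le_of_eq ?_)
    field_simp
  calc Ph α (β' + 1) σ u * ‖(T - c) * ((Real.exp σ : ℂ) * (q * ex (-u)) - 1) +
      c * (Real.exp σ : ℂ) * q * (ex (-u) - 1)‖ ≤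
      Ph α (β' + 1) σ u * ((3 * Cp + 13 * Cq) / (σ * La α σ) * |u|) :=
        mul_le_mul_of_nonneg_left hb (Ph_nonneg _ _ _ _)
    _ = _ := by ring

theorem alg1 {L s σ cs c0 C' C1 M Cq x : ℝ} (hL : 0 < L) (hs : 0 < s) (hσ : 0 < σ) :
    L * s / σ * (cs * c0 / 2 * σ / (L * s) +
      2 * (C' / (σ * L) * (C1 * σ ^ 2 / (s * s))) + 4 * (3 * (Cq / L) * x * (M * σ)) +
      (2 + 7 * M) * σ * (2 * M * σ)) =
      cs * c0 / 2 + 2 * C' * C1 / s + 12 * M * Cq * (s * x) +
      (2 + 7 * M) * (2 * M) * ((L * σ) * s) := by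
  field_simp
  ring

theorem alg2 {X e A0 A1 R1 R2 B V b r a : ℝ} (hre : |A0 + 2 * A1| ≤ e) (hB : |B - V| ≤ b)
    (hR1 : |R1| ≤ r) (hR2 : |R2| ≤ r) (hA0 : |A0| ≤ a) (hA1 : A1 = R1 + (B + R2))
    (hV : X ≤ |V|) : 2 * X ≤ e + 2 * b + 4 * r + a := by
  rw [abs_le] at hre hB hR1 hR2 hA0
  rcases le_abs'.1 hV with h | h <;> linarith [hre.1, hre.2, hB.1, hB.2, hR1.1, hR1.2, hR2.1,
      hR2.2, hA0.1, hA0.2]

set_option maxHeartbeats 4000000 in
theorem fin_of (hFour : S_Four) (hSad : S_Sad) (hMin : S_Min) (hP0 : S_P0) (hK1 : S_K1)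
    (hGau : S_Gau) (hQua : S_Qua) (hPert : S_Pert) (hSec : S_Sec) (hLam : S_Lam) : S_Ans := by
  obtain ⟨cs, σs, hcs, hσs, hσs1, hsec⟩ := hSec
  obtain ⟨Cp, δ, hCp, hδ, hδ1, hpert⟩ := hPert
  obtain ⟨c0, σ1, hc0, hσ1, hσ11, hp0⟩ := hP0 δ hδ hδ1
  obtain ⟨C1, σ2, hC1, hσ2, hσ21, hk1⟩ := hK1
  obtain ⟨M, hM1, hmin⟩ := hMin
  obtain ⟨Cq, hCq, hqua⟩ := hQua M hM1
  obtain ⟨cg, σ3, hcg, hσ3, hσ31, hgau⟩ := hGau M hM1
  obtain ⟨hl1, -, -, Cl, hCl, hl4⟩ := hLam
  have hM0 : 0 < M := by linarith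
  obtain ⟨σ4, hσ4, hσ41, hmin⟩ := hmin M le_rfl (cs * c0 / 2) (by positivity)
  set C' : ℝ := 3 * Cp + 13 * Cq with hC'
  have hC'0 : 0 < C' := by positivity
  obtain ⟨σ5, hσ5, hσ51, hs5⟩ := small (2 * C' * C1) (cg * δ ^ 2) (cs * c0 / 4)
    (by positivity) (by positivity)
  obtain ⟨σ6, hσ6, hσ61, hs6⟩ := small (12 * M * Cq) (cg * δ ^ 2) (cs * c0 / 4)
    (by positivity) (by positivity)
  obtain ⟨σ7, hσ7, hσ71, hs7⟩ := small ((2 + 7 * M) * (2 * M) * Cl) (cg * δ ^ 2) (cs * c0 / 4)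
    (by positivity) (by positivity)
  set σ0 : ℝ := min (min (min σs σ1) (min σ2 (σ3 / 4))) (min (min σ4 σ5) (min (min σ6 σ7) (1 / 4)))
    with hσ0
  have hσ0pos : 0 < σ0 := by
    rw [hσ0]
    refine lt_min (lt_min (lt_min hσs hσ1) (lt_min hσ2 (by positivity)))
      (lt_min (lt_min hσ4 hσ5) (lt_min (lt_min hσ6 hσ7) (by norm_num)))
  obtain ⟨n0, hn0⟩ := hSad σ0 hσ0pos
  refine ⟨n0, fun n hn heq => ?_⟩
  obtain ⟨σ, h0, hle, h3, hmean⟩ := hn0 n hn
  have g1 : σ ≤ σs := hle.trans ((min_le_left _ _).trans ((min_le_left _ _).trans (min_le_left _ _)))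
  have g2 : σ ≤ σ1 := hle.trans ((min_le_left _ _).trans ((min_le_left _ _).trans (min_le_right _ _)))
  have g3 : σ ≤ σ2 := hle.trans ((min_le_left _ _).trans ((min_le_right _ _).trans (min_le_left _ _)))
  have g4 : σ ≤ σ3 / 4 :=
    hle.trans ((min_le_left _ _).trans ((min_le_right _ _).trans (min_le_right _ _)))
  have g5 : σ ≤ σ4 := hle.trans ((min_le_right _ _).trans ((min_le_left _ _).trans (min_le_left _ _)))
  have g6 : σ ≤ σ5 := hle.trans ((min_le_right _ _).trans ((min_le_left _ _).trans (min_le_right _ _)))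
  have g7 : σ ≤ σ6 := hle.trans ((min_le_right _ _).trans ((min_le_right _ _).trans
    ((min_le_left _ _).trans (min_le_left _ _))))
  have g8 : σ ≤ σ7 := hle.trans ((min_le_right _ _).trans ((min_le_right _ _).trans
    ((min_le_left _ _).trans (min_le_right _ _))))
  have g9 : σ ≤ 1 / 4 := hle.trans ((min_le_right _ _).trans ((min_le_right _ _).trans
    (min_le_right _ _)))
  have h1 : σ ≤ 1 := by linarith
  have h4 : 1 ≤ 4 ^ (n + 2) * σ := by
    refine h3.trans (mul_le_mul_of_nonneg_right ?_ h0.le)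
    exact pow_le_pow_left₀ (by norm_num) (by norm_num) _
  have he : Real.exp σ ≤ 2 := by
    have := Real.exp_bound_div_one_sub_of_interval h0.le (by linarith : σ < 1)
    refine this.trans ?_
    rw [div_le_iff₀ (by linarith)]
    linarith
  set α := n + 2 with hα
  set L := La α σ with hL
  have hLpos : 0 < L := by
    have := (hl1 α σ h0).1
    linarith
  have hLL : 1 ≤ LL σ := LL_pos h1 h0
  set s := √(LL σ) with hs
  have hspos : 0 < s := Real.sqrt_pos.2 (by linarith)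
  have hs2 : s * s = LL σ := Real.mul_self_sqrt (by linarith)
  -- the whole integral vanishes
  have hzero := hFour n α (n + 2) (by
      have : α < 3 ^ α := Nat.lt_pow_self (by norm_num)
      omega) (by
      have : n + 2 < 4 ^ (n + 2) := Nat.lt_pow_self (by norm_num)
      omega) heq σ h0
  set Φ : ℝ → ℂ := PhiF n α (n + 2) σ with hΦ
  have hΦc : Continuous Φ := PhiF_continuous _ _ _ _
  have hmain := hmin σ h0 g5 α (n + 2) h3 h4 Φ hΦc (PhiF_per _ _ _ _) (PhiF_norm _ _ _ he)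
  have hz : ∫ θ in (0 : ℝ)..1, Φ θ = 0 := hzero
  rw [hz, zero_sub, norm_neg] at hmain
  -- split
  have hΦ1 : Continuous fun u : ℝ => Φ (1 / 4 + u) := hΦc.comp (continuous_const.add continuous_id)
  have hΦ3 : Continuous fun u : ℝ => Φ (3 / 4 + u) := hΦc.comp (continuous_const.add continuous_id)
  have hsplit : ∫ u in (-(M * σ))..(M * σ), (Φ u + (Φ (1 / 4 + u) + Φ (3 / 4 + u))) =
      (∫ u in (-(M * σ))..(M * σ), Φ u) + ((∫ u in (-(M * σ))..(M * σ), Φ (1 / 4 + u)) +
        ∫ u in (-(M * σ))..(M * σ), Φ (3 / 4 + u)) := by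
    have hI : IntervalIntegrable (fun u => Φ (1 / 4 + u) + Φ (3 / 4 + u)) MeasureTheory.volume
        (-(M * σ)) (M * σ) := (hΦ1.add hΦ3).intervalIntegrable _ _
    rw [intervalIntegral.integral_add (hΦc.intervalIntegrable _ _) hI,
      intervalIntegral.integral_add (hΦ1.intervalIntegrable _ _) (hΦ3.intervalIntegrable _ _)]
  rw [hsplit] at hmain
  set A0 := ∫ u in (-(M * σ))..(M * σ), Φ u with hA0
  set A1 := ∫ u in (-(M * σ))..(M * σ), Φ (1 / 4 + u) with hA1
  have hA3 : ∫ u in (-(M * σ))..(M * σ), Φ (3 / 4 + u) = (starRingEnd ℂ) A1 := by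
    rw [hA1, conj_integral _ hΦ1]
    refine intervalIntegral.integral_congr ?_
    intro u _
    dsimp only
    rw [hΦ, PhiF_conj]
    have : -(1 / 4 + -u) = (3 / 4 + u) - 1 := by ring
    rw [this]
    have h5 := PhiF_per n α (n + 2) σ (3 / 4 + u - 1)
    rw [sub_add_cancel] at h5
    exact h5
  rw [hA3] at hmain
  have hre : |(A0 + (A1 + (starRingEnd ℂ) A1)).re| ≤ cs * c0 / 2 * σ / (L * s) :=
    (Complex.abs_re_le_norm _).trans hmain
  have hre2 : (A0 + (A1 + (starRingEnd ℂ) A1)).re = A0.re + 2 * A1.re := by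
    simp
    ring
  rw [hre2] at hre
  -- bound of A0
  have hA0b : ‖A0‖ ≤ (2 + 7 * M) * σ * (2 * M * σ) := by
    have := intervalIntegral.norm_integral_le_of_norm_le_const (a := -(M * σ)) (b := M * σ)
      (f := Φ) (C := (2 + 7 * M) * σ) (by
        intro u hu
        rw [Set.uIoc_of_le (by have := mul_pos hM0 h0; linarith only [this])] at hu
        have hu' : |u| ≤ M * σ := abs_le.2 ⟨hu.1.le, hu.2⟩
        rw [hΦ]
        unfold PhiF
        rw [norm_mul, norm_mul, norm_ex, mul_one]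
        have e1 : ‖cP α (n + 2) σ u‖ ≤ 1 := Ph_le_one _ _ _ _
        have e2 : ‖(Real.exp σ : ℂ) * ex (-u) - 1‖ ≤ (2 + 7 * M) * σ := by
          have : (Real.exp σ : ℂ) * ex (-u) - 1 =
              ((Real.exp σ - 1 : ℝ) : ℂ) * ex (-u) + (ex (-u) - 1) := by
            push_cast
            ring
          rw [this]
          refine (norm_add_le _ _).trans ?_
          rw [norm_mul, norm_ex, mul_one, Complex.norm_real, Real.norm_eq_abs,
            abs_of_nonneg (by linarith [Real.one_le_exp h0.le])]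
          have e3 := norm_ex_sub_one (-u)
          rw [abs_neg] at e3
          have e4 : 2 * Real.pi * |u| ≤ 7 * (M * σ) := by
            have hpi := Real.pi_lt_d2
            have hu0 := abs_nonneg u
            have h8 : 2 * Real.pi * |u| ≤ 7 * |u| :=
              mul_le_mul_of_nonneg_right (by linarith only [hpi]) hu0
            linarith only [h8, hu']
          have e5 : Real.exp σ - 1 ≤ 2 * σ := by
            have := Real.exp_bound_div_one_sub_of_interval h0.le (by linarith : σ < 1)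
            have h6 : 1 / (1 - σ) ≤ 1 + 2 * σ := by
              rw [div_le_iff₀ (by linarith only [g9])]
              have h7 := mul_nonneg h0.le (by linarith only [g9] : 0 ≤ 1 - 2 * σ)
              linarith only [h7]
            linarith only [this, h6]
          linarith
        calc ‖cP α (n + 2) σ u‖ * ‖(Real.exp σ : ℂ) * ex (-u) - 1‖ ≤ 1 * ((2 + 7 * M) * σ) :=
              mul_le_mul e1 e2 (norm_nonneg _) zero_le_one
          _ = _ := one_mul _)
    refine this.trans (le_of_eq ?_)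
    rw [show M * σ - -(M * σ) = 2 * M * σ by ring, abs_of_nonneg (by positivity)]
  -- the rest of the arc at 1/4
  have hfar : ∀ u : ℝ, δ * σ ≤ |u| → |u| ≤ M * σ →
      ‖Φ (1 / 4 + u)‖ ≤ 3 * (Cq / L) * Real.exp (-(cg * δ ^ 2 * LL (4 * σ))) := by
    intro u hu1 hu2
    refine (PhiF_norm _ _ _ he _).trans ?_
    have e1 : Ph α (n + 2) σ (1 / 4 + u) = Rw α σ (1 / 4 + u) * Ph α (n + 1) (4 * σ) (4 * u) := by
      have := Ph_quarter α (n + 1) σ u 1
      simpa using this
    rw [e1]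
    have e2 : Rw α σ (1 / 4 + u) ≤ Cq / L := by
      have := hqua σ h0 h1 α 1 (by norm_num) u hu2
      simpa using this
    have e3 : Ph α (n + 1) (4 * σ) (4 * u) ≤ Real.exp (-(cg * δ ^ 2 * LL (4 * σ))) := by
      refine (hgau (4 * σ) (by linarith only [h0]) (by linarith only [g4]) α (n + 1)
        (by linarith only [h3]) ?_ (4 * u) ?_).trans ?_
      · have : (4 : ℝ) ^ (n + 1) * (4 * σ) = 4 ^ (n + 2) * σ := by ring
        rw [this]
        exact h4
      · rw [abs_mul, abs_of_pos (by norm_num : (0:ℝ) < 4)]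
        linarith
      · apply Real.exp_le_exp.2
        have hLL4 : 0 ≤ LL (4 * σ) := by
          have := LL_pos (σ := 4 * σ) (by linarith) (by linarith)
          linarith
        have hsq : δ ^ 2 ≤ (4 * u / (4 * σ)) ^ 2 := by
          have : 4 * u / (4 * σ) = u / σ := by field_simp
          rw [this, ← sq_abs (u / σ), abs_div, abs_of_pos h0]
          apply pow_le_pow_left₀ hδ.le
          rw [le_div_iff₀ h0]
          exact hu1
        have h9 := mul_le_mul_of_nonneg_left hsq (mul_nonneg hcg.le hLL4)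
        linarith only [h9]
    have e4 : 0 ≤ Rw α σ (1 / 4 + u) := Rw_nonneg _ _ _
    have e5 : 0 ≤ Ph α (n + 1) (4 * σ) (4 * u) := Ph_nonneg _ _ _ _
    have e6 : Rw α σ (1 / 4 + u) * Ph α (n + 1) (4 * σ) (4 * u) ≤
        Cq / L * Real.exp (-(cg * δ ^ 2 * LL (4 * σ))) :=
      mul_le_mul e2 e3 e5 (e4.trans e2)
    linarith
  have hδM : δ * σ ≤ M * σ := mul_le_mul_of_nonneg_right (hδ1.trans hM1) h0.le
  set far : ℝ := 3 * (Cq / L) * Real.exp (-(cg * δ ^ 2 * LL (4 * σ))) with hfardef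
  have hfar0 : 0 ≤ far := by positivity
  have hA1split : A1 = (∫ u in (-(M * σ))..(-(δ * σ)), Φ (1 / 4 + u)) +
      ((∫ u in (-(δ * σ))..(δ * σ), Φ (1 / 4 + u)) + ∫ u in (δ * σ)..(M * σ), Φ (1 / 4 + u)) := by
    rw [intervalIntegral.integral_add_adjacent_intervals (hΦ1.intervalIntegrable _ _)
      (hΦ1.intervalIntegrable _ _), intervalIntegral.integral_add_adjacent_intervals
      (hΦ1.intervalIntegrable _ _) (hΦ1.intervalIntegrable _ _)]
  have hδσ : 0 < δ * σ := by positivity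
  have hr1 : ‖∫ u in (-(M * σ))..(-(δ * σ)), Φ (1 / 4 + u)‖ ≤ far * (M * σ) := by
    have := intervalIntegral.norm_integral_le_of_norm_le_const (a := -(M * σ)) (b := -(δ * σ))
      (f := fun u => Φ (1 / 4 + u)) (C := far) (by
        intro u hu
        rw [Set.uIoc_of_le (by linarith)] at hu
        have hneg : u ≤ 0 := by linarith [hu.2]
        apply hfar
        · rw [abs_of_nonpos hneg]
          linarith [hu.2]
        · rw [abs_of_nonpos hneg]
          linarith [hu.1])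
    refine this.trans (mul_le_mul_of_nonneg_left ?_ hfar0)
    rw [abs_of_nonneg (by linarith)]
    linarith
  have hr2 : ‖∫ u in (δ * σ)..(M * σ), Φ (1 / 4 + u)‖ ≤ far * (M * σ) := by
    have := intervalIntegral.norm_integral_le_of_norm_le_const (a := δ * σ) (b := M * σ)
      (f := fun u => Φ (1 / 4 + u)) (C := far) (by
        intro u hu
        rw [Set.uIoc_of_le (by linarith)] at hu
        have hpos : 0 ≤ u := by linarith [hu.1]
        apply hfar
        · rw [abs_of_nonneg hpos]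
          linarith [hu.1]
        · rw [abs_of_nonneg hpos]
          linarith [hu.2])
    refine this.trans (mul_le_mul_of_nonneg_left ?_ hfar0)
    rw [abs_of_nonneg (by linarith)]
    linarith
  -- the main part
  set W : ℂ := ex (-(n / 4)) * (cR α σ (1 / 4) * ((Real.exp σ : ℂ) * ex (-(1 / 4)) - 1)) with hW
  set g : ℝ → ℂ := fun u => cP α (n + 2) σ u * ex (-(n * u)) with hg
  have hgc : Continuous g :=
    (cP_continuous _ _ _).mul (ex_continuous.comp (continuous_const.mul continuous_id).neg)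
  set p : ℂ := ∫ u in (-(δ * σ))..(δ * σ), g u with hp
  have hpreal : (starRingEnd ℂ) p = p := by
    rw [hp, conj_integral _ hgc]
    refine intervalIntegral.integral_congr ?_
    intro u _
    simp only [hg]
    rw [map_mul, cP_conj, ex_conj, neg_neg, neg_neg]
    congr 2
    ring
  have hpim : p.im = 0 := Complex.conj_eq_iff_im.1 hpreal
  have hpre : c0 * σ / s ≤ p.re := hp0 σ h0 g2 α (n + 2) n h3 h4 hmean
  have hWre : cs / L ≤ |W.re| := hsec σ h0 g1 α h3 n
  have hdiff : ‖(∫ u in (-(δ * σ))..(δ * σ), Φ (1 / 4 + u)) - W * p‖ ≤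
      C' / (σ * L) * (C1 * σ ^ 2 / LL σ) := by
    have e1 : (∫ u in (-(δ * σ))..(δ * σ), Φ (1 / 4 + u)) - W * p =
        ∫ u in (-(δ * σ))..(δ * σ), (Φ (1 / 4 + u) - W * g u) := by
      have hI2 : IntervalIntegrable (fun u => W * g u) MeasureTheory.volume
          (-(δ * σ)) (δ * σ) := (continuous_const.mul hgc).intervalIntegrable _ _
      rw [intervalIntegral.integral_sub (hΦ1.intervalIntegrable _ _) hI2,
        intervalIntegral.integral_const_mul]
    rw [e1]
    have e2 : ‖∫ u in (-(δ * σ))..(δ * σ), (Φ (1 / 4 + u) - W * g u)‖ ≤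
        ∫ u in (-(δ * σ))..(δ * σ), C' / (σ * L) * (Ph α (n + 2) σ u * |u|) := by
      refine intervalIntegral.norm_integral_le_of_norm_le (by linarith) ?_ ?_
      · refine Filter.Eventually.of_forall ?_
        intro u hu
        have hu' : |u| ≤ δ * σ := abs_le.2 ⟨hu.1.le, hu.2⟩
        obtain ⟨hne, hpe⟩ := hpert σ h0 h1 α u hu'
        have hq : Rw α σ (1 / 4) ≤ Cq / La α σ := by
          have := hqua σ h0 h1 α 1 (by norm_num) 0 (by rw [abs_zero]; positivity)
          simpa using this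
        exact re_B1 h0 h1 he hLpos hne hCq hpe hq
      · exact (continuous_const.mul ((Ph_continuous _ _ _).mul continuous_abs)).intervalIntegrable
          _ _
    refine e2.trans ?_
    rw [intervalIntegral.integral_const_mul]
    exact mul_le_mul_of_nonneg_left (hk1 σ h0 g3 α (n + 2) h3 h4 δ hδ hδ1) (by positivity)
  -- final inequality
  have hWp : cs / L * (c0 * σ / s) ≤ |(W * p).re| := by
    have : (W * p).re = W.re * p.re := by
      rw [Complex.mul_re, hpim, mul_zero, sub_zero]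
    rw [this, abs_mul]
    have hp1 : 0 ≤ c0 * σ / s := by positivity
    refine mul_le_mul hWre (hpre.trans (le_abs_self _)) hp1 (abs_nonneg _)
  have hB := (Complex.abs_re_le_norm _).trans hdiff
  have hR1 := (Complex.abs_re_le_norm _).trans hr1
  have hR2 := (Complex.abs_re_le_norm _).trans hr2
  have hA0r := (Complex.abs_re_le_norm _).trans hA0b
  rw [Complex.sub_re] at hB
  have hA1re := congrArg Complex.re hA1split
  rw [Complex.add_re, Complex.add_re] at hA1re
  have hfinal : 2 * (cs / L * (c0 * σ / s)) ≤ cs * c0 / 2 * σ / (L * s) +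
      2 * (C' / (σ * L) * (C1 * σ ^ 2 / LL σ)) + 4 * (far * (M * σ)) +
      (2 + 7 * M) * σ * (2 * M * σ) := alg2 hre hB hR1 hR2 hA0r hA1re hWp
  -- multiply by L s / σ
  have hmul := mul_le_mul_of_nonneg_left hfinal (by positivity : 0 ≤ L * s / σ)
  have m1 : L * s / σ * (2 * (cs / L * (c0 * σ / s))) = 2 * (cs * c0) := by
    field_simp
  have m2 : L * s / σ * (cs * c0 / 2 * σ / (L * s) +
      2 * (C' / (σ * L) * (C1 * σ ^ 2 / LL σ)) + 4 * (far * (M * σ)) +
      (2 + 7 * M) * σ * (2 * M * σ)) =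
      cs * c0 / 2 + 2 * C' * C1 / s + 12 * M * Cq *
        (s * Real.exp (-(cg * δ ^ 2 * LL (4 * σ)))) +
      (2 + 7 * M) * (2 * M) * ((L * σ) * s) := by
    rw [hfardef, ← hs2]
    exact alg1 hLpos hspos h0
  rw [m1, m2] at hmul
  have q1 := (hs5 σ h0 g6).1
  have q2 := (hs6 σ h0 g7).2.1
  have q3 := (hs7 σ h0 g8).2.2
  have q4 : L * σ ≤ Cl * √σ := by
    have := hl4 α σ h0 h1
    have h6 := mul_le_mul_of_nonneg_right this (Real.sqrt_nonneg σ)
    rw [mul_assoc, Real.mul_self_sqrt h0.le] at h6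
    exact h6
  have q5 : (2 + 7 * M) * (2 * M) * ((L * σ) * s) ≤ (2 + 7 * M) * (2 * M) * Cl * (√σ * s) := by
    have := mul_le_mul_of_nonneg_right q4 hspos.le
    have h7 : 0 ≤ (2 + 7 * M) * (2 * M) := by positivity
    have h8 := mul_le_mul_of_nonneg_left this h7
    linarith only [h8]
  have hpos : 0 < cs * c0 := by positivity
  linarith

end Pool.Agent.R21.EQ
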