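import Pool.Agent.R21.EQ.Stms

/-!
# Project EQ, piece FOUR: coefficient extraction
-/

open Finset

namespace Pool.Agent.R21.EQ.Four

/-- the part with the given exponents -/
def sx (x : ℕ × ℕ) : ℕ := 3 ^ x.1 * 4 ^ x.2

lemma sx_inj : Function.Injective sx := by
  rintro ⟨a, b⟩ ⟨a', b'⟩ h
  unfold sx at h
  simp only at h
  have hf : ∀ a b : ℕ, (3 ^ a * 4 ^ b).factorization 3 = a := by
    intro a b
    rw [Nat.factorization_mul (by positivity) (by positivity), Nat.factorization_pow,
      Nat.factorization_pow]
    have h4 : Nat.factorization 4 3 = 0 := Nat.factorization_eq_zero_of_not_dvd (by norm_num)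
    have h3 : Nat.factorization 3 3 = 1 := by
      rw [Nat.Prime.factorization_self (by norm_num)]
    simp [h4, h3]
  have ha : a = a' := by
    have := congrArg (fun m => Nat.factorization m 3) h
    simp only [hf] at this
    exact this
  subst ha
  have h2 : 4 ^ b = 4 ^ b' := Nat.eq_of_mul_eq_mul_left (by positivity) h
  have hb : b = b' := Nat.pow_right_injective (by norm_num) h2
  rw [hb]

/-- the index set -/
def BX (α β : ℕ) : Finset (ℕ × ℕ) := range α ×ˢ range β

/-- the sum of the parts -/
def mm (T : Finset (ℕ × ℕ)) : ℕ := ∑ x ∈ T, sx x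

lemma f_eq (α β m : ℕ) (h3 : m < 3 ^ α) (h4 : m < 4 ^ β) :
    f 3 4 m = ((BX α β).powerset.filter fun T => mm T = m).card := by
  classical
  unfold f
  have hset : {T : Finset ℕ | (T : Set ℕ) ⊆ SS 3 4 ∧ ∑ t ∈ T, t = m} =
      (((BX α β).powerset.filter fun T => mm T = m).image (fun T => T.image sx) :
        Finset (Finset ℕ)) := by
    ext T
    rw [mem_coe, mem_image]
    constructor
    · rintro ⟨hT, hs⟩
      have hle : ∀ t ∈ T, t ≤ m := by
        intro t ht
        rw [← hs]
        exact single_le_sum (f := fun t : ℕ => t) (fun _ _ => Nat.zero_le _) ht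
      refine ⟨(BX α β).filter (fun x => sx x ∈ T), ?_, ?_⟩
      · have himg : ((BX α β).filter (fun x => sx x ∈ T)).image sx = T := by
          ext t
          rw [mem_image]
          constructor
          · rintro ⟨x, hx, rfl⟩
            exact (mem_filter.1 hx).2
          · intro ht
            obtain ⟨a, b, hab⟩ := hT ht
            refine ⟨(a, b), ?_, hab.symm⟩
            rw [mem_filter]
            refine ⟨?_, by unfold sx; rw [← hab]; exact ht⟩
            unfold BX
            rw [mem_product, mem_range, mem_range]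
            have h1 := hle t ht
            constructor
            · by_contra h
              push Not at h
              have h5 : 3 ^ α ≤ 3 ^ a := Nat.pow_le_pow_right (by norm_num) h
              have h6 : 3 ^ a ≤ 3 ^ a * 4 ^ b := Nat.le_mul_of_pos_right _ (by positivity)
              omega
            · by_contra h
              push Not at h
              have h5 : 4 ^ β ≤ 4 ^ b := Nat.pow_le_pow_right (by norm_num) h
              have h6 : 4 ^ b ≤ 3 ^ a * 4 ^ b := Nat.le_mul_of_pos_left _ (by positivity)
              omega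
        rw [mem_filter, mem_powerset]
        refine ⟨filter_subset _ _, ?_⟩
        unfold mm
        rw [← hs]
        conv_rhs => rw [← himg]
        rw [sum_image (fun x _ y _ h => sx_inj h)]
      · ext t
        rw [mem_image]
        constructor
        · rintro ⟨x, hx, rfl⟩
          exact (mem_filter.1 hx).2
        · intro ht
          obtain ⟨a, b, hab⟩ := hT ht
          refine ⟨(a, b), ?_, hab.symm⟩
          rw [mem_filter]
          refine ⟨?_, by unfold sx; rw [← hab]; exact ht⟩
          unfold BX
          rw [mem_product, mem_range, mem_range]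
          have h1 := hle t ht
          constructor
          · by_contra h
            push Not at h
            have h5 : 3 ^ α ≤ 3 ^ a := Nat.pow_le_pow_right (by norm_num) h
            have h6 : 3 ^ a ≤ 3 ^ a * 4 ^ b := Nat.le_mul_of_pos_right _ (by positivity)
            omega
          · by_contra h
            push Not at h
            have h5 : 4 ^ β ≤ 4 ^ b := Nat.pow_le_pow_right (by norm_num) h
            have h6 : 4 ^ b ≤ 3 ^ a * 4 ^ b := Nat.le_mul_of_pos_left _ (by positivity)
            omega
    · rintro ⟨T', hT', rfl⟩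
      rw [mem_filter] at hT'
      constructor
      · intro t ht
        rw [mem_coe, mem_image] at ht
        obtain ⟨x, _, rfl⟩ := ht
        exact ⟨x.1, x.2, rfl⟩
      · rw [sum_image (fun x _ y _ h => sx_inj h)]
        exact hT'.2
  rw [hset, Set.ncard_coe_finset, card_image_of_injective]
  exact Finset.image_injective sx_inj

lemma ex_add (s t : ℝ) : ex (s + t) = ex s * ex t := by
  unfold ex
  rw [← Complex.exp_add]
  congr 1
  push_cast
  ring

lemma ex_zero : ex 0 = 1 := by
  unfold ex
  simp

lemma ex_sum {ι : Type*} (T : Finset ι) (g : ι → ℝ) : ∏ x ∈ T, ex (g x) = ex (∑ x ∈ T, g x) := by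
  classical
  induction T using Finset.induction_on with
  | empty => simp [ex_zero]
  | insert a T ha ih => rw [prod_insert ha, sum_insert ha, ih, ex_add]

lemma ex_cont : Continuous ex := by
  unfold ex
  fun_prop

lemma int_ex (k : ℤ) : ∫ θ in (0 : ℝ)..1, ex (k * θ) = if k = 0 then 1 else 0 := by
  split_ifs with h
  · subst h
    simp [ex_zero]
  · have hc : ((2 * Real.pi * k : ℝ) : ℂ) * Complex.I ≠ 0 := by
      apply mul_ne_zero _ Complex.I_ne_zero
      have : (2 * Real.pi * k : ℝ) ≠ 0 := by
        have : (k : ℝ) ≠ 0 := by exact_mod_cast h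
        have := Real.pi_ne_zero
        positivity
      exact_mod_cast this
    have h1 : ∀ θ : ℝ, ex (k * θ) = Complex.exp ((((2 * Real.pi * k : ℝ) : ℂ) * Complex.I) * θ) := by
      intro θ
      unfold ex
      congr 1
      push_cast
      ring
    simp only [h1]
    rw [integral_exp_mul_complex hc]
    have h2 : Complex.exp ((((2 * Real.pi * k : ℝ) : ℂ) * Complex.I) * ((1 : ℝ) : ℂ)) = 1 := by
      rw [Complex.exp_eq_one_iff]
      exact ⟨k, by push_cast; ring⟩
    rw [h2]
    simp

/-- the normalising factor -/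
noncomputable def ZZ (α β : ℕ) (σ : ℝ) : ℝ := ∏ x ∈ BX α β, (1 + Real.exp (-(sx x * σ)))

lemma cP_eq (α β : ℕ) (σ θ : ℝ) : cP α β σ θ =
    ((ZZ α β σ : ℝ) : ℂ)⁻¹ * ∑ T ∈ (BX α β).powerset,
      ((Real.exp (-(mm T * σ)) : ℝ) : ℂ) * ex (mm T * θ) := by
  have h1 : cP α β σ θ = ∏ x ∈ BX α β, cf (Real.exp (-(sx x * σ))) (sx x * θ) := by
    unfold cP cR BX
    rw [prod_product_right]
    apply prod_congr rfl
    intro b _
    apply prod_congr rfl
    intro a _
    unfold sx
    push_cast
    congr 1
    · congr 2; ring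
    · ring
  rw [h1]
  unfold cf
  rw [prod_div_distrib]
  have h2 : ∏ x ∈ BX α β, (1 + ((Real.exp (-(sx x * σ)) : ℝ) : ℂ)) = ((ZZ α β σ : ℝ) : ℂ) := by
    unfold ZZ
    push_cast
    rfl
  rw [h2, div_eq_inv_mul]
  congr 1
  rw [prod_one_add]
  apply sum_congr rfl
  intro T _
  rw [prod_mul_distrib, ex_sum]
  congr 1
  · rw [← Complex.ofReal_prod, ← Real.exp_sum]
    congr 2
    unfold mm
    push_cast
    rw [sum_mul, sum_neg_distrib]
  · congr 1
    unfold mm
    push_cast
    rw [sum_mul]

end Pool.Agent.R21.EQ.Four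

namespace Pool.Agent.R21.EQ

open Four

theorem four : S_Four := by
  intro n α β hα hβ hf σ hσ
  have hint : ∀ k : ℤ, IntervalIntegrable (fun θ : ℝ => ex (k * θ)) MeasureTheory.volume 0 1 := by
    intro k
    apply Continuous.intervalIntegrable
    exact ex_cont.comp (by fun_prop)
  have h1 : ∀ θ : ℝ, cP α β σ θ * ex (-(n * θ)) * ((Real.exp σ : ℂ) * ex (-θ) - 1) =
      ((ZZ α β σ : ℝ) : ℂ)⁻¹ * ∑ T ∈ (BX α β).powerset, ((Real.exp (-(mm T * σ)) : ℝ) : ℂ) *
        ((Real.exp σ : ℂ) * ex (((mm T - (n + 1) : ℤ) : ℝ) * θ) - ex (((mm T - n : ℤ) : ℝ) * θ)) := by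
    intro θ
    rw [cP_eq, mul_assoc, mul_assoc, sum_mul]
    congr 1
    apply sum_congr rfl
    intro T _
    have e1 : ex (((mm T - (n + 1) : ℤ) : ℝ) * θ) = ex (mm T * θ) * (ex (-(n * θ)) * ex (-θ)) := by
      rw [← ex_add, ← ex_add]
      congr 1
      push_cast
      ring
    have e2 : ex (((mm T - n : ℤ) : ℝ) * θ) = ex (mm T * θ) * ex (-(n * θ)) := by
      rw [← ex_add]
      congr 1
      push_cast
      ring
    rw [e1, e2]
    ring
  simp only [h1]
  rw [intervalIntegral.integral_const_mul, intervalIntegral.integral_finset_sum]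
  · have h2 : ∀ T ∈ (BX α β).powerset, ∫ θ in (0 : ℝ)..1, ((Real.exp (-(mm T * σ)) : ℝ) : ℂ) *
        ((Real.exp σ : ℂ) * ex (((mm T - (n + 1) : ℤ) : ℝ) * θ) - ex (((mm T - n : ℤ) : ℝ) * θ)) =
        ((Real.exp (-(n * σ)) : ℝ) : ℂ) * ((if mm T = n + 1 then 1 else 0) -
          (if mm T = n then 1 else 0)) := by
      intro T _
      rw [intervalIntegral.integral_const_mul, intervalIntegral.integral_sub
        ((hint _).const_mul _) (hint _), intervalIntegral.integral_const_mul, int_ex, int_ex]
      by_cases c1 : mm T = n + 1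
      · have c2 : mm T ≠ n := by omega
        have d1 : ((mm T : ℤ) - (n + 1)) = 0 := by rw [c1]; push_cast; ring
        have d2 : ((mm T : ℤ) - n) ≠ 0 := by rw [c1]; push_cast; omega
        rw [if_pos d1, if_neg d2, if_pos c1, if_neg c2]
        rw [mul_one, sub_zero, sub_zero, mul_one, ← Complex.ofReal_mul, ← Real.exp_add]
        congr 2
        rw [c1]
        push_cast
        ring
      · by_cases c2 : mm T = n
        · have d1 : ((mm T : ℤ) - (n + 1)) ≠ 0 := by rw [c2]; omega
          have d2 : ((mm T : ℤ) - n) = 0 := by rw [c2]; ring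
          rw [if_neg d1, if_pos d2, if_neg c1, if_pos c2, c2]
          ring
        · have d1 : ((mm T : ℤ) - (n + 1)) ≠ 0 := by omega
          have d2 : ((mm T : ℤ) - n) ≠ 0 := by omega
          rw [if_neg d1, if_neg d2, if_neg c1, if_neg c2]
          ring
    rw [sum_congr rfl h2, ← mul_sum, sum_sub_distrib]
    have h3 : ∀ m : ℕ, (∑ T ∈ (BX α β).powerset, (if mm T = m then (1 : ℂ) else 0)) =
        (((BX α β).powerset.filter fun T => mm T = m).card : ℂ) := by
      intro m
      rw [sum_boole]
    rw [h3, h3, ← f_eq α β (n + 1) hα hβ, ← f_eq α β n (by omega) (by omega), hf, sub_self,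
      mul_zero, mul_zero]
  · intro T _
    exact (((hint _).const_mul _).sub (hint _)).const_mul _

end Pool.Agent.R21.EQ
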