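import Pool.Agent.R21.EQ.Stms

/-! Project EQ, piece GAU (helper764). -/

open Finset

namespace Pool.Agent.R764.EQG

open Pool.Agent.R21.EQ

lemma ex_re (t : ℝ) : (ex t).re = Real.cos (2 * Real.pi * t) := by
  rw [ex, Complex.exp_ofReal_mul_I_re]

lemma ex_im (t : ℝ) : (ex t).im = Real.sin (2 * Real.pi * t) := by
  rw [ex, Complex.exp_ofReal_mul_I_im]

lemma norm_sq_cf {y : ℝ} (hy : 0 ≤ y) (t : ℝ) :
    ‖cf y t‖ ^ 2 = 1 - 4 * y / (1 + y) ^ 2 * Real.sin (Real.pi * t) ^ 2 := by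
  have h1 : (1 + y) ≠ 0 := by positivity
  have hn : ‖(1 + (y : ℂ) * ex t)‖ ^ 2 = 1 + 2 * y * Real.cos (2 * Real.pi * t) + y ^ 2 := by
    rw [← Complex.normSq_eq_norm_sq, Complex.normSq_apply]
    simp only [Complex.add_re, Complex.add_im, Complex.one_re, Complex.one_im, Complex.mul_re,
      Complex.mul_im, Complex.ofReal_re, Complex.ofReal_im, ex_re, ex_im]
    nlinarith [Real.sin_sq_add_cos_sq (2 * Real.pi * t)]
  have hd : ‖(1 + (y : ℂ))‖ = 1 + y := by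
    rw [show (1 + (y : ℂ)) = ((1 + y : ℝ) : ℂ) by push_cast; ring, Complex.norm_real,
      Real.norm_of_nonneg (by positivity)]
  rw [cf, norm_div, div_pow, hn, hd]
  have hc : Real.cos (2 * Real.pi * t) = 1 - 2 * Real.sin (Real.pi * t) ^ 2 := by
    rw [show 2 * Real.pi * t = 2 * (Real.pi * t) by ring, Real.cos_two_mul, Real.cos_sq']
    ring
  rw [hc]
  field_simp
  ring

lemma norm_cf_le_one {y : ℝ} (hy : 0 ≤ y) (t : ℝ) : ‖cf y t‖ ≤ 1 := by
  have h := norm_sq_cf hy t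
  have h2 : 0 ≤ 4 * y / (1 + y) ^ 2 * Real.sin (Real.pi * t) ^ 2 := by positivity
  have h3 : ‖cf y t‖ ^ 2 ≤ 1 := by linarith
  nlinarith [norm_nonneg (cf y t)]

lemma Rw_eq (α : ℕ) (σ θ : ℝ) :
    Rw α σ θ = ∏ a ∈ range α, ‖cf (Real.exp (-(3 ^ a * σ))) (3 ^ a * θ)‖ := by
  rw [Rw, cR, norm_prod]

lemma Rw_nonneg (α : ℕ) (σ θ : ℝ) : 0 ≤ Rw α σ θ := norm_nonneg _

lemma Rw_le_factor {α a : ℕ} (ha : a < α) (σ θ : ℝ) :
    Rw α σ θ ≤ ‖cf (Real.exp (-(3 ^ a * σ))) (3 ^ a * θ)‖ := by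
  rw [Rw_eq, ← Finset.mul_prod_erase _ _ (Finset.mem_range.2 ha)]
  refine mul_le_of_le_one_right (norm_nonneg _) ?_
  exact Finset.prod_le_one (fun _ _ => norm_nonneg _)
    fun _ _ => norm_cf_le_one (Real.exp_nonneg _) _

lemma Rw_le_one (α : ℕ) (σ θ : ℝ) : Rw α σ θ ≤ 1 := by
  rw [Rw_eq]
  exact Finset.prod_le_one (fun _ _ => norm_nonneg _)
    fun _ _ => norm_cf_le_one (Real.exp_nonneg _) _

lemma Ph_eq (α β : ℕ) (σ θ : ℝ) :
    Ph α β σ θ = ∏ b ∈ range β, Rw α (4 ^ b * σ) (4 ^ b * θ) := by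
  rw [Ph, cP, norm_prod]
  rfl

lemma row_bound {M : ℝ} (hM : 1 ≤ M) {σ : ℝ} (hσ : 0 < σ) {α : ℕ} (hα : 1 ≤ 3 ^ α * σ) {b : ℕ}
    (hb : 4 ^ b ≤ 1 / (6 * M * σ)) {v : ℝ} (hv : |v| ≤ M * σ) :
    Rw α (4 ^ b * σ) (4 ^ b * v) ≤ Real.exp (-((v / σ) ^ 2 / (36 * M ^ 2))) := by
  have hM0 : 0 < M := by linarith
  have h4 : (0 : ℝ) < 4 ^ b := by positivity
  have hX : 1 ≤ 1 / (6 * M * σ) / 4 ^ b := by
    rw [le_div_iff₀ h4, one_mul]; exact hb
  obtain ⟨n, hn1, hn2⟩ := exists_nat_pow_near hX (by norm_num : (1 : ℝ) < 3)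
  -- a = n + 1
  set s : ℝ := 3 ^ (n + 1) * 4 ^ b with hs
  have hs0 : 0 < s := by positivity
  have hs1 : 1 / (6 * M * σ) < s := by
    rw [div_lt_iff₀ h4] at hn2
    exact hn2
  have hs2 : s ≤ 1 / (2 * M * σ) := by
    rw [le_div_iff₀ h4] at hn1
    have : s = 3 * (3 ^ n * 4 ^ b) := by rw [hs, pow_succ]; ring
    rw [this]
    calc 3 * (3 ^ n * 4 ^ b) ≤ 3 * (1 / (6 * M * σ)) := by linarith
      _ = 1 / (2 * M * σ) := by field_simp; norm_num
  have hMσ : 0 < M * σ := by positivity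
  have hsM : s * (M * σ) ≤ 1 / 2 := by
    rw [le_div_iff₀ (by positivity)] at hs2
    linarith
  have hsM' : 1 < s * (6 * (M * σ)) := by
    rw [div_lt_iff₀ (by positivity)] at hs1
    linarith
  have ha : n + 1 < α := by
    by_contra hcon
    push Not at hcon
    have h3 : (3 : ℝ) ^ α ≤ 3 ^ (n + 1) := pow_le_pow_right₀ (by norm_num) hcon
    have h5 : (1 : ℝ) ≤ 4 ^ b := one_le_pow₀ (by norm_num)
    have h6 : (3 : ℝ) ^ α ≤ s := by
      calc (3 : ℝ) ^ α ≤ 3 ^ (n + 1) := h3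
        _ ≤ 3 ^ (n + 1) * 4 ^ b := le_mul_of_one_le_right (by positivity) h5
    have h7 : (3 : ℝ) ^ α * σ ≤ s * (M * σ) := by
      calc (3 : ℝ) ^ α * σ ≤ s * σ := by gcongr
        _ ≤ s * (M * σ) := by
          gcongr
          exact le_mul_of_one_le_left hσ.le hM
    linarith
  refine le_trans (Rw_le_factor ha _ _) ?_
  set y : ℝ := Real.exp (-(3 ^ (n + 1) * (4 ^ b * σ))) with hy
  have hyσ : 3 ^ (n + 1) * (4 ^ b * σ) ≤ 1 / 2 := by
    calc 3 ^ (n + 1) * (4 ^ b * σ) = s * σ := by rw [hs]; ring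
      _ ≤ s * (M * σ) := by
          gcongr
          exact le_mul_of_one_le_left hσ.le hM
      _ ≤ 1 / 2 := hsM
  have hy1 : 1 / 2 ≤ y := by
    have := Real.add_one_le_exp (-(3 ^ (n + 1) * (4 ^ b * σ)))
    linarith
  have hy2 : y ≤ 1 := Real.exp_le_one_iff.2 (by
    have : 0 < 3 ^ (n + 1) * (4 ^ b * σ) := by positivity
    linarith)
  have hq : 1 / 2 ≤ 4 * y / (1 + y) ^ 2 := by
    rw [le_div_iff₀ (by positivity)]
    nlinarith
  have hsin : (v / σ) ^ 2 / (9 * M ^ 2) ≤ Real.sin (Real.pi * (3 ^ (n + 1) * (4 ^ b * v))) ^ 2 := by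
    have harg : Real.pi * (3 ^ (n + 1) * (4 ^ b * v)) = Real.pi * (s * v) := by rw [hs]; ring
    rw [harg]
    have habs : |Real.pi * (s * v)| ≤ Real.pi / 2 := by
      rw [abs_mul, abs_mul, abs_of_pos Real.pi_pos, abs_of_pos hs0]
      have : s * |v| ≤ 1 / 2 := le_trans (by gcongr) hsM
      nlinarith [Real.pi_pos]
    have h8 := Real.mul_abs_le_abs_sin habs
    have h9 : 2 * (s * |v|) ≤ |Real.sin (Real.pi * (s * v))| := by
      refine le_trans (le_of_eq ?_) h8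
      rw [abs_mul, abs_mul, abs_of_pos Real.pi_pos, abs_of_pos hs0]
      field_simp
    have h10 : |v| / (3 * (M * σ)) ≤ 2 * (s * |v|) := by
      rw [div_le_iff₀ (by positivity)]
      nlinarith [abs_nonneg v]
    have h11 : |v| / (3 * (M * σ)) ≤ |Real.sin (Real.pi * (s * v))| := le_trans h10 h9
    have h12 : (|v| / (3 * (M * σ))) ^ 2 ≤ |Real.sin (Real.pi * (s * v))| ^ 2 := by
      gcongr
    rw [sq_abs] at h12
    refine le_trans (le_of_eq ?_) h12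
    rw [div_pow |v|, sq_abs]
    field_simp
    ring
  have hcf := norm_sq_cf (Real.exp_nonneg (-(3 ^ (n + 1) * (4 ^ b * σ)))) (3 ^ (n + 1) * (4 ^ b * v))
  rw [← hy] at hcf
  have hle : ‖cf y (3 ^ (n + 1) * (4 ^ b * v))‖ ^ 2 ≤ 1 - (v / σ) ^ 2 / (18 * M ^ 2) := by
    rw [hcf]
    have : 1 / 2 * ((v / σ) ^ 2 / (9 * M ^ 2)) ≤
        4 * y / (1 + y) ^ 2 * Real.sin (Real.pi * (3 ^ (n + 1) * (4 ^ b * v))) ^ 2 :=
      mul_le_mul hq hsin (by positivity) (by positivity)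
    have e : 1 / 2 * ((v / σ) ^ 2 / (9 * M ^ 2)) = (v / σ) ^ 2 / (18 * M ^ 2) := by
      field_simp; ring
    linarith
  have hexp : 1 - (v / σ) ^ 2 / (18 * M ^ 2) ≤ Real.exp (-((v / σ) ^ 2 / (36 * M ^ 2))) ^ 2 := by
    rw [← Real.exp_nat_mul]
    have := Real.add_one_le_exp (((2 : ℕ) : ℝ) * -((v / σ) ^ 2 / (36 * M ^ 2)))
    have e : ((2 : ℕ) : ℝ) * -((v / σ) ^ 2 / (36 * M ^ 2)) = -((v / σ) ^ 2 / (18 * M ^ 2)) := by
      push_cast
      field_simp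
      ring
    rw [e] at this ⊢
    linarith
  exact le_of_sq_le_sq (le_trans hle hexp) (Real.exp_nonneg _)

theorem gau : S_Gau := by
  intro M hM
  have hM0 : 0 < M := by linarith
  have hl6 : 0 ≤ Real.log (6 * M) := Real.log_nonneg (by linarith)
  refine ⟨1 / (288 * M ^ 2), Real.exp (-(2 * Real.log (6 * M) + 1)), by positivity,
    Real.exp_pos _, Real.exp_le_one_iff.2 (by linarith), ?_⟩
  intro σ hσ hσ0 α β hα hβ v hv
  have hlog : 2 * Real.log (6 * M) + 1 ≤ -Real.log σ := by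
    have := Real.log_le_log hσ hσ0
    rw [Real.log_exp] at this
    linarith
  have h6σ : 0 < 6 * M * σ := by positivity
  have hlogX : Real.log (1 / (6 * M * σ)) = -Real.log σ - Real.log (6 * M) := by
    rw [one_div, Real.log_inv, Real.log_mul (by positivity) hσ.ne']
    ring
  have hX : 1 ≤ 1 / (6 * M * σ) := by
    rw [← Real.log_nonneg_iff (by positivity), hlogX]
    linarith
  obtain ⟨n, hn1, hn2⟩ := exists_nat_pow_near hX (by norm_num : (1 : ℝ) < 4)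
  have hbs : ∀ b ∈ range (n + 1), (4 : ℝ) ^ b ≤ 1 / (6 * M * σ) := by
    intro b hb
    have : b ≤ n := by have := Finset.mem_range.1 hb; omega
    exact le_trans (pow_le_pow_right₀ (by norm_num) this) hn1
  have hnβ : n + 1 ≤ β := by
    by_contra hcon
    push Not at hcon
    have h1 : (4 : ℝ) ^ β ≤ 4 ^ n := pow_le_pow_right₀ (by norm_num) (by omega)
    have h2 : (4 : ℝ) ^ β ≤ 1 / (6 * M * σ) := le_trans h1 hn1
    rw [le_div_iff₀ h6σ] at h2
    nlinarith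
  have hsub : range (n + 1) ⊆ range β := Finset.range_subset_range.2 hnβ
  have hPh : Ph α β σ v ≤ ∏ b ∈ range (n + 1), Rw α (4 ^ b * σ) (4 ^ b * v) := by
    rw [Ph_eq, ← Finset.prod_sdiff hsub]
    refine mul_le_of_le_one_left (Finset.prod_nonneg fun _ _ => Rw_nonneg _ _ _) ?_
    exact Finset.prod_le_one (fun _ _ => Rw_nonneg _ _ _) fun _ _ => Rw_le_one _ _ _
  have hprod : ∏ b ∈ range (n + 1), Rw α (4 ^ b * σ) (4 ^ b * v) ≤
      ∏ _b ∈ range (n + 1), Real.exp (-((v / σ) ^ 2 / (36 * M ^ 2))) :=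
    Finset.prod_le_prod (fun _ _ => Rw_nonneg _ _ _) fun b hb =>
      row_bound hM hσ hα (hbs b hb) hv
  rw [Finset.prod_const, Finset.card_range, ← Real.exp_nat_mul] at hprod
  refine le_trans (le_trans hPh hprod) (Real.exp_le_exp.2 ?_)
  have hN : LL σ / 8 ≤ ((n + 1 : ℕ) : ℝ) := by
    have h1 : Real.log (1 / (6 * M * σ)) ≤ ((n + 1 : ℕ) : ℝ) * Real.log 4 := by
      rw [← Real.log_pow]
      exact Real.log_le_log (by positivity) hn2.le
    rw [hlogX] at h1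
    have h4 : Real.log 4 ≤ 2 := by
      have : Real.log 4 = 2 * Real.log 2 := by
        rw [show (4 : ℝ) = 2 ^ 2 by norm_num, Real.log_pow]; norm_num
      rw [this]
      have := Real.log_two_lt_d9
      linarith
    have h5 : ((n + 1 : ℕ) : ℝ) * Real.log 4 ≤ ((n + 1 : ℕ) : ℝ) * 2 := by gcongr
    rw [LL]
    linarith
  have hw : 0 ≤ (v / σ) ^ 2 / (36 * M ^ 2) := by positivity
  have h7 : LL σ / 8 * ((v / σ) ^ 2 / (36 * M ^ 2)) ≤
      ((n + 1 : ℕ) : ℝ) * ((v / σ) ^ 2 / (36 * M ^ 2)) := by gcongr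
  have e : LL σ / 8 * ((v / σ) ^ 2 / (36 * M ^ 2)) = 1 / (288 * M ^ 2) * LL σ * (v / σ) ^ 2 := by
    field_simp; ring
  rw [e] at h7
  linarith

end Pool.Agent.R764.EQG
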