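import Mathlib

/-!
# Project EQ (MP_a28f5d_nt): `f_{3,4}(n+1) ≠ f_{3,4}(n)` for all large `n`

Definitions and the exact statements of the pieces. Complete proofs: `notes.md` in this folder.
-/

open Finset

namespace Pool.Agent.R21.EQ

/-! ### the counting function -/

/-- The set `{p^a q^b}`. -/
def SS (p q : ℕ) : Set ℕ := {t | ∃ a b : ℕ, t = p ^ a * q ^ b}

/-- `f_{p,q}(n)`: the number of finite subsets of `SS p q` with sum `n`. -/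
noncomputable def f (p q n : ℕ) : ℕ :=
  Set.ncard {T : Finset ℕ | (T : Set ℕ) ⊆ SS p q ∧ ∑ t ∈ T, t = n}

/-! ### the generating function on circles -/

/-- `e(t) = exp (2 π i t)` -/
noncomputable def ex (t : ℝ) : ℂ := Complex.exp ((2 * Real.pi * t : ℝ) * Complex.I)

/-- one normalised factor `(1 + y e(t)) / (1 + y)` -/
noncomputable def cf (y t : ℝ) : ℂ := (1 + (y : ℂ) * ex t) / (1 + (y : ℂ))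

/-- a row: product over the powers `3 ^ a`, `a < α` -/
noncomputable def cR (α : ℕ) (σ θ : ℝ) : ℂ :=
  ∏ a ∈ range α, cf (Real.exp (-(3 ^ a * σ))) (3 ^ a * θ)

/-- all rows `b < β` -/
noncomputable def cP (α β : ℕ) (σ θ : ℝ) : ℂ :=
  ∏ b ∈ range β, cR α (4 ^ b * σ) (4 ^ b * θ)

/-- modulus of a row -/
noncomputable def Rw (α : ℕ) (σ θ : ℝ) : ℝ := ‖cR α σ θ‖

/-- modulus of the whole product -/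
noncomputable def Ph (α β : ℕ) (σ θ : ℝ) : ℝ := ‖cP α β σ θ‖

/-- `1 / |row at 1/4|` -/
noncomputable def La (α : ℕ) (σ : ℝ) : ℝ :=
  ∏ a ∈ range α, (1 + Real.exp (-(3 ^ a * σ))) / √(1 + Real.exp (-(3 ^ a * σ)) ^ 2)

/-- `1 + log (1/σ)` -/
noncomputable def LL (σ : ℝ) : ℝ := 1 - Real.log σ

/-- distance to the nearest integer -/
noncomputable def nn (θ : ℝ) : ℝ := |θ - round θ|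

/-- the tilted probability of the part `s` -/
noncomputable def pp (σ s : ℝ) : ℝ := Real.exp (-(s * σ)) / (1 + Real.exp (-(s * σ)))

/-- the mean -/
noncomputable def mean (α β : ℕ) (σ : ℝ) : ℝ :=
  ∑ b ∈ range β, ∑ a ∈ range α, ((3 : ℝ) ^ a * 4 ^ b) * pp σ (3 ^ a * 4 ^ b)

/-- the variance -/
noncomputable def var (α β : ℕ) (σ : ℝ) : ℝ :=
  ∑ b ∈ range β, ∑ a ∈ range α,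
    ((3 : ℝ) ^ a * 4 ^ b) ^ 2 * (pp σ (3 ^ a * 4 ^ b) * (1 - pp σ (3 ^ a * 4 ^ b)))

/-- `∑ s^k exp(-sσ)` over the parts `s = 3^a 4^b` -/
noncomputable def mom (k α β : ℕ) (σ : ℝ) : ℝ :=
  ∑ b ∈ range β, ∑ a ∈ range α,
    ((3 : ℝ) ^ a * 4 ^ b) ^ k * Real.exp (-((3 : ℝ) ^ a * 4 ^ b * σ))

/-! ### statements of the pieces -/

/-- FOUR: coefficient extraction. -/
def S_Four : Prop := ∀ n α β : ℕ, n + 1 < 3 ^ α → n + 1 < 4 ^ β → f 3 4 (n + 1) = f 3 4 n →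
  ∀ σ : ℝ, 0 < σ →
    ∫ θ in (0 : ℝ)..1, cP α β σ θ * ex (-(n * θ)) * ((Real.exp σ : ℂ) * ex (-θ) - 1) = 0

/-- SAD: the saddle point exists. -/
def S_Sad : Prop := ∀ σ₀ : ℝ, 0 < σ₀ → ∃ n₀ : ℕ, ∀ n ≥ n₀, ∃ σ : ℝ, 0 < σ ∧ σ ≤ σ₀ ∧
  1 ≤ 3 ^ (n + 2) * σ ∧ mean (n + 2) (n + 2) σ = n

/-- MOM: moments. -/
def S_Mom : Prop := ∃ C : ℝ, 0 < C ∧ ∀ σ : ℝ, 0 < σ → σ ≤ 1 → ∀ α β : ℕ,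
  mom 2 α β σ ≤ C * LL σ / σ ^ 2 ∧ mom 3 α β σ ≤ C * LL σ / σ ^ 3

/-- MOM1: row sums. -/
def S_Mom1 : Prop := ∃ C : ℝ, 0 < C ∧ ∀ σ : ℝ, 0 < σ → ∀ α : ℕ,
  ∑ a ∈ range α, (3 : ℝ) ^ a * Real.exp (-(3 ^ a * σ)) ≤ C / σ

/-- GAU: Gaussian upper bound near `0`. -/
def S_Gau : Prop := ∀ M : ℝ, 1 ≤ M → ∃ c σ₀ : ℝ, 0 < c ∧ 0 < σ₀ ∧ σ₀ ≤ 1 ∧
  ∀ σ : ℝ, 0 < σ → σ ≤ σ₀ → ∀ α β : ℕ, 1 ≤ 3 ^ α * σ → 1 ≤ 4 ^ β * σ →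
    ∀ v : ℝ, |v| ≤ M * σ → Ph α β σ v ≤ Real.exp (-(c * LL σ * (v / σ) ^ 2))

/-- LOC: local expansion near `0`. -/
def S_Loc : Prop := ∃ C : ℝ, 0 < C ∧ ∀ σ : ℝ, 0 < σ → ∀ α β : ℕ, ∀ u : ℝ, |u| ≤ σ / 4 →
  ‖cP α β σ u * ex (-(mean α β σ * u)) -
    (Real.exp (-(2 * Real.pi ^ 2 * u ^ 2 * var α β σ)) : ℂ)‖ ≤ C * |u| ^ 3 * mom 3 α β σ

/-- P0: lower bound for the central integral. -/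
def S_P0 : Prop := ∀ δ : ℝ, 0 < δ → δ ≤ 1 → ∃ c σ₀ : ℝ, 0 < c ∧ 0 < σ₀ ∧ σ₀ ≤ 1 ∧
  ∀ σ : ℝ, 0 < σ → σ ≤ σ₀ → ∀ α β n : ℕ, 1 ≤ 3 ^ α * σ → 1 ≤ 4 ^ β * σ →
    mean α β σ = n →
    c * σ / √(LL σ) ≤ (∫ u in (-(δ * σ))..(δ * σ), cP α β σ u * ex (-(n * u))).re

/-- KBD: the central integral of the modulus. -/
def S_Kbd : Prop := ∀ M : ℝ, 1 ≤ M → ∃ C : ℝ, 0 < C ∧
  ∀ σ : ℝ, 0 < σ → σ ≤ 1 → ∀ α β : ℕ, 1 ≤ 3 ^ α * σ → 1 ≤ 4 ^ β * σ →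
    ∫ v in (-(M * σ))..(M * σ), Ph α β σ v ≤ C * σ / √(LL σ)

/-- K1: the first absolute moment of the central integral. -/
def S_K1 : Prop := ∃ C σ₀ : ℝ, 0 < C ∧ 0 < σ₀ ∧ σ₀ ≤ 1 ∧
  ∀ σ : ℝ, 0 < σ → σ ≤ σ₀ → ∀ α β : ℕ, 1 ≤ 3 ^ α * σ → 1 ≤ 4 ^ β * σ →
    ∀ δ : ℝ, 0 < δ → δ ≤ 1 →
    ∫ v in (-(δ * σ))..(δ * σ), Ph α β σ v * |v| ≤ C * σ ^ 2 / LL σ

/-- ROW: a single row contracts away from the integers. -/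
def S_Row : Prop := ∃ M₀ : ℝ, 1 ≤ M₀ ∧ ∀ M : ℝ, M₀ ≤ M → ∀ (α : ℕ) (σ θ : ℝ), 0 < σ →
  1 ≤ 3 ^ α * σ → M * σ < nn θ → Rw α σ θ ≤ 57 / 100

/-- SUM4: the sum over the four preimages. -/
def S_Sum4 : Prop := ∃ M₀ : ℝ, 1 ≤ M₀ ∧ ∀ M : ℝ, M₀ ≤ M → ∀ (α : ℕ) (σ τ : ℝ), 0 < σ →
  1 ≤ 3 ^ α * σ → M * (4 * σ) < nn τ → ∑ m ∈ range 4, Rw α σ ((τ + m) / 4) ≤ 3 / 5

/-- SIX: rows are small near `k / 16`. -/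
def S_Six : Prop := ∀ M : ℝ, 1 ≤ M → ∀ ε : ℝ, 0 < ε → ∃ σ₀ : ℝ, 0 < σ₀ ∧ σ₀ ≤ 1 ∧
  ∀ σ : ℝ, 0 < σ → σ ≤ σ₀ → ∀ α : ℕ, 1 ≤ 3 ^ α * σ → ∀ k : ℕ, ¬ 4 ∣ k →
    ∀ u : ℝ, |u| ≤ M * σ → Rw α σ (k / 16 + u) ≤ ε

/-- QUA: rows near `k / 4`. -/
def S_Qua : Prop := ∀ M : ℝ, 1 ≤ M → ∃ C : ℝ, 0 < C ∧
  ∀ σ : ℝ, 0 < σ → σ ≤ 1 → ∀ α : ℕ, ∀ k : ℕ, ¬ 4 ∣ k →
    ∀ u : ℝ, |u| ≤ M * σ → Rw α σ (k / 4 + u) ≤ C / La α σ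

/-- HALF: rows near `1 / 2`. -/
def S_Half : Prop := ∀ M : ℝ, 1 ≤ M → ∀ ε : ℝ, 0 < ε → ∃ σ₀ : ℝ, 0 < σ₀ ∧ σ₀ ≤ 1 ∧
  ∀ σ : ℝ, 0 < σ → σ ≤ σ₀ → ∀ α : ℕ, 1 ≤ 3 ^ α * σ →
    ∀ u : ℝ, |u| ≤ M * σ → Rw α σ (1 / 2 + u) ≤ ε / La α σ

/-- PERT: the ratio of the rows at `1/4 + u` and at `u`. -/
def S_Pert : Prop := ∃ C δ : ℝ, 0 < C ∧ 0 < δ ∧ δ ≤ 1 ∧ ∀ σ : ℝ, 0 < σ → σ ≤ 1 → ∀ α : ℕ,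
  ∀ u : ℝ, |u| ≤ δ * σ → cR α σ u ≠ 0 ∧
    ‖cR α σ (1 / 4 + u) / cR α σ u - cR α σ (1 / 4)‖ ≤ C * (|u| / σ) / La α σ

/-- SEC: the phase of the main term. -/
def S_Sec : Prop := ∃ c σ₀ : ℝ, 0 < c ∧ 0 < σ₀ ∧ σ₀ ≤ 1 ∧
  ∀ σ : ℝ, 0 < σ → σ ≤ σ₀ → ∀ α : ℕ, 1 ≤ 3 ^ α * σ → ∀ n : ℕ,
    c / La α σ ≤
      |(ex (-(n / 4)) * (cR α σ (1 / 4) * ((Real.exp σ : ℂ) * ex (-(1 / 4)) - 1))).re|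

/-- LAM: elementary bounds for `La`. -/
def S_Lam : Prop := (∀ (α : ℕ) (σ : ℝ), 0 < σ → 1 ≤ La α σ ∧ La α σ ≤ 4 * La α (64 * σ)) ∧
  (∀ (α : ℕ) (σ τ : ℝ), 0 < σ → σ ≤ τ → La α τ ≤ La α σ) ∧
  (∀ (α : ℕ) (σ : ℝ), 0 < σ → La α σ ≤ 2 * La α (4 * σ)) ∧
  ∃ C : ℝ, 0 < C ∧ ∀ (α : ℕ) (σ : ℝ), 0 < σ → σ ≤ 1 → La α σ * √σ ≤ C

/-- The sum over all preimages of `τ` under multiplication by `4 ^ i`. -/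
noncomputable def UU (α i : ℕ) (σ τ : ℝ) : ℝ :=
  ∑ k ∈ range (4 ^ i), ∏ b ∈ range i, Rw α (4 ^ b * σ) (4 ^ b * ((τ + k) / 4 ^ i))

/-- The same over the primitive preimages. -/
noncomputable def VV (α j : ℕ) (σ v : ℝ) : ℝ :=
  ∑ k ∈ (range (4 ^ j)).filter (fun k => ¬ 4 ∣ k),
    ∏ b ∈ range j, Rw α (4 ^ b * σ) (4 ^ b * ((v + k) / 4 ^ j))

/-- UBD: contraction of the sums over preimages. -/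
def S_Ubd : Prop := ∃ M₀ : ℝ, 1 ≤ M₀ ∧ ∀ M : ℝ, M₀ ≤ M → ∀ (α i : ℕ) (σ τ : ℝ), 0 < σ →
  1 ≤ 3 ^ α * σ → M * (4 ^ i * σ) < nn τ → UU α i σ τ ≤ (3 / 5) ^ i

/-- VBD: sums over primitive preimages. -/
def S_Vbd : Prop := ∃ M₀ : ℝ, 1 ≤ M₀ ∧ ∀ M : ℝ, M₀ ≤ M → ∃ C : ℝ, 0 < C ∧
  ∀ (α j : ℕ) (σ v : ℝ), 1 ≤ j → 0 < σ → 1 ≤ 3 ^ α * σ → 8 * M * (4 ^ j * σ) ≤ 1 →
    |v| ≤ M * (4 ^ j * σ) →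
    VV α j σ v ≤ C * (3 / 5) ^ j / La α (4 ^ (j - 1) * σ)

/-- VSM: sums over primitive preimages, small levels. -/
def S_Vsm : Prop := ∀ M : ℝ, 1 ≤ M → ∀ j : ℕ, 2 ≤ j → ∀ ε : ℝ, 0 < ε → ∃ σ₀ : ℝ, 0 < σ₀ ∧
  σ₀ ≤ 1 ∧ ∀ σ : ℝ, 0 < σ → σ ≤ σ₀ → ∀ α : ℕ, 1 ≤ 3 ^ α * σ → ∀ v : ℝ,
    |v| ≤ M * (4 ^ j * σ) → VV α j σ v ≤ ε / La α σ

/-- DEC: decomposition of the circle. -/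
def S_Dec : Prop := ∀ Φ : ℝ → ℂ, Continuous Φ → (∀ θ, Φ (θ + 1) = Φ θ) → ∀ (J : ℕ) (η : ℝ),
  0 < η → 2 * 4 ^ J * η ≤ 1 →
  ∫ θ in (0 : ℝ)..1, Φ θ =
    (∫ u in (-η)..η, Φ u) +
    (∑ j ∈ range J, ∑ k ∈ (range (4 ^ (j + 1))).filter (fun k => ¬ 4 ∣ k),
      ∫ u in (-η)..η, Φ (k / 4 ^ (j + 1) + u)) +
    ∑ k ∈ range (4 ^ J), ∫ u in η..(1 / 4 ^ J - η), Φ (k / 4 ^ J + u)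

/-- MIN: the minor arcs. -/
def S_Min : Prop := ∃ M₀ : ℝ, 1 ≤ M₀ ∧ ∀ M : ℝ, M₀ ≤ M → ∀ ε : ℝ, 0 < ε →
  ∃ σ₀ : ℝ, 0 < σ₀ ∧ σ₀ ≤ 1 ∧ ∀ σ : ℝ, 0 < σ → σ ≤ σ₀ → ∀ α β : ℕ,
    1 ≤ 3 ^ α * σ → 1 ≤ 4 ^ β * σ → ∀ Φ : ℝ → ℂ, Continuous Φ → (∀ θ, Φ (θ + 1) = Φ θ) →
    (∀ θ, ‖Φ θ‖ ≤ 3 * Ph α β σ θ) →
    ‖(∫ θ in (0 : ℝ)..1, Φ θ) -
      ∫ u in (-(M * σ))..(M * σ), (Φ u + (Φ (1 / 4 + u) + Φ (3 / 4 + u)))‖ ≤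
      ε * σ / (La α σ * √(LL σ))

/-- The answer. -/
def S_Ans : Prop := ∃ N : ℕ, ∀ n ≥ N, f 3 4 (n + 1) ≠ f 3 4 n

end Pool.Agent.R21.EQ
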