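import Mathlib
import Pool.Agent.R21.EQ.Stms

/-!
# EQ-LAM: elementary bounds for `La` (helper699)
-/

set_option autoImplicit false

open Finset

namespace Pool.Agent.R21.EQ

namespace LamP

/-- the factor -/
noncomputable def g (y : ℝ) : ℝ := (1 + y) / √(1 + y ^ 2)

theorem sq_pos (y : ℝ) : 0 < √(1 + y ^ 2) := Real.sqrt_pos.2 (by positivity)

theorem one_le_g {y : ℝ} (hy : 0 ≤ y) : 1 ≤ g y := by
  unfold g
  rw [le_div_iff₀ (sq_pos y), one_mul]
  apply Real.sqrt_le_iff.2
  constructor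
  · linarith
  · nlinarith

theorem g_le {y : ℝ} (hy : 0 ≤ y) : g y ≤ √2 := by
  unfold g
  rw [div_le_iff₀ (sq_pos y), ← Real.sqrt_mul (by norm_num)]
  apply Real.le_sqrt_of_sq_le
  nlinarith [sq_nonneg (1 - y)]

theorem g_le_one_add {y : ℝ} (hy : 0 ≤ y) : g y ≤ 1 + y := by
  unfold g
  apply div_le_self (by linarith)
  apply Real.le_sqrt_of_sq_le
  nlinarith [sq_nonneg y]

theorem g_mono {y z : ℝ} (hy : 0 ≤ y) (hyz : y ≤ z) (hz : z ≤ 1) : g y ≤ g z := by
  unfold g
  rw [div_le_div_iff₀ (sq_pos y) (sq_pos z)]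
  have h1 : (1 + y) * √(1 + z ^ 2) = √((1 + y) ^ 2 * (1 + z ^ 2)) := by
    rw [Real.sqrt_mul (by positivity), Real.sqrt_sq (by linarith)]
  have h2 : (1 + z) * √(1 + y ^ 2) = √((1 + z) ^ 2 * (1 + y ^ 2)) := by
    rw [Real.sqrt_mul (by positivity), Real.sqrt_sq (by linarith)]
  rw [h1, h2]
  apply Real.sqrt_le_sqrt
  have h3 : 0 ≤ (z - y) * (1 - y * z) := by
    apply mul_nonneg (by linarith)
    nlinarith
  nlinarith

theorem La_eq (α : ℕ) (σ : ℝ) : La α σ = ∏ a ∈ range α, g (Real.exp (-(3 ^ a * σ))) := rfl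

theorem one_le (α : ℕ) (σ : ℝ) : 1 ≤ La α σ := by
  rw [La_eq]
  induction α with
  | zero => simp
  | succ n ih =>
    rw [prod_range_succ]
    have := one_le_g (Real.exp_pos (-(3 ^ n * σ))).le
    nlinarith

theorem mono_alpha (α : ℕ) (σ : ℝ) : La α σ ≤ La (α + 1) σ := by
  have h0 := one_le α σ
  rw [La_eq] at h0 ⊢
  rw [La_eq, prod_range_succ]
  have := one_le_g (Real.exp_pos (-(3 ^ α * σ))).le
  nlinarith

theorem anti (α : ℕ) (σ τ : ℝ) (hσ : 0 < σ) (h : σ ≤ τ) : La α τ ≤ La α σ := by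
  rw [La_eq, La_eq]
  apply Finset.prod_le_prod
  · intro a _
    exact zero_le_one.trans (one_le_g (Real.exp_pos _).le)
  · intro a _
    apply g_mono (Real.exp_pos _).le
    · apply Real.exp_le_exp.2
      have : (0 : ℝ) < 3 ^ a := by positivity
      nlinarith
    · rw [← Real.exp_zero]
      apply Real.exp_le_exp.2
      have : (0 : ℝ) < 3 ^ a * σ := by positivity
      linarith

theorem step (α : ℕ) (σ : ℝ) : La α σ ≤ √2 * La α (3 * σ) := by
  have h2 : (1 : ℝ) ≤ √2 := by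
    apply Real.le_sqrt_of_sq_le; norm_num
  cases α with
  | zero =>
    rw [La_eq, La_eq]
    simp
  | succ β =>
    have e : La (β + 1) σ = g (Real.exp (-(3 ^ 0 * σ))) * La β (3 * σ) := by
      rw [La_eq, La_eq, prod_range_succ', mul_comm]
      congr 1
      apply Finset.prod_congr rfl
      intro a _
      congr 3
      ring
    rw [e]
    have h3 := mono_alpha β (3 * σ)
    have h4 := one_le β (3 * σ)
    have h5 := g_le (Real.exp_pos (-(3 ^ 0 * σ))).le
    calc g (Real.exp (-(3 ^ 0 * σ))) * La β (3 * σ) ≤ √2 * La β (3 * σ) := by gcongr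
      _ ≤ √2 * La (β + 1) (3 * σ) := by gcongr

theorem nine (α : ℕ) (σ : ℝ) : La α σ ≤ 2 * La α (9 * σ) := by
  have h1 := step α σ
  have h2 := step α (3 * σ)
  have e : (3 : ℝ) * (3 * σ) = 9 * σ := by ring
  rw [e] at h2
  have h3 : √2 * √2 = (2 : ℝ) := Real.mul_self_sqrt (by norm_num)
  calc La α σ ≤ √2 * La α (3 * σ) := h1
    _ ≤ √2 * (√2 * La α (9 * σ)) := by gcongr
    _ = 2 * La α (9 * σ) := by rw [← mul_assoc, h3]

theorem four (α : ℕ) (σ : ℝ) (hσ : 0 < σ) : La α σ ≤ 2 * La α (4 * σ) := by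
  have h1 := nine α σ
  have h2 := anti α (4 * σ) (9 * σ) (by positivity) (by linarith)
  linarith

theorem sixty (α : ℕ) (σ : ℝ) (hσ : 0 < σ) : La α σ ≤ 4 * La α (64 * σ) := by
  have h1 := nine α σ
  have h2 := nine α (9 * σ)
  have e : (9 : ℝ) * (9 * σ) = 81 * σ := by ring
  rw [e] at h2
  have h3 := anti α (64 * σ) (81 * σ) (by positivity) (by linarith)
  linarith

theorem geo (α : ℕ) : ∑ a ∈ range α, ((1 : ℝ) / 3) ^ a = (3 / 2) * (1 - (1 / 3) ^ α) := by
  induction α with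
  | zero => simp
  | succ n ih => rw [sum_range_succ, ih]; ring

theorem La_one (α : ℕ) : La α 1 ≤ Real.exp (3 / 2) := by
  rw [La_eq]
  calc ∏ a ∈ range α, g (Real.exp (-(3 ^ a * 1)))
      ≤ ∏ a ∈ range α, Real.exp ((1 / 3) ^ a) := by
        apply Finset.prod_le_prod
        · intro a _
          exact zero_le_one.trans (one_le_g (Real.exp_pos _).le)
        · intro a _
          refine (g_le_one_add (Real.exp_pos _).le).trans ?_
          have h1 : Real.exp (-(3 ^ a * 1)) ≤ (1 / 3) ^ a := by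
            rw [mul_one, Real.exp_neg, one_div, inv_pow]
            apply inv_anti₀ (by positivity)
            have := Real.add_one_le_exp ((3 : ℝ) ^ a)
            linarith
          have h2 := Real.add_one_le_exp (((1 : ℝ) / 3) ^ a)
          linarith
    _ = Real.exp (∑ a ∈ range α, ((1 : ℝ) / 3) ^ a) := (Real.exp_sum _ _).symm
    _ ≤ Real.exp (3 / 2) := by
        apply Real.exp_le_exp.2
        rw [geo]
        have : (0 : ℝ) < (1 / 3) ^ α := by positivity
        linarith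

theorem sqrt_bound (α : ℕ) : ∀ (m : ℕ) (σ : ℝ), 0 < σ → σ ≤ 3 → 1 ≤ 3 ^ m * σ →
    La α σ * √σ ≤ Real.exp (3 / 2) * √3 := by
  intro m
  induction m with
  | zero =>
    intro σ hσ h3 h1
    rw [pow_zero, one_mul] at h1
    have a1 := anti α 1 σ (by norm_num) h1
    have a2 := La_one α
    have a3 : √σ ≤ √3 := Real.sqrt_le_sqrt h3
    have a4 := one_le α σ
    calc La α σ * √σ ≤ Real.exp (3 / 2) * √3 := by
          apply mul_le_mul (a1.trans a2) a3 (Real.sqrt_nonneg _) (Real.exp_pos _).le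
      _ = _ := rfl
  | succ m ih =>
    intro σ hσ h3 h1
    by_cases hc : 1 ≤ 3 ^ m * σ
    · exact ih σ hσ h3 hc
    · rw [not_le] at hc
      have hs1 : σ < 1 := by
        have : (1 : ℝ) ≤ 3 ^ m := one_le_pow₀ (by norm_num)
        nlinarith
      have h4 := ih (3 * σ) (by positivity) (by linarith) (by rw [pow_succ] at h1; linarith)
      refine le_trans ?_ h4
      have h5 := step α σ
      have h6 : √2 * √σ ≤ √(3 * σ) := by
        rw [← Real.sqrt_mul (by norm_num)]
        apply Real.sqrt_le_sqrt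
        linarith
      have h7 := one_le α (3 * σ)
      calc La α σ * √σ ≤ (√2 * La α (3 * σ)) * √σ := by gcongr
        _ = La α (3 * σ) * (√2 * √σ) := by ring
        _ ≤ La α (3 * σ) * √(3 * σ) := by gcongr

end LamP

open LamP in
theorem lam : S_Lam := by
  refine ⟨fun α σ hσ => ⟨one_le α σ, sixty α σ hσ⟩, anti, four, Real.exp (3 / 2) * √3, by positivity, ?_⟩
  intro α σ hσ h1
  obtain ⟨m, hm⟩ := pow_unbounded_of_one_lt (1 / σ) (by norm_num : (1 : ℝ) < 3)
  apply sqrt_bound α m σ hσ (by linarith)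
  rw [div_lt_iff₀ hσ] at hm
  exact hm.le

end Pool.Agent.R21.EQ
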