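import Pool.Agent.R21.EQ.Gau

/-! Project EQ, piece LOC (helper764). -/

open Finset

namespace Pool.Agent.R764.EQL

open Pool.Agent.R21.EQ Pool.Agent.R764.EQG

lemma exp_rem (w : ℂ) (hw : w.re ≤ 0) :
    ‖Complex.exp w - (1 + w + w ^ 2 / 2)‖ ≤ 4 * ‖w‖ ^ 3 ∧
      ‖Complex.exp w - (1 + w + w ^ 2 / 2)‖ ≤ 4 * ‖w‖ ^ 2 := by
  have hn := norm_nonneg w
  by_cases h : ‖w‖ ≤ 1
  · have h1 := Complex.exp_bound h (n := 3) (by norm_num)
    have e : ∑ m ∈ range 3, w ^ m / (m.factorial : ℂ) = 1 + w + w ^ 2 / 2 := by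
      simp [Finset.sum_range_succ, Nat.factorial]
    rw [e] at h1
    have h2 : ‖w‖ ^ 3 * (((3 : ℕ).succ : ℝ) * (((3 : ℕ).factorial : ℝ) * (3 : ℕ))⁻¹) ≤
        ‖w‖ ^ 3 := by
      refine mul_le_of_le_one_right (by positivity) ?_
      norm_num [Nat.factorial]
    have h3 : ‖w‖ ^ 3 ≤ ‖w‖ ^ 2 := pow_le_pow_of_le_one hn h (by norm_num)
    have h4 : (0 : ℝ) ≤ ‖w‖ ^ 3 := by positivity
    constructor <;> linarith
  · push Not at h
    have h1 : ‖Complex.exp w‖ ≤ 1 := by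
      rw [Complex.norm_exp]
      exact Real.exp_le_one_iff.2 hw
    have h2 : ‖Complex.exp w - (1 + w + w ^ 2 / 2)‖ ≤ 1 + (1 + ‖w‖ + ‖w‖ ^ 2 / 2) := by
      refine le_trans (norm_sub_le _ _) (add_le_add h1 ?_)
      refine le_trans (norm_add_le _ _) (add_le_add (le_trans (norm_add_le _ _) ?_) ?_)
      · simp
      · rw [norm_div, norm_pow]; simp
    have h3 : ‖w‖ ≤ ‖w‖ ^ 2 := by nlinarith
    have h4 : ‖w‖ ^ 2 ≤ ‖w‖ ^ 3 := by nlinarith [sq_nonneg ‖w‖]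
    constructor <;> nlinarith

lemma local_bound {p t : ℝ} (hp0 : 0 ≤ p) (hp1 : p ≤ 1) (hpt : p * |t| ≤ 1) :
    ‖(1 + (p : ℂ) * (Complex.exp (t * Complex.I) - 1)) -
      Complex.exp ((p * t : ℝ) * Complex.I - (p * (1 - p) * t ^ 2 / 2 : ℝ))‖ ≤
      20 * (p * |t| ^ 3) := by
  set z : ℂ := t * Complex.I with hz
  set w : ℂ := (p * t : ℝ) * Complex.I - (p * (1 - p) * t ^ 2 / 2 : ℝ) with hw
  have hzn : ‖z‖ = |t| := by rw [hz, norm_mul, Complex.norm_I, mul_one, Complex.norm_real]; rfl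
  have hzr : z.re ≤ 0 := by rw [hz]; simp
  have hz2 : z ^ 2 = -(t : ℂ) ^ 2 := by
    rw [hz, mul_pow, Complex.I_sq]; ring
  have hwz : w = p * z + p * (1 - p) * z ^ 2 / 2 := by
    rw [hz2, hw, hz]; push_cast; ring
  have hq : 0 ≤ p * (1 - p) := mul_nonneg hp0 (by linarith)
  have hwr : w.re ≤ 0 := by
    rw [hw]
    simp only [Complex.sub_re, Complex.mul_re, Complex.ofReal_re, Complex.I_re, mul_zero,
      Complex.ofReal_im, Complex.I_im, mul_one, sub_self, zero_sub]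
    have : 0 ≤ p * (1 - p) * t ^ 2 / 2 := by positivity
    linarith
  have ht0 := abs_nonneg t
  have hwn : ‖w‖ ≤ p * |t| + p * |t| ^ 2 / 2 := by
    rw [hw]
    refine le_trans (norm_sub_le _ _) (add_le_add ?_ ?_)
    · rw [norm_mul, Complex.norm_I, mul_one, Complex.norm_real, Real.norm_eq_abs, abs_mul,
        abs_of_nonneg hp0]
    · rw [Complex.norm_real, Real.norm_eq_abs, abs_of_nonneg (by positivity), sq_abs]
      have : p * (1 - p) ≤ p := by nlinarith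
      have h2 := sq_nonneg t
      nlinarith
  obtain ⟨hR3, -⟩ := exp_rem z hzr
  obtain ⟨hW3, hW2⟩ := exp_rem w hwr
  rw [hzn] at hR3
  have key : (1 + (p : ℂ) * (Complex.exp z - 1)) - Complex.exp w =
      p * (Complex.exp z - (1 + z + z ^ 2 / 2)) - (p ^ 2 * (1 - p)) * z ^ 3 / 2 -
        (p ^ 2 * (1 - p) ^ 2) * z ^ 4 / 8 - (Complex.exp w - (1 + w + w ^ 2 / 2)) := by
    rw [hwz]; ring
  have hpc : ‖(p : ℂ)‖ = p := by rw [Complex.norm_real, Real.norm_of_nonneg hp0]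
  have hqc : ‖(1 - (p : ℂ))‖ ≤ 1 := by
    rw [show (1 - (p : ℂ)) = ((1 - p : ℝ) : ℂ) by push_cast; ring, Complex.norm_real,
      Real.norm_of_nonneg (by linarith)]
    linarith
  have hpp : p ^ 2 ≤ p := by nlinarith
  have ht3 : 0 ≤ |t| ^ 3 := by positivity
  have b1 : ‖(p : ℂ) * (Complex.exp z - (1 + z + z ^ 2 / 2))‖ ≤ 4 * (p * |t| ^ 3) := by
    rw [norm_mul, hpc]
    nlinarith
  have b2 : ‖((p : ℂ) ^ 2 * (1 - p)) * z ^ 3 / 2‖ ≤ p * |t| ^ 3 := by
    rw [norm_div, norm_mul, norm_mul, norm_pow, norm_pow, hpc, hzn]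
    have h2 : ‖(2 : ℂ)‖ = 2 := by simp
    rw [h2]
    have : p ^ 2 * ‖(1 - (p : ℂ))‖ ≤ p := by
      calc p ^ 2 * ‖(1 - (p : ℂ))‖ ≤ p ^ 2 * 1 := by gcongr
        _ ≤ p := by linarith
    have h3 : p ^ 2 * ‖(1 - (p : ℂ))‖ * |t| ^ 3 ≤ p * |t| ^ 3 := by gcongr
    have h4 : 0 ≤ p * |t| ^ 3 := by positivity
    linarith
  have b3 : ‖((p : ℂ) ^ 2 * (1 - p) ^ 2) * z ^ 4 / 8‖ ≤ p * |t| ^ 3 := by
    rw [norm_div, norm_mul, norm_mul, norm_pow, norm_pow, norm_pow, hpc, hzn]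
    have h2 : ‖(8 : ℂ)‖ = 8 := by simp
    rw [h2]
    have hq2 : ‖(1 - (p : ℂ))‖ ^ 2 ≤ 1 := pow_le_one₀ (norm_nonneg _) hqc
    have h5 : p ^ 2 * ‖(1 - (p : ℂ))‖ ^ 2 ≤ p ^ 2 := by
      calc p ^ 2 * ‖(1 - (p : ℂ))‖ ^ 2 ≤ p ^ 2 * 1 := by gcongr
        _ = p ^ 2 := mul_one _
    have h6 : p ^ 2 * ‖(1 - (p : ℂ))‖ ^ 2 * |t| ^ 4 ≤ p ^ 2 * |t| ^ 4 := by gcongr
    have h7 : p ^ 2 * |t| ^ 4 = (p * |t|) * (p * |t| ^ 3) := by ring
    have h8 : (p * |t|) * (p * |t| ^ 3) ≤ 1 * (p * |t| ^ 3) := by gcongr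
    have h4 : 0 ≤ p * |t| ^ 3 := by positivity
    linarith
  have b4 : ‖Complex.exp w - (1 + w + w ^ 2 / 2)‖ ≤ 14 * (p * |t| ^ 3) := by
    by_cases ht1 : |t| ≤ 1
    · have h1 : ‖w‖ ≤ 3 / 2 * (p * |t|) := by
        have : p * |t| ^ 2 ≤ p * |t| := by
          have : |t| ^ 2 ≤ |t| := by nlinarith
          gcongr
        linarith
      have h2 : ‖w‖ ^ 3 ≤ (3 / 2 * (p * |t|)) ^ 3 := by gcongr
      have h3 : (3 / 2 * (p * |t|)) ^ 3 = 27 / 8 * (p ^ 2 * (p * |t| ^ 3)) := by ring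
      have h4 : p ^ 2 * (p * |t| ^ 3) ≤ 1 * (p * |t| ^ 3) := by
        have : p ^ 2 ≤ 1 := by nlinarith
        gcongr
      have h5 : 0 ≤ p * |t| ^ 3 := by positivity
      linarith
    · push Not at ht1
      have h1 : ‖w‖ ≤ 3 / 2 * (p * |t| ^ 2) := by
        have : p * |t| ≤ p * |t| ^ 2 := by
          have : |t| ≤ |t| ^ 2 := by nlinarith
          gcongr
        linarith
      have h2 : ‖w‖ ^ 2 ≤ (3 / 2 * (p * |t| ^ 2)) ^ 2 := by gcongr
      have h3 : (3 / 2 * (p * |t| ^ 2)) ^ 2 = 9 / 4 * ((p * |t|) * (p * |t| ^ 3)) := by ring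
      have h4 : (p * |t|) * (p * |t| ^ 3) ≤ 1 * (p * |t| ^ 3) := by gcongr
      have h5 : 0 ≤ p * |t| ^ 3 := by positivity
      linarith
  rw [key]
  refine le_trans (norm_sub_le _ _) ?_
  refine le_trans (add_le_add (norm_sub_le _ _) le_rfl) ?_
  refine le_trans (add_le_add (add_le_add (norm_sub_le _ _) le_rfl) le_rfl) ?_
  linarith

lemma prod_sub_prod {ι : Type*} [DecidableEq ι] (S : Finset ι) (f g : ι → ℂ)
    (hf : ∀ i ∈ S, ‖f i‖ ≤ 1) (hg : ∀ i ∈ S, ‖g i‖ ≤ 1) :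
    ‖∏ i ∈ S, f i - ∏ i ∈ S, g i‖ ≤ ∑ i ∈ S, ‖f i - g i‖ := by
  induction S using Finset.induction_on with
  | empty => simp
  | insert a S ha ih =>
    rw [Finset.prod_insert ha, Finset.prod_insert ha, Finset.sum_insert ha]
    have h1 := ih (fun i hi => hf i (Finset.mem_insert_of_mem hi))
      (fun i hi => hg i (Finset.mem_insert_of_mem hi))
    have e : f a * ∏ i ∈ S, f i - g a * ∏ i ∈ S, g i =
        (f a - g a) * ∏ i ∈ S, f i + g a * (∏ i ∈ S, f i - ∏ i ∈ S, g i) := by ring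
    rw [e]
    refine le_trans (norm_add_le _ _) (add_le_add ?_ ?_)
    · rw [norm_mul, norm_prod]
      refine mul_le_of_le_one_right (norm_nonneg _) ?_
      exact Finset.prod_le_one (fun _ _ => norm_nonneg _)
        fun i hi => hf i (Finset.mem_insert_of_mem hi)
    · rw [norm_mul]
      exact le_trans (mul_le_of_le_one_left (norm_nonneg _) (hg a (Finset.mem_insert_self _ _))) h1

lemma cf_eq {y : ℝ} (hy : 0 ≤ y) (t : ℝ) :
    cf y t = 1 + ((y / (1 + y) : ℝ) : ℂ) * (Complex.exp ((2 * Real.pi * t : ℝ) * Complex.I) - 1) := by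
  have h : (1 + (y : ℂ)) ≠ 0 := by
    rw [show (1 + (y : ℂ)) = ((1 + y : ℝ) : ℂ) by push_cast; ring]
    exact_mod_cast (by positivity : (1 + y : ℝ) ≠ 0)
  rw [cf, ex]
  push_cast
  field_simp
  ring

theorem loc : S_Loc := by
  refine ⟨20 * (2 * Real.pi) ^ 3, by positivity, ?_⟩
  intro σ hσ α β u hu
  set I := range β ×ˢ range α with hI
  set s : ℕ × ℕ → ℝ := fun x => 3 ^ x.2 * 4 ^ x.1 with hs
  have hs0 : ∀ x, 0 < s x := fun x => by simp only [hs]; positivity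
  set y : ℕ × ℕ → ℝ := fun x => Real.exp (-(s x * σ)) with hy
  set p : ℕ × ℕ → ℝ := fun x => y x / (1 + y x) with hp
  have hy0 : ∀ x, 0 < y x := fun x => Real.exp_pos _
  have hp0 : ∀ x, 0 ≤ p x := fun x => by have := hy0 x; simp only [hp]; positivity
  have hpy : ∀ x, p x ≤ y x := fun x => by
    have := hy0 x
    simp only [hp]
    exact div_le_self (hy0 x).le (by linarith)
  have hp1 : ∀ x, p x ≤ 1 := fun x => by
    have := hy0 x
    simp only [hp]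
    rw [div_le_one (by linarith)]
    linarith
  set t : ℕ × ℕ → ℝ := fun x => 2 * Real.pi * (s x * u) with ht
  have hpt : ∀ x, p x * |t x| ≤ 1 := by
    intro x
    have h1 : |t x| ≤ Real.pi / 2 * (s x * σ) := by
      simp only [ht]
      rw [abs_mul (2 * Real.pi), abs_mul (s x), abs_of_pos (by positivity : (0 : ℝ) < 2 * Real.pi),
        abs_of_pos (hs0 x)]
      have : s x * |u| ≤ s x * (σ / 4) := mul_le_mul_of_nonneg_left hu (hs0 x).le
      nlinarith [Real.pi_pos]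
    have hX : 0 < s x * σ := mul_pos (hs0 x) hσ
    have h2 := Real.quadratic_le_exp_of_nonneg hX.le
    have h3 : Real.pi / 2 * (s x * σ) ≤ Real.exp (s x * σ) := by
      refine le_trans ?_ h2
      have := Real.pi_lt_d2
      nlinarith [sq_nonneg (s x * σ - 1)]
    calc p x * |t x| ≤ y x * (Real.pi / 2 * (s x * σ)) :=
          mul_le_mul (hpy x) h1 (abs_nonneg _) (hy0 x).le
      _ ≤ y x * Real.exp (s x * σ) := mul_le_mul_of_nonneg_left h3 (hy0 x).le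
      _ = 1 := by simp only [hy]; rw [← Real.exp_add]; simp
  set F : ℕ × ℕ → ℂ := fun x => cf (y x) (s x * u) with hF
  set E : ℕ × ℕ → ℂ := fun x =>
    Complex.exp ((p x * t x : ℝ) * Complex.I - (p x * (1 - p x) * t x ^ 2 / 2 : ℝ)) with hE
  have hcP : cP α β σ u = ∏ x ∈ I, F x := by
    rw [hI, Finset.prod_product]
    simp only [cP, cR, hF, hy, hs]
    refine Finset.prod_congr rfl fun b _ => Finset.prod_congr rfl fun a _ => ?_
    rw [show (3 : ℝ) ^ a * (4 ^ b * σ) = 3 ^ a * 4 ^ b * σ by ring,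
      show (3 : ℝ) ^ a * (4 ^ b * u) = 3 ^ a * 4 ^ b * u by ring]
  have hmean : mean α β σ = ∑ x ∈ I, s x * p x := by
    rw [hI, Finset.sum_product]
    rfl
  have hvar : var α β σ = ∑ x ∈ I, s x ^ 2 * (p x * (1 - p x)) := by
    rw [hI, Finset.sum_product]
    rfl
  have hmom : mom 3 α β σ = ∑ x ∈ I, s x ^ 3 * y x := by
    rw [hI, Finset.sum_product]
    rfl
  have hprodE : ∏ x ∈ I, E x = ex (mean α β σ * u) *
      (Real.exp (-(2 * Real.pi ^ 2 * u ^ 2 * var α β σ)) : ℂ) := by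
    simp only [hE]
    rw [← Complex.exp_sum, ex, Complex.ofReal_exp, ← Complex.exp_add]
    congr 1
    rw [Finset.sum_sub_distrib, ← Finset.sum_mul, ← Complex.ofReal_sum, ← Complex.ofReal_sum]
    have e1 : ∑ x ∈ I, p x * t x = 2 * Real.pi * (mean α β σ * u) := by
      rw [hmean, Finset.sum_mul, Finset.mul_sum]
      refine Finset.sum_congr rfl fun x _ => ?_
      simp only [ht]; ring
    have e2 : ∑ x ∈ I, p x * (1 - p x) * t x ^ 2 / 2 =
        2 * Real.pi ^ 2 * u ^ 2 * var α β σ := by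
      rw [hvar, Finset.mul_sum]
      refine Finset.sum_congr rfl fun x _ => ?_
      simp only [ht]; ring
    rw [e1, e2]
    push_cast
    ring
  have hexn : ∀ r : ℝ, ‖ex r‖ = 1 := fun r => by rw [ex, Complex.norm_exp_ofReal_mul_I]
  have hexm : ex (mean α β σ * u) * ex (-(mean α β σ * u)) = 1 := by
    rw [ex, ex, ← Complex.exp_add, ← Complex.exp_zero]
    congr 1
    push_cast
    ring
  have hmain : cP α β σ u * ex (-(mean α β σ * u)) -
      (Real.exp (-(2 * Real.pi ^ 2 * u ^ 2 * var α β σ)) : ℂ) =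
      (∏ x ∈ I, F x - ∏ x ∈ I, E x) * ex (-(mean α β σ * u)) := by
    rw [hcP, hprodE]
    linear_combination (Real.exp (-(2 * Real.pi ^ 2 * u ^ 2 * var α β σ)) : ℂ) * hexm
  rw [hmain, norm_mul, hexn, mul_one]
  refine le_trans (prod_sub_prod I F E (fun x _ => norm_cf_le_one (hy0 x).le _) ?_) ?_
  · intro x _
    simp only [hE]
    rw [Complex.norm_exp]
    apply Real.exp_le_one_iff.2
    simp only [Complex.sub_re, Complex.mul_re, Complex.ofReal_re, Complex.I_re, mul_zero,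
      Complex.ofReal_im, Complex.I_im, mul_one, sub_self, zero_sub]
    have h1 : 0 ≤ p x * (1 - p x) := mul_nonneg (hp0 x) (by linarith [hp1 x])
    have : 0 ≤ p x * (1 - p x) * t x ^ 2 / 2 := by positivity
    linarith
  · rw [hmom, Finset.mul_sum]
    refine Finset.sum_le_sum fun x _ => ?_
    have h1 := local_bound (hp0 x) (hp1 x) (hpt x)
    have h2 : F x = 1 + (p x : ℂ) * (Complex.exp ((t x : ℝ) * Complex.I) - 1) := by
      simp only [hF]
      rw [cf_eq (hy0 x).le]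
    rw [h2]
    refine le_trans h1 ?_
    have h3 : |t x| ^ 3 = (2 * Real.pi) ^ 3 * s x ^ 3 * |u| ^ 3 := by
      simp only [ht]
      rw [abs_mul (2 * Real.pi), abs_mul (s x), abs_of_pos (by positivity : (0 : ℝ) < 2 * Real.pi),
        abs_of_pos (hs0 x)]
      ring
    rw [h3]
    have h4 : p x * ((2 * Real.pi) ^ 3 * s x ^ 3 * |u| ^ 3) ≤
        y x * ((2 * Real.pi) ^ 3 * s x ^ 3 * |u| ^ 3) := by
      have := hs0 x
      exact mul_le_mul_of_nonneg_right (hpy x) (by positivity)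
    calc 20 * (p x * ((2 * Real.pi) ^ 3 * s x ^ 3 * |u| ^ 3)) ≤
        20 * (y x * ((2 * Real.pi) ^ 3 * s x ^ 3 * |u| ^ 3)) := by linarith
      _ = 20 * (2 * Real.pi) ^ 3 * |u| ^ 3 * (s x ^ 3 * y x) := by ring

end Pool.Agent.R764.EQL
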