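import Pool.Agent.R21.EQ.Basic

/-!
# Project EQ: the minor arcs
-/

open Finset Filter Topology

namespace Pool.Agent.R21.EQ

theorem LL_grow {σ : ℝ} (h0 : 0 < σ) (j : ℕ) (h1 : 4 ^ j * σ ≤ 1) :
    1 / √(LL (4 ^ j * σ)) ≤ (1 + 2 * j) / √(LL σ) := by
  have hpos : 0 < (4 : ℝ) ^ j * σ := by positivity
  have hσ1 : σ ≤ 1 := by
    have : (1 : ℝ) ≤ 4 ^ j := one_le_pow₀ (by norm_num)
    nlinarith
  have e1 := LL_pos h1 hpos
  have e2 := LL_pos hσ1 h0
  have s1 : 0 < √(LL (4 ^ j * σ)) := Real.sqrt_pos.2 (by linarith)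
  have s2 : 0 < √(LL σ) := Real.sqrt_pos.2 (by linarith)
  rw [div_le_div_iff₀ s1 s2, one_mul]
  have hj : (0 : ℝ) ≤ 1 + 2 * j := by positivity
  rw [← Real.sqrt_sq hj, ← Real.sqrt_mul (by positivity)]
  apply Real.sqrt_le_sqrt
  have e3 : LL (4 ^ j * σ) = LL σ - j * Real.log 4 := by
    unfold LL
    rw [Real.log_mul (by positivity) h0.ne', Real.log_pow]
    ring
  have e4 : Real.log 4 ≤ 2 := by
    have h : Real.log 4 = 2 * Real.log 2 := by
      rw [show (4 : ℝ) = 2 ^ 2 by norm_num, Real.log_pow]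
      norm_num
    have := Real.log_two_lt_d9
    linarith
  have e5 : LL σ = LL (4 ^ j * σ) + j * Real.log 4 := by linarith
  have hj0 : (0 : ℝ) ≤ j := Nat.cast_nonneg j
  have e6 : (j : ℝ) * Real.log 4 ≤ j * 2 := mul_le_mul_of_nonneg_left e4 hj0
  nlinarith [mul_nonneg hj0 (by linarith : 0 ≤ LL (4 ^ j * σ) - 1), mul_nonneg hj0 hj0,
    mul_nonneg (mul_nonneg hj0 hj0) (by linarith : 0 ≤ LL (4 ^ j * σ))]

theorem lvl {M Ck : ℝ} (hM : 1 ≤ M) (hCk : 0 < Ck)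
    (hk : ∀ σ : ℝ, 0 < σ → σ ≤ 1 → ∀ α β : ℕ, 1 ≤ 3 ^ α * σ → 1 ≤ 4 ^ β * σ →
      ∫ v in (-(M * σ))..(M * σ), Ph α β σ v ≤ Ck * σ / √(LL σ))
    {σ : ℝ} (h0 : 0 < σ) {α β : ℕ} (h3 : 1 ≤ 3 ^ α * σ) (h4 : 1 ≤ 4 ^ β * σ)
    {Φ : ℝ → ℂ} (hΦ : ∀ θ, ‖Φ θ‖ ≤ 3 * Ph α β σ θ) (j : ℕ)
    (hj : 8 * M * (4 ^ j * σ) ≤ 1) (Q : Finset ℕ) {B : ℝ} (hB0 : 0 ≤ B)
    (hB : ∀ v : ℝ, |v| ≤ M * (4 ^ j * σ) →
      ∑ k ∈ Q, ∏ b ∈ range j, Rw α (4 ^ b * σ) (4 ^ b * ((v + k) / 4 ^ j)) ≤ B) :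
    ‖∑ k ∈ Q, ∫ u in (-(M * σ))..(M * σ), Φ (k / 4 ^ j + u)‖ ≤
      3 * B * Ck * (1 + 2 * j) * (σ / √(LL σ)) := by
  have h4j : (0 : ℝ) < 4 ^ j := by positivity
  have hj1 : 4 ^ j * σ ≤ 1 / 8 := by nlinarith [mul_pos h4j h0]
  have hjβ : j ≤ β := by
    by_contra hcon
    push Not at hcon
    have : (4 : ℝ) ^ β ≤ 4 ^ j := pow_le_pow_right₀ (by norm_num) hcon.le
    nlinarith
  obtain ⟨β', rfl⟩ := Nat.exists_eq_add_of_le hjβ
  have hMσ : -(M * σ) ≤ M * σ := by nlinarith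
  have hPc : ∀ k : ℕ, Continuous fun u : ℝ => Ph α (j + β') σ (k / 4 ^ j + u) := fun k =>
    (Ph_continuous _ _ _).comp (continuous_const.add continuous_id)
  have step1 : ‖∑ k ∈ Q, ∫ u in (-(M * σ))..(M * σ), Φ (k / 4 ^ j + u)‖ ≤
      ∑ k ∈ Q, ∫ u in (-(M * σ))..(M * σ), 3 * Ph α (j + β') σ (k / 4 ^ j + u) := by
    refine (norm_sum_le _ _).trans (sum_le_sum ?_)
    intro k _
    refine intervalIntegral.norm_integral_le_of_norm_le hMσ ?_
      ((continuous_const.mul (hPc k)).intervalIntegrable _ _)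
    exact Filter.Eventually.of_forall fun u _ => hΦ _
  refine step1.trans ?_
  have hI : ∀ k ∈ Q, IntervalIntegrable (fun u => 3 * Ph α (j + β') σ (k / 4 ^ j + u))
      MeasureTheory.volume (-(M * σ)) (M * σ) := fun k _ =>
    (continuous_const.mul (hPc k)).intervalIntegrable _ _
  rw [← intervalIntegral.integral_finsetSum hI]
  have step2 : ∫ u in (-(M * σ))..(M * σ), ∑ k ∈ Q, 3 * Ph α (j + β') σ (k / 4 ^ j + u) ≤
      ∫ u in (-(M * σ))..(M * σ), 3 * B * Ph α β' (4 ^ j * σ) (4 ^ j * u) := by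
    refine intervalIntegral.integral_mono_on hMσ ?_ ?_ ?_
    · exact (continuous_finsetSum _ fun k _ => continuous_const.mul (hPc k)).intervalIntegrable _ _
    · exact (continuous_const.mul ((Ph_continuous _ _ _).comp
        (continuous_const.mul continuous_id))).intervalIntegrable _ _
    · intro u hu
      have hu' : |4 ^ j * u| ≤ M * (4 ^ j * σ) := by
        rw [abs_mul, abs_of_pos h4j]
        have : |u| ≤ M * σ := abs_le.2 ⟨hu.1, hu.2⟩
        nlinarith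
      have hkey : ∀ k : ℕ, Ph α (j + β') σ (k / 4 ^ j + u) =
          (∏ b ∈ range j, Rw α (4 ^ b * σ) (4 ^ b * ((4 ^ j * u + k) / 4 ^ j))) *
            Ph α β' (4 ^ j * σ) (4 ^ j * u) := by
        intro k
        rw [Ph_split]
        have e1 : (4 : ℝ) ^ j * (k / 4 ^ j + u) = 4 ^ j * u + k := by
          field_simp
          ring
        rw [e1, Ph_add_nat]
        congr 1
        refine prod_congr rfl ?_
        intro b _
        congr 2
        field_simp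
        ring
      simp_rw [hkey]
      rw [← mul_sum, ← sum_mul]
      have := hB (4 ^ j * u) hu'
      have h5 := Ph_nonneg α β' (4 ^ j * σ) (4 ^ j * u)
      nlinarith [mul_le_mul_of_nonneg_right this h5]
  refine step2.trans ?_
  rw [intervalIntegral.integral_const_mul, intervalIntegral.integral_comp_mul_left _ h4j.ne']
  have e1 : (4 : ℝ) ^ j * -(M * σ) = -(M * (4 ^ j * σ)) := by ring
  have e2 : (4 : ℝ) ^ j * (M * σ) = M * (4 ^ j * σ) := by ring
  rw [e1, e2, smul_eq_mul]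
  have hσ'0 : 0 < (4 : ℝ) ^ j * σ := by positivity
  have h5 := hk (4 ^ j * σ) hσ'0 (by linarith) α β' (by
    have : (1 : ℝ) ≤ 4 ^ j := one_le_pow₀ (by norm_num)
    nlinarith [mul_pos (by positivity : (0:ℝ) < 3 ^ α) h0]) (by
    have : (4 : ℝ) ^ β' * (4 ^ j * σ) = 4 ^ (j + β') * σ := by rw [pow_add]; ring
    rw [this]
    exact h4)
  have h6 := LL_grow h0 j (by linarith)
  have h7 : Ck * (4 ^ j * σ) / √(LL (4 ^ j * σ)) ≤
      Ck * (4 ^ j * σ) * ((1 + 2 * j) / √(LL σ)) := by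
    rw [div_eq_mul_one_div]
    exact mul_le_mul_of_nonneg_left h6 (by positivity)
  have h8 := mul_le_mul_of_nonneg_left (h5.trans h7) (by positivity : 0 ≤ ((4 : ℝ) ^ j)⁻¹)
  have h9 := mul_le_mul_of_nonneg_left h8 (by positivity : 0 ≤ 3 * B)
  refine h9.trans (le_of_eq ?_)
  field_simp

theorem la_grow (hLam : S_Lam) (α : ℕ) {σ : ℝ} (h0 : 0 < σ) (m : ℕ) :
    La α σ ≤ 3 * (8 / 5) ^ m * La α (4 ^ m * σ) := by
  obtain ⟨hl1, hl2, -, -⟩ := hLam
  have h1 : ∀ q : ℕ, La α σ ≤ 4 ^ q * La α (64 ^ q * σ) := by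
    intro q
    induction q with
    | zero => simp
    | succ q ih =>
      refine ih.trans ?_
      have := (hl1 α (64 ^ q * σ) (by positivity)).2
      have h2 : (64 : ℝ) * (64 ^ q * σ) = 64 ^ (q + 1) * σ := by ring
      rw [h2] at this
      have h3 := mul_le_mul_of_nonneg_left this (by positivity : (0:ℝ) ≤ 4 ^ q)
      refine h3.trans (le_of_eq ?_)
      ring
  set q := (m + 2) / 3 with hq
  have hq1 : m ≤ 3 * q := by omega
  have hq2 : 3 * q ≤ m + 2 := by omega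
  refine (h1 q).trans ?_
  have h64 : (64 : ℝ) ^ q = 4 ^ (3 * q) := by
    rw [pow_mul]
    norm_num
  have h2 : La α (64 ^ q * σ) ≤ La α (4 ^ m * σ) := by
    apply hl2 α _ _ (by positivity)
    rw [h64]
    exact mul_le_mul_of_nonneg_right (pow_le_pow_right₀ (by norm_num) hq1) h0.le
  have h3 : (4 : ℝ) ^ q ≤ 3 * (8 / 5) ^ m := by
    calc (4 : ℝ) ^ q ≤ ((8 / 5 : ℝ) ^ 3) ^ q := pow_le_pow_left₀ (by norm_num) (by norm_num) _
      _ = (8 / 5 : ℝ) ^ (3 * q) := by rw [← pow_mul]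
      _ ≤ (8 / 5 : ℝ) ^ (m + 2) := pow_le_pow_right₀ (by norm_num) hq2
      _ = (64 / 25) * (8 / 5) ^ m := by rw [pow_add]; ring
      _ ≤ 3 * (8 / 5) ^ m := mul_le_mul_of_nonneg_right (by norm_num) (by positivity)
  have h4 : 0 ≤ La α (4 ^ m * σ) := by
    have := (hl1 α (4 ^ m * σ) (by positivity)).1
    linarith
  calc (4 : ℝ) ^ q * La α (64 ^ q * σ) ≤ 4 ^ q * La α (4 ^ m * σ) :=
        mul_le_mul_of_nonneg_left h2 (by positivity)
    _ ≤ _ := mul_le_mul_of_nonneg_right h3 h4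

theorem gsum : Summable fun j : ℕ => (24 / 25 : ℝ) ^ (j + 1) * (1 + 2 * ((j + 1 : ℕ) : ℝ)) := by
  have h1 : Summable fun j : ℕ => (j : ℝ) ^ 1 * (24 / 25 : ℝ) ^ j :=
    summable_pow_mul_geometric_of_norm_lt_one 1 (by
      rw [Real.norm_eq_abs, abs_of_pos] <;> norm_num)
  have h2 : Summable fun j : ℕ => (24 / 25 : ℝ) ^ j :=
    summable_geometric_of_lt_one (by norm_num) (by norm_num)
  have h3 := (h2.mul_left (3 * (24 / 25))).add (h1.mul_left (2 * (24 / 25)))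
  refine h3.congr ?_
  intro j
  push_cast
  ring

theorem nn_gt {x τ : ℝ} (h1 : x < τ) (h2 : τ < 1 - x) : x < nn τ := by
  unfold nn
  rcases le_or_gt (round τ) 0 with h | h
  · have : ((round τ : ℤ) : ℝ) ≤ 0 := by exact_mod_cast h
    exact lt_of_lt_of_le (by linarith) (le_abs_self _)
  · have : (1 : ℝ) ≤ ((round τ : ℤ) : ℝ) := by exact_mod_cast h
    exact lt_of_lt_of_le (by linarith) (neg_le_abs _)

theorem rest {M : ℝ} (hM : 1 ≤ M)
    (hU : ∀ (α i : ℕ) (σ τ : ℝ), 0 < σ → 1 ≤ 3 ^ α * σ → M * (4 ^ i * σ) < nn τ →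
      UU α i σ τ ≤ (3 / 5) ^ i)
    {σ : ℝ} (h0 : 0 < σ) {α β : ℕ} (h3 : 1 ≤ 3 ^ α * σ) (h4 : 1 ≤ 4 ^ β * σ)
    {Φ : ℝ → ℂ} (hΦ : ∀ θ, ‖Φ θ‖ ≤ 3 * Ph α β σ θ) (J : ℕ) (hJ : 8 * M * (4 ^ J * σ) ≤ 1) :
    ‖∑ k ∈ range (4 ^ J), ∫ u in (M * σ)..(1 / 4 ^ J - M * σ), Φ (k / 4 ^ J + u)‖ ≤
      3 * (3 / 5) ^ J * (1 / 4 ^ J) := by
  have h4j : (0 : ℝ) < 4 ^ J := by positivity
  have hj1 : 4 ^ J * σ ≤ 1 / 8 := by nlinarith [mul_pos h4j h0]
  have hjβ : J ≤ β := by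
    by_contra hcon
    push Not at hcon
    have : (4 : ℝ) ^ β ≤ 4 ^ J := pow_le_pow_right₀ (by norm_num) hcon.le
    nlinarith
  obtain ⟨β', rfl⟩ := Nat.exists_eq_add_of_le hjβ
  have hMσ0 : 0 ≤ M * σ := by nlinarith
  have hMσ : M * σ ≤ 1 / 4 ^ J - M * σ := by
    rw [le_sub_iff_add_le, le_div_iff₀ h4j]
    nlinarith [mul_pos h4j h0]
  have hPc : ∀ k : ℕ, Continuous fun u : ℝ => Ph α (J + β') σ (k / 4 ^ J + u) := fun k =>
    (Ph_continuous _ _ _).comp (continuous_const.add continuous_id)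
  have hI : ∀ k ∈ range (4 ^ J), IntervalIntegrable
      (fun u => 3 * Ph α (J + β') σ (k / 4 ^ J + u))
      MeasureTheory.volume (M * σ) (1 / 4 ^ J - M * σ) := fun k _ =>
    (continuous_const.mul (hPc k)).intervalIntegrable _ _
  have step1 : ‖∑ k ∈ range (4 ^ J), ∫ u in (M * σ)..(1 / 4 ^ J - M * σ), Φ (k / 4 ^ J + u)‖ ≤
      ∑ k ∈ range (4 ^ J), ∫ u in (M * σ)..(1 / 4 ^ J - M * σ),
        3 * Ph α (J + β') σ (k / 4 ^ J + u) := by
    refine (norm_sum_le _ _).trans (sum_le_sum ?_)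
    intro k hk
    refine intervalIntegral.norm_integral_le_of_norm_le hMσ ?_ (hI k hk)
    exact Filter.Eventually.of_forall fun u _ => hΦ _
  refine step1.trans ?_
  rw [← intervalIntegral.integral_finsetSum hI]
  have step2 : ∫ u in (M * σ)..(1 / 4 ^ J - M * σ),
      ∑ k ∈ range (4 ^ J), 3 * Ph α (J + β') σ (k / 4 ^ J + u) ≤
      ∫ u in (M * σ)..(1 / 4 ^ J - M * σ), (3 * (3 / 5) ^ J : ℝ) := by
    refine intervalIntegral.integral_mono_on_of_le_Ioo hMσ ?_ ?_ ?_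
    · exact (continuous_finsetSum _ fun k _ => continuous_const.mul (hPc k)).intervalIntegrable _ _
    · exact continuous_const.intervalIntegrable _ _
    · intro u hu
      have hτ := nn_gt (x := M * (4 ^ J * σ)) (τ := 4 ^ J * u)
        (by have := mul_lt_mul_of_pos_left hu.1 h4j
            nlinarith)
        (by have := mul_lt_mul_of_pos_left hu.2 h4j
            have h5 : (4 : ℝ) ^ J * (1 / 4 ^ J - M * σ) = 1 - M * (4 ^ J * σ) := by
              field_simp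
            linarith)
      have hUU := hU α J σ (4 ^ J * u) h0 h3 hτ
      have hkey : ∀ k : ℕ, Ph α (J + β') σ (k / 4 ^ J + u) ≤
          ∏ b ∈ range J, Rw α (4 ^ b * σ) (4 ^ b * ((4 ^ J * u + k) / 4 ^ J)) := by
        intro k
        rw [Ph_split]
        have e2 : (k : ℝ) / 4 ^ J + u = (4 ^ J * u + k) / 4 ^ J := by
          field_simp
          ring
        rw [e2]
        have h5 := Ph_le_one α β' (4 ^ J * σ) (4 ^ J * ((4 ^ J * u + k) / 4 ^ J))
        have h6 : 0 ≤ ∏ b ∈ range J, Rw α (4 ^ b * σ) (4 ^ b * ((4 ^ J * u + k) / 4 ^ J)) :=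
          prod_nonneg fun _ _ => Rw_nonneg _ _ _
        exact mul_le_of_le_one_right h6 h5
      rw [← mul_sum]
      refine mul_le_mul_of_nonneg_left ?_ (by norm_num)
      exact (sum_le_sum fun k _ => hkey k).trans hUU
  refine step2.trans ?_
  rw [intervalIntegral.integral_const, smul_eq_mul]
  have : 1 / 4 ^ J - M * σ - M * σ ≤ 1 / 4 ^ J := by linarith
  calc (1 / 4 ^ J - M * σ - M * σ) * (3 * (3 / 5) ^ J : ℝ) ≤ 1 / 4 ^ J * (3 * (3 / 5) ^ J) :=
        mul_le_mul_of_nonneg_right this (by positivity)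
    _ = _ := by ring

theorem rest2 (hLam : S_Lam) {M Cl : ℝ} (hM : 1 ≤ M) (hCl : 0 < Cl)
    (hl4 : ∀ (α : ℕ) (σ : ℝ), 0 < σ → σ ≤ 1 → La α σ * √σ ≤ Cl)
    {σ : ℝ} (h0 : 0 < σ) {α : ℕ} (J : ℕ) (hJ : 8 * M * (4 ^ J * σ) ≤ 1)
    (hJ2 : 1 < 8 * M * (4 ^ (J + 1) * σ)) :
    3 * (3 / 5) ^ J * (1 / 4 ^ J) ≤
      (288 * M * Cl * √(32 * M) * √(LL (1 / (32 * M)))) * ((24 / 25) ^ J * (1 + 2 * J)) *
        (σ / (La α σ * √(LL σ))) := by
  have h4j : (0 : ℝ) < 4 ^ J := by positivity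
  have hσ'0 : 0 < 4 ^ J * σ := by positivity
  have hσ'1 : 4 ^ J * σ ≤ 1 / 8 := by nlinarith
  have hσ1 : σ ≤ 1 := by
    have : (1 : ℝ) ≤ 4 ^ J := one_le_pow₀ (by norm_num)
    nlinarith
  have hlow : 1 / (32 * M) ≤ 4 ^ J * σ := by
    rw [div_le_iff₀ (by positivity)]
    rw [pow_succ] at hJ2
    nlinarith
  have hinv : 1 / (4 : ℝ) ^ J ≤ 32 * M * σ := by
    rw [div_le_iff₀ h4j]
    rw [pow_succ] at hJ2
    nlinarith
  have hLa0 : 0 < La α σ := by
    have := (hLam.1 α σ h0).1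
    linarith
  have hLLσ := LL_pos hσ1 h0
  have hLL' := LL_pos (by linarith : 4 ^ J * σ ≤ 1) hσ'0
  have hs0 : 0 < √(LL σ) := Real.sqrt_pos.2 (by linarith)
  have hs'0 : 0 < √(LL (4 ^ J * σ)) := Real.sqrt_pos.2 (by linarith)
  -- bound of La
  have b1 := la_grow hLam α h0 J
  have b2 : La α (4 ^ J * σ) ≤ Cl * √(32 * M) := by
    have h5 := hl4 α (4 ^ J * σ) hσ'0 (by linarith)
    have h6 : 1 ≤ √(32 * M) * √(4 ^ J * σ) := by
      rw [← Real.sqrt_mul (by positivity)]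
      rw [Real.one_le_sqrt]
      rw [div_le_iff₀ (by positivity)] at hlow
      linarith
    have h7 : 0 ≤ La α (4 ^ J * σ) := by
      have := (hLam.1 α (4 ^ J * σ) hσ'0).1
      linarith
    calc La α (4 ^ J * σ) ≤ La α (4 ^ J * σ) * (√(32 * M) * √(4 ^ J * σ)) :=
          le_mul_of_one_le_right h7 h6
      _ = (La α (4 ^ J * σ) * √(4 ^ J * σ)) * √(32 * M) := by ring
      _ ≤ Cl * √(32 * M) := mul_le_mul_of_nonneg_right h5 (Real.sqrt_nonneg _)
  have b3 : √(LL σ) ≤ (1 + 2 * J) * √(LL (1 / (32 * M))) := by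
    have h5 := LL_grow h0 J (by linarith)
    rw [div_le_div_iff₀ hs'0 hs0, one_mul] at h5
    refine h5.trans (mul_le_mul_of_nonneg_left ?_ (by positivity))
    apply Real.sqrt_le_sqrt
    unfold LL
    have := Real.log_le_log (by positivity) hlow
    linarith
  have b4 : La α σ * √(LL σ) ≤ (3 * (8 / 5) ^ J * (Cl * √(32 * M))) *
      ((1 + 2 * J) * √(LL (1 / (32 * M)))) := by
    refine mul_le_mul (b1.trans ?_) b3 hs0.le (by positivity)
    exact mul_le_mul_of_nonneg_left b2 (by positivity)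
  have hD : 0 < La α σ * √(LL σ) := by positivity
  rw [← mul_div_assoc (288 * M * Cl * √(32 * M) * √(LL (1 / (32 * M))) *
    ((24 / 25) ^ J * (1 + 2 * (J : ℝ)))), le_div_iff₀ hD]
  calc 3 * (3 / 5) ^ J * (1 / 4 ^ J) * (La α σ * √(LL σ)) ≤
      3 * (3 / 5) ^ J * (32 * M * σ) * ((3 * (8 / 5) ^ J * (Cl * √(32 * M))) *
        ((1 + 2 * J) * √(LL (1 / (32 * M))))) := by
        refine mul_le_mul (mul_le_mul_of_nonneg_left hinv (by positivity)) b4 hD.le (by positivity)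
    _ = _ := by
        have : (24 / 25 : ℝ) ^ J = (3 / 5) ^ J * (8 / 5) ^ J := by
          rw [← mul_pow]
          norm_num
        rw [this]
        ring

theorem vsm_unif (hVsm : S_Vsm) {M : ℝ} (hM : 1 ≤ M) (n : ℕ) {ε : ℝ} (hε : 0 < ε) :
    ∃ σ₀ : ℝ, 0 < σ₀ ∧ σ₀ ≤ 1 ∧ ∀ j < n, ∀ σ : ℝ, 0 < σ → σ ≤ σ₀ → ∀ α : ℕ,
      1 ≤ 3 ^ α * σ → ∀ v : ℝ, |v| ≤ M * (4 ^ (j + 2) * σ) → VV α (j + 2) σ v ≤ ε / La α σ := by
  induction n with
  | zero => exact ⟨1, one_pos, le_rfl, fun j hj => absurd hj (Nat.not_lt_zero _)⟩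
  | succ n ih =>
    obtain ⟨σ₁, h1, h2, h3⟩ := ih
    obtain ⟨σ₂, g1, g2, g3⟩ := hVsm M hM (n + 2) (by omega) ε hε
    refine ⟨min σ₁ σ₂, lt_min h1 g1, (min_le_left _ _).trans h2, ?_⟩
    intro j hj σ h0 hσ
    rcases Nat.lt_succ_iff_lt_or_eq.1 hj with h | h
    · exact h3 j h σ h0 (hσ.trans (min_le_left _ _))
    · subst h
      exact g3 σ h0 (hσ.trans (min_le_right _ _))

set_option maxHeartbeats 1000000 in
theorem min_of (hDec : S_Dec) (hUbd : S_Ubd) (hVbd : S_Vbd) (hVsm : S_Vsm) (hKbd : S_Kbd)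
    (hHalf : S_Half) (hLam : S_Lam) : S_Min := by
  obtain ⟨Mu, hMu1, hU⟩ := hUbd
  obtain ⟨Mv, -, hV⟩ := hVbd
  refine ⟨max Mu Mv, le_max_of_le_left hMu1, ?_⟩
  intro M hM ε hε
  have hM1 : 1 ≤ M := hMu1.trans ((le_max_left _ _).trans hM)
  have hM0 : 0 < M := by linarith
  replace hU := hU M ((le_max_left _ _).trans hM)
  obtain ⟨Cv, hCv, hV⟩ := hV M ((le_max_right _ _).trans hM)
  obtain ⟨Ck, hCk, hk⟩ := hKbd M hM1
  have hLam' := hLam
  obtain ⟨hl1, -, -, Cl, hCl, hl4⟩ := hLam'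
  set ε1 : ℝ := ε / 4 with hε1
  have hε10 : 0 < ε1 := by positivity
  set C9 : ℝ := 9 * Cv * Ck with hC9
  have hC90 : 0 < C9 := by positivity
  -- tail of the series
  obtain ⟨S, hS⟩ := summable_iff_vanishing_norm.1 gsum (ε1 / C9) (by positivity)
  obtain ⟨j1, hj1⟩ : ∃ j1 : ℕ, ∀ j ∈ S, j < j1 := by
    obtain ⟨B, hB⟩ := S.bddAbove
    exact ⟨B + 1, fun j hj => Nat.lt_succ_of_le (hB hj)⟩
  -- the last levels
  set C5 : ℝ := 288 * M * Cl * √(32 * M) * √(LL (1 / (32 * M))) with hC5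
  have hg0 : Tendsto (fun j : ℕ => C5 * ((24 / 25 : ℝ) ^ (j + 1) * (1 + 2 * ((j + 1 : ℕ) : ℝ))))
      atTop (𝓝 0) := by
    have := gsum.tendsto_atTop_zero.const_mul C5
    simpa using this
  obtain ⟨j2, hj2⟩ := eventually_atTop.1 (hg0.eventually (ge_mem_nhds hε10))
  set ε3 : ℝ := ε1 / (9 * Ck) with hε3
  have hε30 : 0 < ε3 := by positivity
  set ε2 : ℝ := ε1 / (3 * Ck * (1 + 2 * (j1 + 1)) * (j1 + 1)) with hε2
  have hε20 : 0 < ε2 := by positivity
  obtain ⟨σa, ha0, ha1, hsm⟩ := vsm_unif hVsm hM1 j1 hε20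
  obtain ⟨σb, hb0, hb1, hhalf⟩ := hHalf M hM1 ε3 hε30
  set σc : ℝ := 1 / (8 * M * 4 ^ (j2 + 2)) with hσc
  have hc0 : 0 < σc := by positivity
  refine ⟨min σa (min σb σc), lt_min ha0 (lt_min hb0 hc0), (min_le_left _ _).trans ha1, ?_⟩
  intro σ h0 hσ α β h3 h4 Φ hcont hper hΦ
  have ga : σ ≤ σa := hσ.trans (min_le_left _ _)
  have gb : σ ≤ σb := hσ.trans ((min_le_right _ _).trans (min_le_left _ _))
  have gc : σ ≤ σc := hσ.trans ((min_le_right _ _).trans (min_le_right _ _))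
  -- the number of levels
  have hx : 1 ≤ 1 / (8 * M * σ) := by
    rw [one_le_div (by positivity)]
    rw [hσc, le_div_iff₀ (by positivity)] at gc
    have : (1 : ℝ) ≤ 4 ^ (j2 + 2) := one_le_pow₀ (by norm_num)
    nlinarith [mul_pos hM0 h0]
  obtain ⟨J, hJa, hJb⟩ := exists_nat_pow_near hx (by norm_num : (1 : ℝ) < 4)
  rw [le_div_iff₀ (by positivity)] at hJa
  rw [div_lt_iff₀ (by positivity)] at hJb
  have hJ1 : 8 * M * (4 ^ J * σ) ≤ 1 := by linarith
  have hJ2 : 1 < 8 * M * (4 ^ (J + 1) * σ) := by linarith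
  have hJ3 : j2 + 2 ≤ J := by
    by_contra hcon
    push Not at hcon
    have h5 : (4 : ℝ) ^ (J + 1) ≤ 4 ^ (j2 + 2) := pow_le_pow_right₀ (by norm_num) hcon
    rw [hσc, le_div_iff₀ (by positivity)] at gc
    have h6 : 8 * M * (4 ^ (J + 1) * σ) ≤ 8 * M * (4 ^ (j2 + 2) * σ) :=
      mul_le_mul_of_nonneg_left (mul_le_mul_of_nonneg_right h5 h0.le) (by positivity)
    linarith
  have hσ1 : σ ≤ 1 := by linarith
  set L := La α σ with hL
  have hLpos : 0 < L := by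
    have := (hl1 α σ h0).1
    linarith
  have hLLσ := LL_pos hσ1 h0
  have hs0 : 0 < √(LL σ) := Real.sqrt_pos.2 (by linarith)
  set D : ℝ := σ / (L * √(LL σ)) with hD
  have hD0 : 0 < D := by positivity
  have hDL : σ / √(LL σ) = L * D := by
    rw [hD]
    field_simp
  -- decomposition
  have hdec := hDec Φ hcont hper J (M * σ) (by positivity) (by nlinarith [mul_pos hM0 h0,
    (by positivity : (0 : ℝ) < 4 ^ J)])
  set X : ℕ → ℂ := fun j => ∑ k ∈ (range (4 ^ (j + 1))).filter (fun k => ¬ 4 ∣ k),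
      ∫ u in (-(M * σ))..(M * σ), Φ (k / 4 ^ (j + 1) + u) with hX
  set Z : ℂ := ∑ k ∈ range (4 ^ J), ∫ u in (M * σ)..(1 / 4 ^ J - M * σ), Φ (k / 4 ^ J + u)
    with hZ
  have hdec' : ∫ θ in (0 : ℝ)..1, Φ θ = (∫ u in (-(M * σ))..(M * σ), Φ u) +
      (X 0 + ∑ j ∈ Ico 1 J, X j) + Z := by
    rw [hdec]
    congr 2
    exact Finset.sum_range_eq_add_Ico _ (by omega)
  have hΦ1 : Continuous fun u : ℝ => Φ (1 / 4 + u) :=
    hcont.comp (continuous_const.add continuous_id)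
  have hΦ3 : Continuous fun u : ℝ => Φ (3 / 4 + u) :=
    hcont.comp (continuous_const.add continuous_id)
  have hX0 : X 0 = (∫ u in (-(M * σ))..(M * σ), Φ (1 / 4 + u)) +
      ((∑ k ∈ ({2} : Finset ℕ), ∫ u in (-(M * σ))..(M * σ), Φ (k / 4 ^ 1 + u)) +
        ∫ u in (-(M * σ))..(M * σ), Φ (3 / 4 + u)) := by
    have hP : (range (4 ^ (0 + 1))).filter (fun k => ¬ 4 ∣ k) = {1, 2, 3} := by decide
    rw [hX]
    simp only [hP]
    rw [sum_insert (by decide), sum_insert (by decide), sum_singleton, sum_singleton]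
    norm_num
  have hIm : ∫ u in (-(M * σ))..(M * σ), (Φ u + (Φ (1 / 4 + u) + Φ (3 / 4 + u))) =
      (∫ u in (-(M * σ))..(M * σ), Φ u) + ((∫ u in (-(M * σ))..(M * σ), Φ (1 / 4 + u)) +
        ∫ u in (-(M * σ))..(M * σ), Φ (3 / 4 + u)) := by
    have hI : IntervalIntegrable (fun u => Φ (1 / 4 + u) + Φ (3 / 4 + u)) MeasureTheory.volume
        (-(M * σ)) (M * σ) := (hΦ1.add hΦ3).intervalIntegrable _ _
    rw [intervalIntegral.integral_add (hcont.intervalIntegrable _ _) hI,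
      intervalIntegral.integral_add (hΦ1.intervalIntegrable _ _) (hΦ3.intervalIntegrable _ _)]
  have hdiff : (∫ θ in (0 : ℝ)..1, Φ θ) -
      ∫ u in (-(M * σ))..(M * σ), (Φ u + (Φ (1 / 4 + u) + Φ (3 / 4 + u))) =
      (∑ k ∈ ({2} : Finset ℕ), ∫ u in (-(M * σ))..(M * σ), Φ (k / 4 ^ 1 + u)) +
        ∑ j ∈ Ico 1 J, X j + Z := by
    rw [hdec', hIm, hX0]
    ring
  rw [hdiff]
  -- the arc at 1/2
  have T1 : ‖∑ k ∈ ({2} : Finset ℕ), ∫ u in (-(M * σ))..(M * σ), Φ (k / 4 ^ 1 + u)‖ ≤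
      ε1 * D := by
    have h5 := lvl hM1 hCk hk h0 h3 h4 hΦ 1 (by
      have : (4 : ℝ) ^ 1 ≤ 4 ^ J := pow_le_pow_right₀ (by norm_num) (by omega)
      have h6 : 8 * M * (4 ^ 1 * σ) ≤ 8 * M * (4 ^ J * σ) :=
        mul_le_mul_of_nonneg_left (mul_le_mul_of_nonneg_right this h0.le) (by positivity)
      linarith) ({2} : Finset ℕ) (B := ε3 / L) (by positivity) (by
      intro v hv
      simp only [sum_singleton, range_one, prod_singleton, pow_zero, one_mul, pow_one]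
      have h6 := hhalf σ h0 gb α h3 (v / 4) (by
        rw [abs_div, abs_of_pos (by norm_num : (0 : ℝ) < 4), div_le_iff₀ (by norm_num)]
        rw [pow_one] at hv
        linarith)
      have h7 : (v + ((2 : ℕ) : ℝ)) / 4 = 1 / 2 + v / 4 := by
        push_cast
        ring
      rw [h7]
      exact h6)
    refine h5.trans (le_of_eq ?_)
    rw [hDL, hε3]
    push_cast
    field_simp
    ring
  -- the middle levels
  have T2 : ‖∑ j ∈ Ico 1 J, X j‖ ≤ 2 * ε1 * D := by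
    have hXj : ∀ j ∈ Ico 1 J, ‖X j‖ ≤ ((if j < j1 then ε1 / (j1 + 1) else 0) +
        (if j < j1 then 0 else
          C9 * ((24 / 25 : ℝ) ^ (j + 1) * (1 + 2 * ((j + 1 : ℕ) : ℝ))))) * D := by
      intro j hj
      rw [mem_Ico] at hj
      have hlev : 8 * M * (4 ^ (j + 1) * σ) ≤ 1 := by
        have : (4 : ℝ) ^ (j + 1) ≤ 4 ^ J := pow_le_pow_right₀ (by norm_num) (by omega)
        have h6 : 8 * M * (4 ^ (j + 1) * σ) ≤ 8 * M * (4 ^ J * σ) :=
          mul_le_mul_of_nonneg_left (mul_le_mul_of_nonneg_right this h0.le) (by positivity)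
        linarith
      by_cases hjj : j < j1
      · rw [if_pos hjj, if_pos hjj, add_zero]
        obtain ⟨i, rfl⟩ : ∃ i, j = i + 1 := ⟨j - 1, by omega⟩
        have h5 := lvl hM1 hCk hk h0 h3 h4 hΦ (i + 1 + 1) hlev
          ((range (4 ^ (i + 1 + 1))).filter (fun k => ¬ 4 ∣ k)) (B := ε2 / L) (by positivity)
          (fun v hv => hsm i (by omega) σ h0 ga α h3 v hv)
        refine h5.trans ?_
        rw [hDL]
        have h6 : 3 * (ε2 / L) * Ck * (1 + 2 * ((i + 1 + 1 : ℕ) : ℝ)) * (L * D) =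
            3 * ε2 * Ck * (1 + 2 * ((i + 1 + 1 : ℕ) : ℝ)) * D := by
          field_simp
        rw [h6]
        refine mul_le_mul_of_nonneg_right ?_ hD0.le
        have h7 : ((i + 1 + 1 : ℕ) : ℝ) ≤ j1 + 1 := by
          have : i + 1 + 1 ≤ j1 + 1 := by omega
          exact_mod_cast this
        calc 3 * ε2 * Ck * (1 + 2 * ((i + 1 + 1 : ℕ) : ℝ)) ≤
            3 * ε2 * Ck * (1 + 2 * ((j1 : ℝ) + 1)) :=
              mul_le_mul_of_nonneg_left (by linarith) (by positivity)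
          _ = ε1 / (j1 + 1) := by
              rw [hε2]
              field_simp
      · rw [if_neg hjj, if_neg hjj, zero_add]
        set B : ℝ := Cv * (3 / 5) ^ (j + 1) / La α (4 ^ (j + 1 - 1) * σ) with hB
        have hLaj : 0 < La α (4 ^ (j + 1 - 1) * σ) := by
          have := (hl1 α (4 ^ (j + 1 - 1) * σ) (by positivity)).1
          linarith
        have hB0 : 0 ≤ B := by positivity
        have h5 := lvl hM1 hCk hk h0 h3 h4 hΦ (j + 1) hlev
          ((range (4 ^ (j + 1))).filter (fun k => ¬ 4 ∣ k)) (B := B) hB0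
          (fun v hv => hV α (j + 1) σ v (by omega) h0 h3 hlev hv)
        refine h5.trans ?_
        have hBle : B * L ≤ 3 * Cv * (24 / 25) ^ (j + 1) := by
          have h6 := la_grow hLam α h0 j
          rw [hB, Nat.add_sub_cancel] at *
          rw [div_mul_eq_mul_div, div_le_iff₀ hLaj]
          have h7 : (24 / 25 : ℝ) ^ (j + 1) = (3 / 5) ^ (j + 1) * (8 / 5) ^ (j + 1) := by
            rw [← mul_pow]
            norm_num
          rw [h7]
          have h8 : (8 / 5 : ℝ) ^ j ≤ (8 / 5) ^ (j + 1) :=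
            pow_le_pow_right₀ (by norm_num) (by omega)
          have h9 : L ≤ 3 * (8 / 5) ^ (j + 1) * La α (4 ^ j * σ) :=
            h6.trans (mul_le_mul_of_nonneg_right (mul_le_mul_of_nonneg_left h8 (by norm_num))
              hLaj.le)
          calc Cv * (3 / 5) ^ (j + 1) * L ≤
              Cv * (3 / 5) ^ (j + 1) * (3 * (8 / 5) ^ (j + 1) * La α (4 ^ j * σ)) :=
                mul_le_mul_of_nonneg_left h9 (by positivity)
            _ = _ := by ring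
        rw [hDL]
        calc 3 * B * Ck * (1 + 2 * ((j + 1 : ℕ) : ℝ)) * (L * D) =
            3 * Ck * (1 + 2 * ((j + 1 : ℕ) : ℝ)) * D * (B * L) := by ring
          _ ≤ 3 * Ck * (1 + 2 * ((j + 1 : ℕ) : ℝ)) * D * (3 * Cv * (24 / 25) ^ (j + 1)) :=
              mul_le_mul_of_nonneg_left hBle (by positivity)
          _ = _ := by rw [hC9]; ring
    refine (norm_sum_le _ _).trans ((sum_le_sum hXj).trans ?_)
    rw [← sum_mul, sum_add_distrib]
    refine mul_le_mul_of_nonneg_right ?_ hD0.le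
    have e1 : ∑ j ∈ Ico 1 J, (if j < j1 then ε1 / ((j1 : ℝ) + 1) else 0) ≤ ε1 := by
      rw [← sum_filter, sum_const, nsmul_eq_mul]
      have hcard : ((filter (fun j => j < j1) (Ico 1 J)).card : ℝ) ≤ j1 := by
        have : (filter (fun j => j < j1) (Ico 1 J)).card ≤ (range j1).card := by
          refine card_le_card ?_
          intro j hj
          rw [mem_filter] at hj
          exact mem_range.2 hj.2
        rw [card_range] at this
        exact_mod_cast this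
      calc ((filter (fun j => j < j1) (Ico 1 J)).card : ℝ) * (ε1 / ((j1 : ℝ) + 1)) ≤
          ((j1 : ℝ) + 1) * (ε1 / ((j1 : ℝ) + 1)) :=
            mul_le_mul_of_nonneg_right (by linarith) (by positivity)
        _ = ε1 := by field_simp
    have e2 : ∑ j ∈ Ico 1 J, (if j < j1 then 0 else
        C9 * ((24 / 25 : ℝ) ^ (j + 1) * (1 + 2 * ((j + 1 : ℕ) : ℝ)))) ≤ ε1 := by
      have h5 : ∀ j, (if j < j1 then 0 else
          C9 * ((24 / 25 : ℝ) ^ (j + 1) * (1 + 2 * ((j + 1 : ℕ) : ℝ)))) =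
          (if ¬ j < j1 then
            C9 * ((24 / 25 : ℝ) ^ (j + 1) * (1 + 2 * ((j + 1 : ℕ) : ℝ))) else 0) := by
        intro j
        by_cases h : j < j1 <;> simp [h]
      simp_rw [h5]
      rw [← sum_filter, ← mul_sum]
      have h6 := hS (filter (fun j => ¬ j < j1) (Ico 1 J)) (by
        rw [disjoint_left]
        intro j hj1' hjS
        rw [mem_filter] at hj1'
        exact hj1'.2 (hj1 j hjS))
      have h7 := (le_abs_self _).trans (Real.norm_eq_abs _ ▸ h6.le)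
      calc C9 * ∑ j ∈ filter (fun j => ¬ j < j1) (Ico 1 J),
            (24 / 25 : ℝ) ^ (j + 1) * (1 + 2 * ((j + 1 : ℕ) : ℝ)) ≤ C9 * (ε1 / C9) :=
            mul_le_mul_of_nonneg_left h7 hC90.le
        _ = ε1 := by field_simp
    linarith
  -- the rest
  have T3 : ‖Z‖ ≤ ε1 * D := by
    have h5 := rest hM1 hU h0 h3 h4 hΦ J hJ1
    have h6 := rest2 hLam hM1 hCl hl4 h0 (α := α) J hJ1 hJ2
    refine h5.trans (h6.trans ?_)
    refine mul_le_mul_of_nonneg_right ?_ hD0.le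
    have h7 := hj2 (J - 1) (by omega)
    have h8 : J - 1 + 1 = J := by omega
    rw [h8] at h7
    exact h7
  have hfin : ε * σ / (L * √(LL σ)) = ε * D := by
    rw [hD, mul_div_assoc]
  rw [hfin]
  calc ‖(∑ k ∈ ({2} : Finset ℕ), ∫ u in (-(M * σ))..(M * σ), Φ (k / 4 ^ 1 + u)) +
        ∑ j ∈ Ico 1 J, X j + Z‖ ≤ ε1 * D + 2 * ε1 * D + ε1 * D :=
        (norm_add_le _ _).trans (add_le_add ((norm_add_le _ _).trans (add_le_add T1 T2)) T3)
    _ = ε * D := by rw [hε1]; ring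

end Pool.Agent.R21.EQ
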