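import Mathlib
import Pool.Agent.R21.EQ.Stms

/-! # Project EQ (MP_a28f5d_nt), piece MOM. -/

open Finset

namespace Pool.Agent.R21.EQ.Mom

open Pool.Agent.R21.EQ

/-- the telescoping bound -/
theorem term_le (k : ℕ) (hk : k = 1 ∨ k = 2 ∨ k = 3) {t : ℝ} (ht : 0 < t) :
    t ^ k * Real.exp (-t) ≤ 49 * (1 / (1 + t) - 1 / (1 + 3 * t)) := by
  have h0 : 49 * (1 / (1 + t) - 1 / (1 + 3 * t)) = 98 * t / ((1 + t) * (1 + 3 * t)) := by
    field_simp
    ring
  have e1 := Real.pow_div_factorial_le_exp t ht.le 1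
  have e2 := Real.pow_div_factorial_le_exp t ht.le 2
  have e3 := Real.pow_div_factorial_le_exp t ht.le 3
  have e4 := Real.pow_div_factorial_le_exp t ht.le 4
  have e0 := Real.pow_div_factorial_le_exp t ht.le 0
  norm_num [Nat.factorial] at e0 e1 e2 e3 e4
  have hE := Real.exp_pos t
  rw [h0, Real.exp_neg, le_div_iff₀ (by positivity)]
  have h1 : t ^ k * (Real.exp t)⁻¹ * ((1 + t) * (1 + 3 * t)) =
      t ^ k * ((1 + t) * (1 + 3 * t)) / Real.exp t := by
    field_simp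
  rw [h1, div_le_iff₀ hE]
  have h1e : 1 ≤ Real.exp t := Real.one_le_exp ht.le
  rcases hk with rfl | rfl | rfl
  · have : (1 + t) * (1 + 3 * t) ≤ 98 * Real.exp t := by nlinarith
    nlinarith
  · have : t * ((1 + t) * (1 + 3 * t)) ≤ 98 * Real.exp t := by nlinarith
    nlinarith
  · have : t ^ 2 * ((1 + t) * (1 + 3 * t)) ≤ 98 * Real.exp t := by nlinarith
    nlinarith

theorem row_le (k : ℕ) (hk : k = 1 ∨ k = 2 ∨ k = 3) {x : ℝ} (hx : 0 < x) (α : ℕ) :
    ∑ a ∈ range α, (3 ^ a * x) ^ k * Real.exp (-(3 ^ a * x)) ≤ 49 / (1 + x) := by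
  have h : ∑ a ∈ range α, (3 ^ a * x) ^ k * Real.exp (-(3 ^ a * x)) ≤
      49 * (1 / (1 + x) - 1 / (1 + 3 ^ α * x)) := by
    induction α with
    | zero => simp
    | succ α ih =>
      rw [sum_range_succ]
      have h1 := term_le k hk (t := 3 ^ α * x) (by positivity)
      rw [pow_succ' (3 : ℝ) α]
      have h2 : 3 * (3 ^ α * x) = 3 * 3 ^ α * x := by ring
      rw [h2] at h1
      linarith
  have h3 : 0 ≤ 1 / (1 + 3 ^ α * x) := by positivity
  have h4 : 49 / (1 + x) = 49 * (1 / (1 + x)) := by ring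
  rw [h4]
  linarith

theorem mom1 : S_Mom1 := by
  refine ⟨49, by norm_num, fun σ hσ α => ?_⟩
  have h := row_le 1 (Or.inl rfl) hσ α
  have h1 : ∑ a ∈ range α, (3 ^ a * σ) ^ 1 * Real.exp (-(3 ^ a * σ)) =
      σ * ∑ a ∈ range α, (3 : ℝ) ^ a * Real.exp (-(3 ^ a * σ)) := by
    rw [mul_sum]
    apply sum_congr rfl
    intro a _
    ring
  rw [h1] at h
  rw [le_div_iff₀ hσ, mul_comm]
  refine h.trans ?_
  rw [div_le_iff₀ (by positivity)]
  nlinarith

theorem log_step {x : ℝ} (hx : 0 < x) :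
    1 / (1 + x) ≤ 4 / 3 * (Real.log (1 + 1 / x) - Real.log (1 + 1 / (4 * x))) := by
  have h1 : Real.log (1 + 1 / x) - Real.log (1 + 1 / (4 * x)) =
      Real.log ((4 * x + 4) / (4 * x + 1)) := by
    rw [← Real.log_div (by positivity) (by positivity)]
    congr 1
    field_simp
  have h2 := Real.one_sub_inv_le_log_of_pos (show 0 < (4 * x + 4) / (4 * x + 1) by positivity)
  rw [h1]
  have h3 : 1 - ((4 * x + 4) / (4 * x + 1))⁻¹ = 3 / 4 * (1 / (1 + x)) := by
    rw [inv_div]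
    field_simp
    ring
  rw [h3] at h2
  linarith

theorem sum_b_le {σ : ℝ} (hσ : 0 < σ) (hσ1 : σ ≤ 1) (β : ℕ) :
    ∑ b ∈ range β, 1 / (1 + 4 ^ b * σ) ≤ 4 / 3 * LL σ := by
  have h : ∑ b ∈ range β, 1 / (1 + 4 ^ b * σ) ≤
      4 / 3 * (Real.log (1 + 1 / σ) - Real.log (1 + 1 / (4 ^ β * σ))) := by
    induction β with
    | zero => simp
    | succ β ih =>
      rw [sum_range_succ]
      have h1 := log_step (x := 4 ^ β * σ) (by positivity)
      rw [pow_succ' (4 : ℝ) β]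
      have h2 : 4 * (4 ^ β * σ) = 4 * 4 ^ β * σ := by ring
      rw [h2] at h1
      linarith
  have h3 : 0 ≤ Real.log (1 + 1 / (4 ^ β * σ)) := by
    apply Real.log_nonneg
    have : 0 ≤ 1 / (4 ^ β * σ) := by positivity
    linarith
  have h4 : Real.log (1 + 1 / σ) ≤ LL σ := by
    unfold LL
    have h5 : 1 + 1 / σ ≤ 2 / σ := by
      rw [le_div_iff₀ hσ]
      field_simp
      linarith
    have h6 := Real.log_le_log (by positivity) h5
    rw [Real.log_div (by norm_num) hσ.ne'] at h6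
    have h7 : Real.log 2 ≤ 1 := by
      have := Real.log_two_lt_d9
      linarith
    linarith
  linarith

theorem mom_le (k : ℕ) (hk : k = 1 ∨ k = 2 ∨ k = 3) {σ : ℝ} (hσ : 0 < σ) (hσ1 : σ ≤ 1)
    (α β : ℕ) : mom k α β σ ≤ (49 * (4 / 3)) * LL σ / σ ^ k := by
  rw [le_div_iff₀ (by positivity)]
  have h1 : mom k α β σ * σ ^ k = ∑ b ∈ range β, ∑ a ∈ range α,
      (3 ^ a * (4 ^ b * σ)) ^ k * Real.exp (-(3 ^ a * (4 ^ b * σ))) := by
    unfold mom
    rw [sum_mul]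
    apply sum_congr rfl
    intro b _
    rw [sum_mul]
    apply sum_congr rfl
    intro a _
    rw [show (3 : ℝ) ^ a * (4 ^ b * σ) = 3 ^ a * 4 ^ b * σ by ring, mul_pow (3 ^ a * 4 ^ b) σ k]
    ring
  rw [h1]
  calc ∑ b ∈ range β, ∑ a ∈ range α,
      (3 ^ a * (4 ^ b * σ)) ^ k * Real.exp (-(3 ^ a * (4 ^ b * σ)))
      ≤ ∑ b ∈ range β, 49 / (1 + 4 ^ b * σ) := by
        apply sum_le_sum
        intro b _
        exact row_le k hk (by positivity) α
    _ = 49 * ∑ b ∈ range β, 1 / (1 + 4 ^ b * σ) := by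
        rw [mul_sum]
        apply sum_congr rfl
        intro b _
        ring
    _ ≤ 49 * (4 / 3 * LL σ) := by
        have := sum_b_le hσ hσ1 β
        linarith
    _ = _ := by ring

theorem mom : S_Mom :=
  ⟨49 * (4 / 3), by norm_num, fun _ hσ hσ1 α β =>
    ⟨mom_le 2 (Or.inr (Or.inl rfl)) hσ hσ1 α β, mom_le 3 (Or.inr (Or.inr rfl)) hσ hσ1 α β⟩⟩

end Pool.Agent.R21.EQ.Mom
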