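import Mathlib
import Pool.Agent.R21.EQ.Stms

/-!
# EQ-PERT: the ratio of the rows at `1/4 + u` and at `u` (helper699)
-/

set_option autoImplicit false

open Finset

namespace Pool.Agent.R21.EQ

namespace PertP

theorem ex_norm (t : ℝ) : ‖ex t‖ = 1 := by
  unfold ex
  exact Complex.norm_exp_ofReal_mul_I _

theorem ex_add (s t : ℝ) : ex (s + t) = ex s * ex t := by
  unfold ex
  rw [← Complex.exp_add]
  congr 1
  push_cast
  ring

theorem ex_nat (n : ℕ) : ex n = 1 := by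
  unfold ex
  rw [← Complex.exp_int_mul_two_pi_mul_I n]
  congr 1
  push_cast
  ring

theorem ex_zero : ex 0 = 1 := by
  have := ex_nat 0
  rwa [Nat.cast_zero] at this

theorem ex_sub_one (t : ℝ) : ‖ex t - 1‖ ≤ 2 * Real.pi * |t| := by
  unfold ex
  rw [mul_comm _ Complex.I]
  refine (Real.norm_exp_I_mul_ofReal_sub_one_le).trans ?_
  rw [Real.norm_eq_abs, abs_mul, abs_of_nonneg (by positivity : 0 ≤ 2 * Real.pi)]

theorem ex_quarter : ex (1 / 4) = Complex.I := by
  unfold ex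
  have : ((2 * Real.pi * (1 / 4) : ℝ) : ℂ) * Complex.I = (Real.pi / 2 : ℂ) * Complex.I := by
    push_cast; ring
  rw [this, Complex.exp_mul_I, Complex.cos_pi_div_two, Complex.sin_pi_div_two]
  ring

theorem ex_three_quarter : ex (3 / 4) = -Complex.I := by
  have : (3 / 4 : ℝ) = 1 / 4 + (1 / 4 + 1 / 4) := by norm_num
  rw [this, ex_add, ex_add, ex_quarter]
  rw [Complex.I_mul_I]
  ring

theorem pow_mod (a : ℕ) : 3 ^ a % 4 = 1 ∨ 3 ^ a % 4 = 3 := by
  induction a with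
  | zero => left; rfl
  | succ n ih => rw [pow_succ]; omega

theorem ex_pow (a : ℕ) : ex (3 ^ a * (1 / 4)) = Complex.I ∨ ex (3 ^ a * (1 / 4)) = -Complex.I := by
  rcases pow_mod a with h | h
  · left
    have h1 : 3 ^ a = 4 * (3 ^ a / 4) + 1 := by omega
    have h2 : ((3 : ℝ) ^ a) = 4 * ((3 ^ a / 4 : ℕ) : ℝ) + 1 := by exact_mod_cast h1
    rw [h2]
    have h3 : (4 * ((3 ^ a / 4 : ℕ) : ℝ) + 1) * (1 / 4) = ((3 ^ a / 4 : ℕ) : ℝ) + 1 / 4 := by ring
    rw [h3, ex_add, ex_nat, ex_quarter, one_mul]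
  · right
    have h1 : 3 ^ a = 4 * (3 ^ a / 4) + 3 := by omega
    have h2 : ((3 : ℝ) ^ a) = 4 * ((3 ^ a / 4 : ℕ) : ℝ) + 3 := by exact_mod_cast h1
    rw [h2]
    have h3 : (4 * ((3 ^ a / 4 : ℕ) : ℝ) + 3) * (1 / 4) = ((3 ^ a / 4 : ℕ) : ℝ) + 3 / 4 := by ring
    rw [h3, ex_add, ex_nat, ex_three_quarter, one_mul]

theorem norm_one_add (y : ℝ) (a : ℕ) : ‖1 + (y : ℂ) * ex (3 ^ a * (1 / 4))‖ = √(1 + y ^ 2) := by
  rcases ex_pow a with h | h
  · rw [h]
    have : (1 + (y : ℂ) * Complex.I) = ((1 : ℝ) : ℂ) + (y : ℂ) * Complex.I := by push_cast; rfl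
    rw [this, Complex.norm_add_mul_I]
    norm_num
  · rw [h]
    have : (1 + (y : ℂ) * -Complex.I) = ((1 : ℝ) : ℂ) + ((-y : ℝ) : ℂ) * Complex.I := by
      push_cast; ring
    rw [this, Complex.norm_add_mul_I]
    norm_num

theorem cR_quarter (α : ℕ) (σ : ℝ) : ‖cR α σ (1 / 4)‖ = 1 / La α σ := by
  unfold cR La
  rw [norm_prod, one_div (∏ a ∈ range α, (1 + Real.exp (-(3 ^ a * σ))) / √(1 + Real.exp (-(3 ^ a * σ)) ^ 2)),
    ← Finset.prod_inv_distrib]
  apply Finset.prod_congr rfl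
  intro a _
  unfold cf
  rw [norm_div, norm_one_add, inv_div]
  congr 1
  have : (1 + ((Real.exp (-(3 ^ a * σ)) : ℝ) : ℂ)) = ((1 + Real.exp (-(3 ^ a * σ)) : ℝ) : ℂ) := by
    push_cast; rfl
  rw [this, Complex.norm_real, Real.norm_eq_abs, abs_of_pos (by positivity)]

theorem La_pos (α : ℕ) (σ : ℝ) : 0 < La α σ := by
  unfold La
  apply Finset.prod_pos
  intro a _
  positivity

end PertP

open PertP in
theorem pert_of (h : S_Mom1) : S_Pert := by
  obtain ⟨C1, hC1, h1⟩ := h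
  have hpi := Real.pi_pos
  refine ⟨16 * Real.pi * C1, min 1 (1 / (8 * Real.pi * C1)), by positivity, by positivity,
    min_le_left _ _, ?_⟩
  intro σ hσ _ α u hu
  set y : ℕ → ℝ := fun a => Real.exp (-(3 ^ a * σ)) with hy
  have hy0 : ∀ a, 0 < y a := fun a => Real.exp_pos _
  set x : ℕ → ℝ := fun a => 2 * Real.pi * (3 ^ a * |u|) * y a with hx
  have hx0 : ∀ a, 0 ≤ x a := fun a => by
    have := (hy0 a).le
    simp only [hx]; positivity
  have hX : ∑ a ∈ range α, x a ≤ 2 * Real.pi * C1 * (|u| / σ) := by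
    have e : ∑ a ∈ range α, x a = 2 * Real.pi * |u| * ∑ a ∈ range α, (3 : ℝ) ^ a * Real.exp (-(3 ^ a * σ)) := by
      rw [Finset.mul_sum]
      apply Finset.sum_congr rfl
      intro a _
      simp only [hx, hy]
      ring
    rw [e]
    calc 2 * Real.pi * |u| * ∑ a ∈ range α, (3 : ℝ) ^ a * Real.exp (-(3 ^ a * σ))
        ≤ 2 * Real.pi * |u| * (C1 / σ) := by
          have := h1 σ hσ α
          have h0 : 0 ≤ 2 * Real.pi * |u| := by positivity
          exact mul_le_mul_of_nonneg_left this h0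
      _ = _ := by ring
  have hq : |u| / σ ≤ 1 / (8 * Real.pi * C1) := by
    rw [div_le_iff₀ hσ]
    exact hu.trans (mul_le_mul_of_nonneg_right (min_le_right _ _) hσ.le)
  have hX4 : ∑ a ∈ range α, x a ≤ 1 / 4 := by
    refine hX.trans ?_
    calc 2 * Real.pi * C1 * (|u| / σ) ≤ 2 * Real.pi * C1 * (1 / (8 * Real.pi * C1)) := by gcongr
      _ = 1 / 4 := by field_simp; norm_num
  have hxa : ∀ a ∈ range α, x a ≤ 1 / 4 := fun a ha =>
    (Finset.single_le_sum (fun b _ => hx0 b) ha).trans hX4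
  set E : ℕ → ℂ := fun a => ex (3 ^ a * u) with hE
  have hE1 : ∀ a, ‖E a - 1‖ ≤ 2 * Real.pi * (3 ^ a * |u|) := by
    intro a
    refine (ex_sub_one _).trans ?_
    rw [abs_mul, abs_of_pos (by positivity : (0 : ℝ) < 3 ^ a)]
  set i : ℕ → ℂ := fun a => ex (3 ^ a * (1 / 4)) with hi
  have hin : ∀ a, ‖i a‖ = 1 := fun a => ex_norm _
  -- the two perturbations
  set Cc : ℕ → ℂ := fun a => (y a : ℂ) * (E a - 1) / (1 + (y a : ℂ)) with hCc
  set A : ℕ → ℂ := fun a => (y a : ℂ) * i a * (E a - 1) / (1 + (y a : ℂ) * i a) with hA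
  have n1 : ∀ a, ‖(1 + (y a : ℂ))‖ = 1 + y a := by
    intro a
    have : (1 + (y a : ℂ)) = ((1 + y a : ℝ) : ℂ) := by push_cast; rfl
    rw [this, Complex.norm_real, Real.norm_eq_abs, abs_of_pos (by have := hy0 a; linarith)]
  have n2 : ∀ a, 1 ≤ ‖(1 + (y a : ℂ) * i a)‖ := by
    intro a
    rw [hi]
    simp only
    rw [norm_one_add]
    apply Real.le_sqrt_of_sq_le
    nlinarith [sq_nonneg (y a)]
  have yn : ∀ a, ‖((y a : ℝ) : ℂ)‖ = y a := by
    intro a
    rw [Complex.norm_real, Real.norm_eq_abs, abs_of_pos (hy0 a)]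
  have bC : ∀ a, ‖Cc a‖ ≤ x a := by
    intro a
    simp only [hCc]
    rw [norm_div, norm_mul, n1, yn]
    have h2 : 1 ≤ 1 + y a := by have := hy0 a; linarith
    refine (div_le_self (mul_nonneg (hy0 a).le (norm_nonneg _)) h2).trans ?_
    calc y a * ‖E a - 1‖ ≤ y a * (2 * Real.pi * (3 ^ a * |u|)) :=
          mul_le_mul_of_nonneg_left (hE1 a) (hy0 a).le
      _ = x a := by simp only [hx]; ring
  have bA : ∀ a, ‖A a‖ ≤ x a := by
    intro a
    simp only [hA]
    rw [norm_div, norm_mul, norm_mul, yn, hin, mul_one]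
    refine (div_le_self (mul_nonneg (hy0 a).le (norm_nonneg _)) (n2 a)).trans ?_
    calc y a * ‖E a - 1‖ ≤ y a * (2 * Real.pi * (3 ^ a * |u|)) :=
          mul_le_mul_of_nonneg_left (hE1 a) (hy0 a).le
      _ = x a := by simp only [hx]; ring
  have c1 : ∀ a, 1 + (y a : ℂ) ≠ 0 := by
    intro a h0
    have := n1 a
    rw [h0, norm_zero] at this
    have := hy0 a
    linarith
  have c2 : ∀ a, 1 + (y a : ℂ) * i a ≠ 0 := by
    intro a h0
    have := n2 a
    rw [h0, norm_zero] at this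
    linarith
  have nC : ∀ a ∈ range α, 3 / 4 ≤ ‖1 + Cc a‖ := by
    intro a ha
    have h3 := norm_sub_norm_le (1 : ℂ) (-(Cc a))
    rw [norm_one, norm_neg, sub_neg_eq_add] at h3
    have := bC a
    have := hxa a ha
    linarith
  have c3 : ∀ a ∈ range α, 1 + Cc a ≠ 0 := by
    intro a ha h0
    have := nC a ha
    rw [h0, norm_zero] at this
    linarith
  have f1 : ∀ a, cf (y a) (3 ^ a * u) = 1 + Cc a := by
    intro a
    have := c1 a
    simp only [cf, hCc, hE]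
    field_simp
    ring
  have f2 : ∀ a, cf (y a) (3 ^ a * (1 / 4 + u)) = cf (y a) (3 ^ a * (1 / 4)) * (1 + A a) := by
    intro a
    have t1 := c1 a
    have t2 := c2 a
    have e : (3 : ℝ) ^ a * (1 / 4 + u) = 3 ^ a * (1 / 4) + 3 ^ a * u := by ring
    have e2 : cf (y a) (3 ^ a * (1 / 4)) = (1 + (y a : ℂ) * i a) / (1 + (y a : ℂ)) := by
      simp only [cf, hi]
    have e3 : cf (y a) (3 ^ a * (1 / 4 + u)) = (1 + (y a : ℂ) * (i a * E a)) / (1 + (y a : ℂ)) := by
      simp only [cf]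
      rw [e, ex_add]
    rw [e2, e3]
    simp only [hA]
    field_simp
    ring
  have g1 : cR α σ u = ∏ a ∈ range α, (1 + Cc a) := by
    unfold cR
    apply Finset.prod_congr rfl
    intro a _
    exact f1 a
  have g0 : cR α σ u ≠ 0 := by
    rw [g1, Finset.prod_ne_zero_iff]
    exact c3
  refine ⟨g0, ?_⟩
  have g2 : cR α σ (1 / 4 + u) = cR α σ (1 / 4) * ∏ a ∈ range α, (1 + A a) := by
    unfold cR
    rw [← Finset.prod_mul_distrib]
    apply Finset.prod_congr rfl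
    intro a _
    exact f2 a
  set B : ℕ → ℂ := fun a => (A a - Cc a) / (1 + Cc a) with hB
  have g3 : cR α σ (1 / 4 + u) / cR α σ u - cR α σ (1 / 4) =
      cR α σ (1 / 4) * (∏ a ∈ range α, (1 + B a) - 1) := by
    have e4 : ∏ a ∈ range α, (1 + B a) = (∏ a ∈ range α, (1 + A a)) / ∏ a ∈ range α, (1 + Cc a) := by
      rw [← Finset.prod_div_distrib]
      apply Finset.prod_congr rfl
      intro a ha
      have := c3 a ha
      simp only [hB]
      field_simp
      ring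
    rw [e4, g2, ← g1]
    field_simp
  have bB : ∀ a ∈ range α, ‖B a‖ ≤ 4 * x a := by
    intro a ha
    simp only [hB]
    rw [norm_div, div_le_iff₀ (by have := nC a ha; linarith)]
    have h5 := norm_sub_le (A a) (Cc a)
    have h6 := bA a
    have h7 := bC a
    have h8 := nC a ha
    have h9 := hx0 a
    nlinarith
  have hs : ∑ a ∈ range α, ‖B a‖ ≤ 4 * ∑ a ∈ range α, x a := by
    rw [Finset.mul_sum]
    exact Finset.sum_le_sum bB
  have hS0 : 0 ≤ ∑ a ∈ range α, ‖B a‖ := Finset.sum_nonneg (fun a _ => norm_nonneg _)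
  have hp : ‖∏ a ∈ range α, (1 + B a) - 1‖ ≤ 8 * ∑ a ∈ range α, x a := by
    refine (norm_prod_one_add_sub_one_le _ _).trans ?_
    have h10 : ∑ a ∈ range α, ‖B a‖ ≤ 1 := by linarith
    have h11 := Real.exp_bound' hS0 h10 (n := 1) (by norm_num)
    norm_num at h11
    linarith
  rw [g3, norm_mul, cR_quarter]
  have hL := La_pos α σ
  rw [one_div, inv_mul_le_iff₀ hL]
  have e6 : La α σ * (16 * Real.pi * C1 * (|u| / σ) / La α σ) = 16 * Real.pi * C1 * (|u| / σ) := by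
    field_simp
  rw [e6]
  linarith

end Pool.Agent.R21.EQ
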