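import Mathlib
import Pool.Agent.R21.EQ.Stms

/-!
# EQ-QUA: rows near `k / 4` and near `1 / 2` (helper699)
-/

set_option autoImplicit false

open Finset

namespace Pool.Agent.R21.EQ

namespace QuaP

theorem ex_norm (t : ℝ) : ‖ex t‖ = 1 := by
  unfold ex
  exact Complex.norm_exp_ofReal_mul_I _

theorem ex_add (s t : ℝ) : ex (s + t) = ex s * ex t := by
  unfold ex
  rw [← Complex.exp_add]
  congr 1
  push_cast
  ring

theorem ex_nat (n : ℕ) : ex n = 1 := by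
  unfold ex
  rw [← Complex.exp_int_mul_two_pi_mul_I n]
  congr 1
  push_cast
  ring

theorem ex_sub_one (t : ℝ) : ‖ex t - 1‖ ≤ 2 * Real.pi * |t| := by
  unfold ex
  rw [mul_comm _ Complex.I]
  refine (Real.norm_exp_I_mul_ofReal_sub_one_le).trans ?_
  rw [Real.norm_eq_abs, abs_mul, abs_of_nonneg (by positivity : 0 ≤ 2 * Real.pi)]

theorem ex_quarter : ex (1 / 4) = Complex.I := by
  unfold ex
  have : ((2 * Real.pi * (1 / 4) : ℝ) : ℂ) * Complex.I = (Real.pi / 2 : ℂ) * Complex.I := by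
    push_cast; ring
  rw [this, Complex.exp_mul_I, Complex.cos_pi_div_two, Complex.sin_pi_div_two]
  ring

theorem ex_half : ex (1 / 2) = -1 := by
  have : (1 / 2 : ℝ) = 1 / 4 + 1 / 4 := by norm_num
  rw [this, ex_add, ex_quarter, Complex.I_mul_I]

theorem ex_three_quarter : ex (3 / 4) = -Complex.I := by
  have : (3 / 4 : ℝ) = 1 / 4 + 1 / 2 := by norm_num
  rw [this, ex_add, ex_half, ex_quarter]
  ring

/-- the value of `ex (m/4)` -/
theorem ex_div4 (m r : ℕ) (h : m % 4 = r) : ex ((m : ℝ) * (1 / 4)) = ex ((r : ℝ) * (1 / 4)) := by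
  have h1 : m = 4 * (m / 4) + r := by omega
  have h2 : (m : ℝ) = 4 * ((m / 4 : ℕ) : ℝ) + r := by exact_mod_cast h1
  rw [h2]
  have h3 : (4 * ((m / 4 : ℕ) : ℝ) + r) * (1 / 4) = ((m / 4 : ℕ) : ℝ) + (r : ℝ) * (1 / 4) := by ring
  rw [h3, ex_add, ex_nat, one_mul]

theorem ex_div4_odd (m : ℕ) (h : m % 2 = 1) :
    ex ((m : ℝ) * (1 / 4)) = Complex.I ∨ ex ((m : ℝ) * (1 / 4)) = -Complex.I := by
  have h1 : m % 4 = 1 ∨ m % 4 = 3 := by omega
  rcases h1 with h1 | h1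
  · left
    rw [ex_div4 m 1 h1, Nat.cast_one, one_mul, ex_quarter]
  · right
    rw [ex_div4 m 3 h1]
    have : ((3 : ℕ) : ℝ) * (1 / 4) = 3 / 4 := by norm_num
    rw [this, ex_three_quarter]

theorem ex_div4_two (m : ℕ) (h : m % 4 = 2) : ex ((m : ℝ) * (1 / 4)) = -1 := by
  rw [ex_div4 m 2 h]
  have : ((2 : ℕ) : ℝ) * (1 / 4) = 1 / 2 := by norm_num
  rw [this, ex_half]

theorem pow_odd (a : ℕ) : 3 ^ a % 2 = 1 := by
  rw [Nat.pow_mod]; simp

theorem norm_one_add_I (y : ℝ) (i : ℂ) (h : i = Complex.I ∨ i = -Complex.I) :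
    ‖1 + (y : ℂ) * i‖ = √(1 + y ^ 2) := by
  rcases h with h | h
  · rw [h]
    have : (1 + (y : ℂ) * Complex.I) = ((1 : ℝ) : ℂ) + (y : ℂ) * Complex.I := by push_cast; rfl
    rw [this, Complex.norm_add_mul_I]
    norm_num
  · rw [h]
    have : (1 + (y : ℂ) * -Complex.I) = ((1 : ℝ) : ℂ) + ((-y : ℝ) : ℂ) * Complex.I := by
      push_cast; ring
    rw [this, Complex.norm_add_mul_I]
    norm_num

theorem La_pos (α : ℕ) (σ : ℝ) : 0 < La α σ := by
  unfold La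
  apply Finset.prod_pos
  intro a _
  positivity

theorem sq_pos (y : ℝ) : 0 < √(1 + y ^ 2) := Real.sqrt_pos.2 (by positivity)

theorem one_le_sq (y : ℝ) : 1 ≤ √(1 + y ^ 2) := by
  apply Real.le_sqrt_of_sq_le
  nlinarith [sq_nonneg y]

/-- row times `La` -/
theorem Rw_mul (α : ℕ) (σ θ : ℝ) : Rw α σ θ * La α σ =
    ∏ a ∈ range α, ‖1 + ((Real.exp (-(3 ^ a * σ)) : ℝ) : ℂ) * ex (3 ^ a * θ)‖ /
      √(1 + Real.exp (-(3 ^ a * σ)) ^ 2) := by
  unfold Rw cR La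
  rw [norm_prod, ← Finset.prod_mul_distrib]
  apply Finset.prod_congr rfl
  intro a _
  unfold cf
  have hy := Real.exp_pos (-(3 ^ a * σ))
  have : (1 + ((Real.exp (-(3 ^ a * σ)) : ℝ) : ℂ)) = ((1 + Real.exp (-(3 ^ a * σ)) : ℝ) : ℂ) := by
    push_cast; rfl
  rw [norm_div, this, Complex.norm_real, Real.norm_eq_abs, abs_of_pos (by positivity)]
  have := sq_pos (Real.exp (-(3 ^ a * σ)))
  field_simp

/-- the odd case: one factor -/
theorem odd_factor (y t u : ℝ) (hy : 0 ≤ y) (m : ℕ) (hm : m % 2 = 1) (ht : t = (m : ℝ) * (1 / 4) + u) :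
    ‖1 + (y : ℂ) * ex t‖ / √(1 + y ^ 2) ≤ Real.exp (2 * Real.pi * |u| * y) := by
  rw [div_le_iff₀ (sq_pos y)]
  have h1 := ex_div4_odd m hm
  set i := ex ((m : ℝ) * (1 / 4)) with hi
  have hin : ‖i‖ = 1 := ex_norm _
  have e : 1 + (y : ℂ) * ex t = (1 + (y : ℂ) * i) + (y : ℂ) * (i * (ex u - 1)) := by
    rw [ht, ex_add, ← hi]; ring
  rw [e]
  refine (norm_add_le _ _).trans ?_
  rw [norm_one_add_I y i h1, norm_mul, norm_mul, hin, one_mul, Complex.norm_real, Real.norm_eq_abs,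
    abs_of_nonneg hy]
  have h2 := ex_sub_one u
  have h3 := one_le_sq y
  have h4 := Real.add_one_le_exp (2 * Real.pi * |u| * y)
  have h5 : y * ‖ex u - 1‖ ≤ 2 * Real.pi * |u| * y := by
    calc y * ‖ex u - 1‖ ≤ y * (2 * Real.pi * |u|) := by gcongr
      _ = _ := by ring
  have h6 : 0 ≤ 2 * Real.pi * |u| * y := by positivity
  calc √(1 + y ^ 2) + y * ‖ex u - 1‖ ≤ √(1 + y ^ 2) + 2 * Real.pi * |u| * y := by linarith
    _ ≤ √(1 + y ^ 2) + 2 * Real.pi * |u| * y * √(1 + y ^ 2) := by nlinarith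
    _ = (2 * Real.pi * |u| * y + 1) * √(1 + y ^ 2) := by ring
    _ ≤ Real.exp (2 * Real.pi * |u| * y) * √(1 + y ^ 2) := by gcongr

/-- the even case: one factor -/
theorem even_factor (s t u K : ℝ) (hs : 0 < s) (m : ℕ) (hm : m % 4 = 2)
    (ht : t = (m : ℝ) * (1 / 4) + u) (hK : 1 ≤ K) (hu : s + 2 * Real.pi * |u| ≤ K * s) :
    ‖1 + ((Real.exp (-s) : ℝ) : ℂ) * ex t‖ / √(1 + Real.exp (-s) ^ 2) ≤
      (if K * s ≤ 1 / 2 then 1 / 2 else 1) * Real.exp (2 * K * (s * Real.exp (-s))) := by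
  set y := Real.exp (-s) with hy
  have hy0 : 0 < y := Real.exp_pos _
  have hys : 1 - s ≤ y := by
    have := Real.add_one_le_exp (-s)
    linarith
  have hy1 : y ≤ 1 := by
    rw [hy, ← Real.exp_zero]; apply Real.exp_le_exp.2; linarith
  have h1 := ex_div4_two m hm
  have e : 1 + (y : ℂ) * ex t = ((1 - y : ℝ) : ℂ) - (y : ℂ) * (ex u - 1) := by
    rw [ht, ex_add, h1]; push_cast; ring
  have n1 : ‖1 + (y : ℂ) * ex t‖ ≤ K * s := by
    rw [e]
    refine (norm_sub_le _ _).trans ?_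
    rw [norm_mul, Complex.norm_real, Complex.norm_real, Real.norm_eq_abs, Real.norm_eq_abs,
      abs_of_pos hy0, abs_of_nonneg (by linarith)]
    have h2 := ex_sub_one u
    have h5 : y * ‖ex u - 1‖ ≤ 2 * Real.pi * |u| := by
      calc y * ‖ex u - 1‖ ≤ 1 * ‖ex u - 1‖ := by gcongr
        _ ≤ _ := by rw [one_mul]; exact h2
    linarith
  have n2 : ‖1 + (y : ℂ) * ex t‖ ≤ 1 + y := by
    refine (norm_add_le _ _).trans ?_
    rw [norm_mul, ex_norm, norm_one, Complex.norm_real, Real.norm_eq_abs, abs_of_pos hy0, mul_one]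
  have n3 : ‖1 + (y : ℂ) * ex t‖ / √(1 + y ^ 2) ≤ ‖1 + (y : ℂ) * ex t‖ :=
    div_le_self (norm_nonneg _) (one_le_sq y)
  refine n3.trans ?_
  have hexp : 1 ≤ Real.exp (2 * K * (s * y)) := by
    rw [← Real.exp_zero]
    apply Real.exp_le_exp.2
    positivity
  split_ifs with hc
  · calc ‖1 + (y : ℂ) * ex t‖ ≤ 1 / 2 := n1.trans hc
      _ ≤ 1 / 2 * Real.exp (2 * K * (s * y)) := by linarith
  · rw [not_le] at hc
    rw [one_mul]
    refine n2.trans ?_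
    have h7 := Real.add_one_le_exp (2 * K * (s * y))
    nlinarith

theorem even_prod (M : ℝ) (hM : 1 ≤ M) (C1 : ℝ) (h1 : ∀ σ : ℝ, 0 < σ → ∀ α : ℕ,
      ∑ a ∈ range α, (3 : ℝ) ^ a * Real.exp (-(3 ^ a * σ)) ≤ C1 / σ) (σ : ℝ) (hσ : 0 < σ) (α : ℕ)
    (k : ℕ) (hk : k % 4 = 2) (u : ℝ) (hu : |u| ≤ M * σ) :
    Rw α σ (k / 4 + u) * La α σ ≤
      (∏ a ∈ range α, (if (1 + 2 * Real.pi * M) * (3 ^ a * σ) ≤ 1 / 2 then (1 / 2 : ℝ) else 1)) *
        Real.exp (2 * (1 + 2 * Real.pi * M) * C1) := by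
  have hpi := Real.pi_pos
  set K := 1 + 2 * Real.pi * M with hK
  have hK1 : 1 ≤ K := by
    have : 0 ≤ 2 * Real.pi * M := by positivity
    linarith
  rw [Rw_mul]
  have hb : ∀ a ∈ range α, ‖1 + ((Real.exp (-(3 ^ a * σ)) : ℝ) : ℂ) * ex (3 ^ a * (k / 4 + u))‖ /
      √(1 + Real.exp (-(3 ^ a * σ)) ^ 2) ≤
      (if K * (3 ^ a * σ) ≤ 1 / 2 then 1 / 2 else 1) *
        Real.exp (2 * K * ((3 ^ a * σ) * Real.exp (-(3 ^ a * σ)))) := by
    intro a _
    apply even_factor (3 ^ a * σ) (3 ^ a * (k / 4 + u)) (3 ^ a * u) K (by positivity) (3 ^ a * k)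
    · have : 3 ^ a % 2 = 1 := pow_odd a
      have h4 : (3 ^ a * k) % 4 = ((3 ^ a % 4) * (k % 4)) % 4 := Nat.mul_mod _ _ _
      rw [hk] at h4
      omega
    · push_cast; ring
    · exact hK1
    · rw [abs_mul, abs_of_pos (by positivity : (0 : ℝ) < 3 ^ a), hK]
      have : (3 : ℝ) ^ a * |u| ≤ 3 ^ a * (M * σ) := by gcongr
      nlinarith
  refine (Finset.prod_le_prod (fun a _ => by positivity) hb).trans ?_
  rw [Finset.prod_mul_distrib, ← Real.exp_sum]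
  have hnn : 0 ≤ ∏ a ∈ range α, (if K * (3 ^ a * σ) ≤ 1 / 2 then (1 / 2 : ℝ) else 1) := by
    apply Finset.prod_nonneg
    intro a _
    split_ifs <;> norm_num
  apply mul_le_mul_of_nonneg_left _ hnn
  apply Real.exp_le_exp.2
  rw [← Finset.mul_sum]
  have e : ∑ a ∈ range α, (3 : ℝ) ^ a * σ * Real.exp (-(3 ^ a * σ)) =
      σ * ∑ a ∈ range α, (3 : ℝ) ^ a * Real.exp (-(3 ^ a * σ)) := by
    rw [Finset.mul_sum]
    apply Finset.sum_congr rfl
    intro a _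
    ring
  rw [e]
  have h2 := h1 σ hσ α
  have h3 : σ * ∑ a ∈ range α, (3 : ℝ) ^ a * Real.exp (-(3 ^ a * σ)) ≤ C1 := by
    calc σ * ∑ a ∈ range α, (3 : ℝ) ^ a * Real.exp (-(3 ^ a * σ)) ≤ σ * (C1 / σ) := by gcongr
      _ = C1 := by field_simp
  exact mul_le_mul_of_nonneg_left h3 (by positivity)

theorem odd_prod (M : ℝ) (hM : 1 ≤ M) (C1 : ℝ) (h1 : ∀ σ : ℝ, 0 < σ → ∀ α : ℕ,
      ∑ a ∈ range α, (3 : ℝ) ^ a * Real.exp (-(3 ^ a * σ)) ≤ C1 / σ) (hC1 : 0 < C1)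
    (σ : ℝ) (hσ : 0 < σ) (α : ℕ)
    (k : ℕ) (hk : k % 2 = 1) (u : ℝ) (hu : |u| ≤ M * σ) :
    Rw α σ (k / 4 + u) * La α σ ≤ Real.exp (2 * Real.pi * M * C1) := by
  have hpi := Real.pi_pos
  rw [Rw_mul]
  have hb : ∀ a ∈ range α, ‖1 + ((Real.exp (-(3 ^ a * σ)) : ℝ) : ℂ) * ex (3 ^ a * (k / 4 + u))‖ /
      √(1 + Real.exp (-(3 ^ a * σ)) ^ 2) ≤
      Real.exp (2 * Real.pi * |3 ^ a * u| * Real.exp (-(3 ^ a * σ))) := by
    intro a _
    apply odd_factor _ (3 ^ a * (k / 4 + u)) (3 ^ a * u) (Real.exp_pos _).le (3 ^ a * k)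
    · have : 3 ^ a % 2 = 1 := pow_odd a
      rw [Nat.mul_mod, this, hk]
    · push_cast; ring
  refine (Finset.prod_le_prod (fun a _ => by positivity) hb).trans ?_
  rw [← Real.exp_sum]
  apply Real.exp_le_exp.2
  have e : ∑ a ∈ range α, 2 * Real.pi * |3 ^ a * u| * Real.exp (-(3 ^ a * σ)) =
      2 * Real.pi * |u| * ∑ a ∈ range α, (3 : ℝ) ^ a * Real.exp (-(3 ^ a * σ)) := by
    rw [Finset.mul_sum]
    apply Finset.sum_congr rfl
    intro a _
    rw [abs_mul, abs_of_pos (by positivity : (0 : ℝ) < 3 ^ a)]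
    ring
  rw [e]
  have h2 := h1 σ hσ α
  calc 2 * Real.pi * |u| * ∑ a ∈ range α, (3 : ℝ) ^ a * Real.exp (-(3 ^ a * σ))
      ≤ 2 * Real.pi * |u| * (C1 / σ) := by gcongr
    _ ≤ 2 * Real.pi * (M * σ) * (C1 / σ) := by gcongr
    _ = 2 * Real.pi * M * C1 := by field_simp

end QuaP

open QuaP in
theorem qua_of (h : S_Mom1) : S_Qua := by
  obtain ⟨C1, hC1, h1⟩ := h
  have hpi := Real.pi_pos
  intro M hM
  refine ⟨Real.exp (2 * Real.pi * M * C1) + Real.exp (2 * (1 + 2 * Real.pi * M) * C1),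
    by positivity, ?_⟩
  intro σ hσ _ α k hk u hu
  have hL := La_pos α σ
  rw [le_div_iff₀ hL]
  have hcase : k % 2 = 1 ∨ k % 4 = 2 := by omega
  rcases hcase with hc | hc
  · refine (odd_prod M hM C1 h1 hC1 σ hσ α k hc u hu).trans ?_
    have := Real.exp_pos (2 * (1 + 2 * Real.pi * M) * C1)
    linarith
  · refine (even_prod M hM C1 h1 σ hσ α k hc u hu).trans ?_
    have h2 : ∏ a ∈ range α, (if (1 + 2 * Real.pi * M) * (3 ^ a * σ) ≤ 1 / 2 then (1 / 2 : ℝ) else 1) ≤ 1 := by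
      apply Finset.prod_le_one
      · intro a _
        split_ifs <;> norm_num
      · intro a _
        split_ifs <;> norm_num
    have h3 := Real.exp_pos (2 * (1 + 2 * Real.pi * M) * C1)
    have h4 := Real.exp_pos (2 * Real.pi * M * C1)
    nlinarith

open QuaP in
theorem half_of (h : S_Mom1) : S_Half := by
  obtain ⟨C1, hC1, h1⟩ := h
  have hpi := Real.pi_pos
  intro M hM ε hε
  set K := 1 + 2 * Real.pi * M with hK
  have hK1 : 1 ≤ K := by
    have : 0 ≤ 2 * Real.pi * M := by positivity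
    linarith
  have hD : 0 < Real.exp (2 * K * C1) := Real.exp_pos _
  obtain ⟨m, hm⟩ := exists_pow_lt_of_lt_one (div_pos hε hD) (by norm_num : (1 / 2 : ℝ) < 1)
  have h3m : (0 : ℝ) < 3 ^ m := by positivity
  have h3m1 : (1 : ℝ) ≤ 3 ^ m := one_le_pow₀ (by norm_num)
  refine ⟨1 / (2 * K * 3 ^ m), by positivity, ?_, ?_⟩
  · rw [div_le_one (by positivity)]
    nlinarith
  intro σ hσ hσ0 α hα u hu
  have hL := La_pos α σ
  rw [le_div_iff₀ hL]
  have hs : K * (3 ^ m * σ) ≤ 1 / 2 := by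
    rw [le_div_iff₀ (by positivity)] at hσ0
    linarith
  have hmα : m ≤ α := by
    by_contra hc
    rw [not_le] at hc
    have h5 : (3 : ℝ) ^ α ≤ 3 ^ m := pow_le_pow_right₀ (by norm_num) hc.le
    have h6 : 3 ^ α * σ ≤ 3 ^ m * σ := by gcongr
    have h7 : 3 ^ m * σ ≤ K * (3 ^ m * σ) := by
      have : 0 ≤ 3 ^ m * σ := by positivity
      nlinarith
    linarith
  have h8 := even_prod M hM C1 h1 σ hσ α 2 rfl u hu
  have e : (((2 : ℕ) : ℝ) / 4 + u) = 1 / 2 + u := by norm_num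
  rw [e] at h8
  refine h8.trans ?_
  have h9 : ∏ a ∈ range α, (if (1 + 2 * Real.pi * M) * (3 ^ a * σ) ≤ 1 / 2 then (1 / 2 : ℝ) else 1) ≤
      (1 / 2) ^ m := by
    obtain ⟨t, rfl⟩ := Nat.exists_eq_add_of_le hmα
    rw [Finset.prod_range_add]
    have e1 : ∏ a ∈ range m, (if (1 + 2 * Real.pi * M) * (3 ^ a * σ) ≤ 1 / 2 then (1 / 2 : ℝ) else 1) =
        (1 / 2) ^ m := by
      have : ∀ a ∈ range m, (if (1 + 2 * Real.pi * M) * (3 ^ a * σ) ≤ 1 / 2 then (1 / 2 : ℝ) else 1) = 1 / 2 := by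
        intro a ha
        rw [Finset.mem_range] at ha
        have h5 : (3 : ℝ) ^ a ≤ 3 ^ m := pow_le_pow_right₀ (by norm_num) ha.le
        have h6 : K * (3 ^ a * σ) ≤ K * (3 ^ m * σ) := by gcongr
        rw [if_pos]
        rw [← hK]
        linarith
      rw [Finset.prod_congr rfl this, Finset.prod_const, Finset.card_range]
    rw [e1]
    have h2 : ∏ a ∈ range t, (if (1 + 2 * Real.pi * M) * (3 ^ (m + a) * σ) ≤ 1 / 2 then (1 / 2 : ℝ) else 1) ≤ 1 := by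
      apply Finset.prod_le_one
      · intro a _
        split_ifs <;> norm_num
      · intro a _
        split_ifs <;> norm_num
    have h10 : (0 : ℝ) < (1 / 2) ^ m := by positivity
    nlinarith
  rw [lt_div_iff₀ hD] at hm
  calc _ ≤ (1 / 2) ^ m * Real.exp (2 * (1 + 2 * Real.pi * M) * C1) := by gcongr
    _ ≤ ε := by rw [← hK]; exact hm.le

end Pool.Agent.R21.EQ
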