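import Pool.Agent.R21.EQ.Stms

set_option autoImplicit false

open Finset

namespace Pool.Agent.R21.EQ.RowP

open Pool.Agent.R21.EQ

lemma ex_re (t : ℝ) : (ex t).re = Real.cos (2 * Real.pi * t) := by
  unfold ex; rw [Complex.exp_ofReal_mul_I_re]

lemma ex_im (t : ℝ) : (ex t).im = Real.sin (2 * Real.pi * t) := by
  unfold ex; rw [Complex.exp_ofReal_mul_I_im]

lemma norm_cf_sq (y t : ℝ) (hy : 0 < y) :
    ‖cf y t‖ ^ 2 = ((1 - y) ^ 2 + 4 * y * Real.cos (Real.pi * t) ^ 2) / (1 + y) ^ 2 := by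
  unfold cf
  rw [norm_div, div_pow]
  have h1 : ‖(1:ℂ) + (y:ℂ)‖ = 1 + y := by
    rw [show (1:ℂ) + (y:ℂ) = ((1 + y : ℝ) : ℂ) by push_cast; ring, Complex.norm_real,
      Real.norm_of_nonneg (by linarith)]
  have h2 : ‖1 + (y:ℂ) * ex t‖ ^ 2 = (1 - y) ^ 2 + 4 * y * Real.cos (Real.pi * t) ^ 2 := by
    rw [← Complex.normSq_eq_norm_sq, Complex.normSq_apply]
    have e1 : (1 + (y:ℂ) * ex t).re = 1 + y * Real.cos (2 * Real.pi * t) := by
      simp [ex_re, ex_im]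
    have e2 : (1 + (y:ℂ) * ex t).im = y * Real.sin (2 * Real.pi * t) := by
      simp [ex_re, ex_im]
    rw [e1, e2]
    have h3 := Real.sin_sq_add_cos_sq (2 * Real.pi * t)
    have h4 : Real.cos (2 * Real.pi * t) = 2 * Real.cos (Real.pi * t) ^ 2 - 1 := by
      rw [mul_assoc, Real.cos_two_mul]
    have h5 : (1 + y * Real.cos (2 * Real.pi * t)) * (1 + y * Real.cos (2 * Real.pi * t)) +
        y * Real.sin (2 * Real.pi * t) * (y * Real.sin (2 * Real.pi * t)) =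
        1 + 2 * y * Real.cos (2 * Real.pi * t) + y ^ 2 := by
      linear_combination y ^ 2 * h3
    rw [h5, h4]
    ring
  rw [h1, h2]

lemma norm_cf_le_one (y t : ℝ) (hy : 0 < y) : ‖cf y t‖ ≤ 1 := by
  have h := norm_cf_sq y t hy
  have h2 : ‖cf y t‖ ^ 2 ≤ 1 := by
    rw [h, div_le_one (by positivity)]
    nlinarith [Real.cos_sq_le_one (Real.pi * t)]
  nlinarith [norm_nonneg (cf y t)]

lemma norm_cf_sq_le (y t ε : ℝ) (hy : 0 < y) (hy1 : y ≤ 1) (hε : 1 - ε ≤ y) (hε0 : 0 ≤ ε) :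
    ‖cf y t‖ ^ 2 ≤ Real.cos (Real.pi * t) ^ 2 + ε ^ 2 := by
  rw [norm_cf_sq y t hy, div_le_iff₀ (by positivity)]
  have h1 : (1 - y) ^ 2 ≤ ε ^ 2 := by nlinarith
  have h2 : 0 ≤ Real.cos (Real.pi * t) ^ 2 := sq_nonneg _
  have h3 : 4 * y * Real.cos (Real.pi * t) ^ 2 ≤ (1 + y) ^ 2 * Real.cos (Real.pi * t) ^ 2 := by
    apply mul_le_mul_of_nonneg_right _ h2
    nlinarith [sq_nonneg (1 - y)]
  have h4 : ε ^ 2 ≤ ε ^ 2 * (1 + y) ^ 2 := by
    nlinarith [sq_nonneg ε, mul_nonneg (sq_nonneg ε) (by nlinarith : 0 ≤ (1 + y) ^ 2 - 1)]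
  nlinarith

lemma cos_sq_half (t : ℝ) (h1 : 1 / 4 ≤ |t|) (h2 : |t| ≤ 3 / 4) :
    Real.cos (Real.pi * t) ^ 2 ≤ 1 / 2 := by
  have h3 : Real.cos (2 * Real.pi * |t|) ≤ 0 := by
    apply Real.cos_nonpos_of_pi_div_two_le_of_le
    · nlinarith [Real.pi_pos]
    · nlinarith [Real.pi_pos]
  have h4 : Real.cos (2 * Real.pi * |t|) = Real.cos (2 * Real.pi * t) := by
    rw [← Real.cos_abs (2 * Real.pi * t), abs_mul, abs_of_pos (by positivity : 0 < 2 * Real.pi)]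
  rw [h4, mul_assoc, Real.cos_two_mul] at h3
  linarith

/-- reduction of the angle -/
lemma cos_sq_shift (k : ℕ) (θ : ℝ) (r : ℤ) :
    Real.cos (Real.pi * (3 ^ k * θ)) ^ 2 = Real.cos (Real.pi * (3 ^ k * (θ - r))) ^ 2 := by
  have h1 : Real.cos (2 * (Real.pi * (3 ^ k * θ))) =
      Real.cos (2 * (Real.pi * (3 ^ k * (θ - r)))) := by
    have : 2 * (Real.pi * (3 ^ k * (θ - r))) = 2 * (Real.pi * (3 ^ k * θ)) -
        ((3 ^ k * r : ℤ) : ℝ) * (2 * Real.pi) := by push_cast; ring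
    rw [this, Real.cos_sub_int_mul_two_pi]
  rw [Real.cos_two_mul, Real.cos_two_mul] at h1
  linarith

theorem row : S_Row := by
  refine ⟨1000, by norm_num, ?_⟩
  intro M hM α σ θ hσ hα hθ
  unfold nn at hθ
  set r : ℤ := round θ with hr
  set d : ℝ := |θ - r| with hd
  have hd0 : 0 < d := lt_of_le_of_lt (by positivity) hθ
  have hd2 : d ≤ 1 / 2 := by rw [hd, hr]; exact abs_sub_round θ
  -- the first index
  have hex : ∃ a : ℕ, 1 / 4 ≤ 3 ^ a * d := by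
    obtain ⟨a, ha⟩ := pow_unbounded_of_one_lt (1 / (4 * d)) (by norm_num : (1:ℝ) < 3)
    refine ⟨a, ?_⟩
    have h1 : 1 / (4 * d) * d ≤ 3 ^ a * d := mul_le_mul_of_nonneg_right ha.le hd0.le
    have h2 : 1 / (4 * d) * d = 1 / 4 := by field_simp
    linarith
  classical
  obtain ⟨a0, ha0, hmin⟩ : ∃ a0 : ℕ, 1 / 4 ≤ 3 ^ a0 * d ∧ 3 ^ a0 * d ≤ 3 / 4 := by
    refine ⟨Nat.find hex, Nat.find_spec hex, ?_⟩
    rcases Nat.eq_zero_or_pos (Nat.find hex) with h0 | hpos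
    · rw [h0]; norm_num; linarith
    · have h1 := Nat.find_min hex (m := Nat.find hex - 1) (by omega)
      push Not at h1
      have h2 : (3:ℝ) ^ (Nat.find hex) = 3 * 3 ^ (Nat.find hex - 1) := by
        rw [← pow_succ']; congr 1; omega
      rw [h2]
      nlinarith
  have hpow : (0:ℝ) < 3 ^ a0 := by positivity
  have hMσ : M * (3 ^ a0 * σ) < 3 / 4 := by nlinarith
  have hsmall : 3 ^ (a0 + 1) * σ ≤ 9 / 4000 := by
    have : 1000 * (3 ^ a0 * σ) ≤ M * (3 ^ a0 * σ) :=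
      mul_le_mul_of_nonneg_right hM (by positivity)
    rw [pow_succ]
    nlinarith
  have hsmall0 : 3 ^ a0 * σ ≤ 9 / 4000 := by
    rw [pow_succ] at hsmall
    nlinarith [mul_pos hpow hσ]
  have hlt : a0 + 1 < α := by
    by_contra hc
    push Not at hc
    have h1 : (3:ℝ) ^ α ≤ 3 ^ (a0 + 1) := pow_le_pow_right₀ (by norm_num) hc
    nlinarith
  -- the two factors
  set t : ℝ := 3 ^ a0 * (θ - r) with ht
  have htabs : |t| = 3 ^ a0 * d := by rw [ht, abs_mul, abs_of_pos hpow]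
  set X : ℝ := Real.cos (Real.pi * t) ^ 2 with hX
  have hX0 : 0 ≤ X := sq_nonneg _
  have hX1 : X ≤ 1 / 2 := by
    apply cos_sq_half
    · rw [htabs]; exact ha0
    · rw [htabs]; exact hmin
  have hf0 : ‖cf (Real.exp (-(3 ^ a0 * σ))) (3 ^ a0 * θ)‖ ^ 2 ≤ X + (9 / 4000) ^ 2 := by
    rw [hX, ht, ← cos_sq_shift]
    apply norm_cf_sq_le _ _ _ (Real.exp_pos _)
    · rw [Real.exp_le_one_iff]; nlinarith [mul_pos hpow hσ]
    · have := Real.add_one_le_exp (-(3 ^ a0 * σ)); linarith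
    · norm_num
  have hf1 : ‖cf (Real.exp (-(3 ^ (a0 + 1) * σ))) (3 ^ (a0 + 1) * θ)‖ ^ 2 ≤
      X * (4 * X - 3) ^ 2 + (9 / 4000) ^ 2 := by
    have h3 : Real.cos (Real.pi * (3 ^ (a0 + 1) * θ)) ^ 2 = X * (4 * X - 3) ^ 2 := by
      rw [cos_sq_shift _ _ r, hX]
      have : Real.pi * (3 ^ (a0 + 1) * (θ - r)) = 3 * (Real.pi * t) := by
        rw [ht]; ring
      rw [this, Real.cos_three_mul]
      ring
    rw [← h3]
    apply norm_cf_sq_le _ _ _ (Real.exp_pos _)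
    · rw [Real.exp_le_one_iff]
      have : 0 < 3 ^ (a0 + 1) * σ := by positivity
      linarith
    · have := Real.add_one_le_exp (-(3 ^ (a0 + 1) * σ)); linarith
    · norm_num
  -- the product
  have hle1 : ∀ a : ℕ, ‖cf (Real.exp (-(3 ^ a * σ))) (3 ^ a * θ)‖ ≤ 1 := fun a =>
    norm_cf_le_one _ _ (Real.exp_pos _)
  have hprod : Rw α σ θ ≤ ‖cf (Real.exp (-(3 ^ a0 * σ))) (3 ^ a0 * θ)‖ *
      ‖cf (Real.exp (-(3 ^ (a0 + 1) * σ))) (3 ^ (a0 + 1) * θ)‖ := by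
    unfold Rw cR
    rw [norm_prod]
    have hsub : ({a0, a0 + 1} : Finset ℕ) ⊆ range α := by
      intro a ha
      simp only [Finset.mem_insert, Finset.mem_singleton] at ha
      rw [Finset.mem_range]
      omega
    rw [← Finset.prod_sdiff hsub, Finset.prod_pair (by omega)]
    apply mul_le_of_le_one_left (by positivity)
    apply Finset.prod_le_one
    · intro a _; exact norm_nonneg _
    · intro a _; exact hle1 a
  refine le_trans hprod ?_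
  have hsq : (‖cf (Real.exp (-(3 ^ a0 * σ))) (3 ^ a0 * θ)‖ *
      ‖cf (Real.exp (-(3 ^ (a0 + 1) * σ))) (3 ^ (a0 + 1) * θ)‖) ^ 2 ≤ (57 / 100) ^ 2 := by
    rw [mul_pow]
    have h1 := mul_le_mul hf0 hf1 (by positivity) (by positivity)
    refine le_trans h1 ?_
    have h2 : X * (3 - 4 * X) ≤ 9 / 16 := by nlinarith [sq_nonneg (8 * X - 3)]
    have h2' : 0 ≤ X * (3 - 4 * X) := by nlinarith
    have h3 : (X * (3 - 4 * X)) ^ 2 ≤ (9 / 16) ^ 2 := pow_le_pow_left₀ h2' h2 2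
    have h4 : X * (4 * X - 3) ^ 2 ≤ 9 / 2 := by
      have : (4 * X - 3) ^ 2 ≤ 9 := by nlinarith
      nlinarith
    have h5 : (X + (9 / 4000) ^ 2) * (X * (4 * X - 3) ^ 2 + (9 / 4000) ^ 2) =
        (X * (3 - 4 * X)) ^ 2 + (9 / 4000) ^ 2 * (X + X * (4 * X - 3) ^ 2) + (9 / 4000) ^ 4 := by
      ring
    rw [h5]
    nlinarith
  exact le_of_sq_le_sq hsq (by norm_num)

end Pool.Agent.R21.EQ.RowP
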