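import Pool.Agent.R21.EQ.Stms

/-!
# Project EQ, piece SAD: the saddle point exists
-/

open Finset

namespace Pool.Agent.R21.EQ.Sad

lemma pp_nonneg (σ s : ℝ) : 0 ≤ pp σ s := by
  unfold pp
  positivity

lemma pp_cont (s : ℝ) : Continuous fun σ => pp σ s := by
  unfold pp
  apply Continuous.div (by fun_prop) (by fun_prop)
  intro σ
  positivity

lemma mean_cont (α β : ℕ) : Continuous (mean α β) := by
  unfold mean
  apply continuous_finset_sum
  intro b _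
  apply continuous_finset_sum
  intro a _
  exact continuous_const.mul (pp_cont _)

lemma geo3 (α : ℕ) : ∑ a ∈ range α, (1 / 3 : ℝ) ^ a ≤ 3 / 2 := by
  have h : ∑ a ∈ range α, (1 / 3 : ℝ) ^ a = 3 / 2 * (1 - (1 / 3) ^ α) := by
    induction α with
    | zero => simp
    | succ k ih => rw [sum_range_succ, ih]; ring
  rw [h]
  have : (0 : ℝ) ≤ (1 / 3) ^ α := by positivity
  linarith

lemma geo4 (β : ℕ) : ∑ b ∈ range β, (1 / 4 : ℝ) ^ b ≤ 4 / 3 := by
  have h : ∑ b ∈ range β, (1 / 4 : ℝ) ^ b = 4 / 3 * (1 - (1 / 4) ^ β) := by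
    induction β with
    | zero => simp
    | succ k ih => rw [sum_range_succ, ih]; ring
  rw [h]
  have : (0 : ℝ) ≤ (1 / 4) ^ β := by positivity
  linarith

lemma term_le {σ s : ℝ} (hσ : 0 < σ) (hs : 0 < s) : s * pp σ s ≤ 2 / σ ^ 2 * (1 / s) := by
  have h1 : pp σ s ≤ Real.exp (-(s * σ)) := by
    unfold pp
    exact div_le_self (Real.exp_nonneg _) (by linarith [Real.exp_nonneg (-(s * σ))])
  have h2 : (s * σ) ^ 2 / 2 ≤ Real.exp (s * σ) := by
    have := Real.quadratic_le_exp_of_nonneg (by positivity : 0 ≤ s * σ)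
    have h3 : 0 < s * σ := by positivity
    linarith
  have h3 : Real.exp (-(s * σ)) ≤ 2 / (s * σ) ^ 2 := by
    rw [Real.exp_neg, inv_le_comm₀ (Real.exp_pos _) (by positivity), inv_div]
    exact h2
  calc s * pp σ s ≤ s * (2 / (s * σ) ^ 2) := by
        apply mul_le_mul_of_nonneg_left (h1.trans h3) hs.le
    _ = 2 / σ ^ 2 * (1 / s) := by field_simp

lemma mean_le {σ : ℝ} (hσ : 0 < σ) (α β : ℕ) : mean α β σ ≤ 4 / σ ^ 2 := by
  unfold mean
  calc ∑ b ∈ range β, ∑ a ∈ range α, ((3 : ℝ) ^ a * 4 ^ b) * pp σ (3 ^ a * 4 ^ b) ≤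
      ∑ b ∈ range β, ∑ a ∈ range α, 2 / σ ^ 2 * ((1 / 3) ^ a * (1 / 4) ^ b) := by
        apply sum_le_sum
        intro b _
        apply sum_le_sum
        intro a _
        refine (term_le hσ (by positivity)).trans (le_of_eq ?_)
        rw [one_div_pow, one_div_pow]
        field_simp
    _ = 2 / σ ^ 2 * ((∑ a ∈ range α, (1 / 3 : ℝ) ^ a) * ∑ b ∈ range β, (1 / 4 : ℝ) ^ b) := by
        rw [Finset.sum_mul_sum, mul_sum, sum_comm]
        apply sum_congr rfl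
        intro a _
        rw [mul_sum]
    _ ≤ 2 / σ ^ 2 * (3 / 2 * (4 / 3)) := by
        apply mul_le_mul_of_nonneg_left _ (by positivity)
        apply mul_le_mul (geo3 α) (geo4 β) (by positivity) (by norm_num)
    _ = 4 / σ ^ 2 := by ring

lemma le_mean (n : ℕ) : (n : ℝ) ≤ mean (n + 2) (n + 2) (1 / 3 ^ (n + 2)) := by
  have h1 : ((3 : ℝ) ^ (n + 1) * 4 ^ 0) * pp (1 / 3 ^ (n + 2)) (3 ^ (n + 1) * 4 ^ 0) ≤
      mean (n + 2) (n + 2) (1 / 3 ^ (n + 2)) := by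
    unfold mean
    refine le_trans ?_ (single_le_sum (s := range (n + 2))
      (f := fun b => ∑ a ∈ range (n + 2), ((3 : ℝ) ^ a * 4 ^ b) *
        pp (1 / 3 ^ (n + 2)) (3 ^ a * 4 ^ b)) ?_ (mem_range.2 (by omega : 0 < n + 2)))
    · exact single_le_sum (s := range (n + 2))
        (f := fun a => ((3 : ℝ) ^ a * 4 ^ 0) * pp (1 / 3 ^ (n + 2)) (3 ^ a * 4 ^ 0))
        (fun a _ => mul_nonneg (by positivity) (pp_nonneg _ _)) (mem_range.2 (by omega : n + 1 < n + 2))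
    · intro b _
      exact sum_nonneg fun a _ => mul_nonneg (by positivity) (pp_nonneg _ _)
  refine le_trans ?_ h1
  have h2 : (1 / 3 : ℝ) ≤ pp (1 / 3 ^ (n + 2)) (3 ^ (n + 1) * 4 ^ 0) := by
    unfold pp
    have e : ((3 : ℝ) ^ (n + 1) * 4 ^ 0 * (1 / 3 ^ (n + 2))) = 1 / 3 := by
      rw [pow_succ _ (n + 1)]
      field_simp
    rw [e]
    have h3 := Real.one_sub_le_exp_neg (1 / 3 : ℝ)
    have h4 : Real.exp (-(1 / 3 : ℝ)) ≤ 1 := Real.exp_le_one_iff.2 (by norm_num)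
    rw [div_le_div_iff₀ (by norm_num) (by positivity)]
    linarith
  have h5 : (n : ℝ) ≤ 3 ^ n := by
    have : n < 3 ^ n := Nat.lt_pow_self (by norm_num)
    exact_mod_cast this.le
  calc (n : ℝ) ≤ 3 ^ n := h5
    _ = (3 : ℝ) ^ (n + 1) * 4 ^ 0 * (1 / 3) := by ring
    _ ≤ _ := mul_le_mul_of_nonneg_left h2 (by positivity)

end Pool.Agent.R21.EQ.Sad

namespace Pool.Agent.R21.EQ

open Sad

theorem sad : S_Sad := by
  intro σ₀ hσ₀
  obtain ⟨n₀, hn₀⟩ := exists_nat_ge (max (4 / σ₀ ^ 2) (1 / σ₀))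
  refine ⟨n₀, fun n hn => ?_⟩
  have hn' : (n₀ : ℝ) ≤ n := by exact_mod_cast hn
  have h1 : 4 / σ₀ ^ 2 ≤ n := (le_max_left _ _).trans (hn₀.trans hn')
  have h2 : 1 / σ₀ ≤ n := (le_max_right _ _).trans (hn₀.trans hn')
  have h3 : (n : ℝ) ≤ 3 ^ (n + 2) := by
    have h := Nat.lt_pow_self (n := n + 2) (by norm_num : 1 < 3)
    have h' : n ≤ 3 ^ (n + 2) := by omega
    exact_mod_cast h'
  have h4 : 1 / 3 ^ (n + 2) ≤ σ₀ := by
    rw [div_le_iff₀ (by positivity)]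
    rw [div_le_iff₀ hσ₀] at h2
    nlinarith
  have h5 := intermediate_value_Icc' h4 (mean_cont (n + 2) (n + 2)).continuousOn
  obtain ⟨σ, hσ, hσ'⟩ := h5 ⟨(mean_le hσ₀ _ _).trans h1, le_mean n⟩
  have h6 : (0 : ℝ) < 1 / 3 ^ (n + 2) := by positivity
  refine ⟨σ, h6.trans_le hσ.1, hσ.2, ?_, hσ'⟩
  have := hσ.1
  rw [div_le_iff₀ (by positivity)] at this
  linarith

end Pool.Agent.R21.EQ
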