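import Pool.Agent.R21.EQ.Stms

set_option autoImplicit false

open Finset

namespace Pool.Agent.R21.EQ.SecP

open Pool.Agent.R21.EQ

lemma ex_re (t : ℝ) : (ex t).re = Real.cos (2 * Real.pi * t) := by
  unfold ex; rw [Complex.exp_ofReal_mul_I_re]

lemma ex_im (t : ℝ) : (ex t).im = Real.sin (2 * Real.pi * t) := by
  unfold ex; rw [Complex.exp_ofReal_mul_I_im]

lemma ex_sub_nat (t : ℝ) (k : ℕ) : ex (t - k) = ex t := by
  apply Complex.ext
  · rw [ex_re, ex_re, show 2 * Real.pi * (t - k) = 2 * Real.pi * t - k * (2 * Real.pi) by ring,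
      Real.cos_sub_nat_mul_two_pi]
  · rw [ex_im, ex_im, show 2 * Real.pi * (t - k) = 2 * Real.pi * t - k * (2 * Real.pi) by ring,
      Real.sin_sub_nat_mul_two_pi]

lemma ex_three (t : ℝ) : ex (3 * t) = ex t ^ 3 := by
  unfold ex
  rw [← Complex.exp_nat_mul]
  congr 1
  push_cast
  ring

lemma ex_quarter : ex (1 / 4) = Complex.I := by
  apply Complex.ext
  · rw [ex_re, show 2 * Real.pi * (1 / 4) = Real.pi / 2 by ring]; simp
  · rw [ex_im, show 2 * Real.pi * (1 / 4) = Real.pi / 2 by ring]; simp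

lemma ex_pow_quarter (a : ℕ) : ex (3 ^ a * (1 / 4)) = (((-1 : ℝ) ^ a : ℝ) : ℂ) * Complex.I := by
  induction a with
  | zero => simp only [pow_zero, one_mul, Complex.ofReal_one]; exact ex_quarter
  | succ a ih =>
    rw [pow_succ', mul_assoc, ex_three, ih, mul_pow, Complex.I_pow_three]
    have h : (((-1 : ℝ) ^ a : ℝ) : ℂ) ^ 3 = (((-1 : ℝ) ^ a : ℝ) : ℂ) := by
      rcases neg_one_pow_eq_or ℝ a with h | h <;> rw [h] <;> norm_num
    rw [h, pow_succ]
    push_cast
    ring

lemma cf_quarter (y : ℝ) (hy : 0 < y) (a : ℕ) :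
    cf y (3 ^ a * (1 / 4)) = ((√(1 + y ^ 2) / (1 + y) : ℝ) : ℂ) *
      Complex.exp ((((-1 : ℝ) ^ a * Real.arctan y : ℝ) : ℂ) * Complex.I) := by
  unfold cf
  rw [ex_pow_quarter]
  have h1 : (1 + (y : ℂ)) ≠ 0 := by
    have : (1 + y : ℝ) ≠ 0 := by positivity
    exact_mod_cast this
  have hs : 0 < √(1 + y ^ 2) := Real.sqrt_pos.mpr (by positivity)
  have key : (1 : ℂ) + (y : ℂ) * ((((-1 : ℝ) ^ a : ℝ) : ℂ) * Complex.I) =
      ((√(1 + y ^ 2) : ℝ) : ℂ) *
      Complex.exp ((((-1 : ℝ) ^ a * Real.arctan y : ℝ) : ℂ) * Complex.I) := by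
    have hc : √(1 + y ^ 2) * Real.cos (Real.arctan y) = 1 := by
      rw [Real.cos_arctan]; field_simp
    have hsn : √(1 + y ^ 2) * Real.sin (Real.arctan y) = y := by
      rw [Real.sin_arctan]; field_simp
    apply Complex.ext
    · rw [Complex.re_ofReal_mul, Complex.exp_ofReal_mul_I_re]
      rcases neg_one_pow_eq_or ℝ a with h | h
      · rw [h, one_mul, hc]; simp
      · rw [h, neg_one_mul, Real.cos_neg, hc]; simp
    · rw [Complex.im_ofReal_mul, Complex.exp_ofReal_mul_I_im]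
      rcases neg_one_pow_eq_or ℝ a with h | h
      · rw [h, one_mul, hsn]; simp
      · rw [h, neg_one_mul, Real.sin_neg, mul_neg, hsn]; simp
  rw [key]
  push_cast
  field_simp

/-- the phase -/
noncomputable def Sv (α : ℕ) (σ : ℝ) : ℝ :=
  ∑ a ∈ range α, (-1 : ℝ) ^ a * Real.arctan (Real.exp (-(3 ^ a * σ)))

lemma La_pos (α : ℕ) (σ : ℝ) : 0 < La α σ := by
  unfold La
  apply Finset.prod_pos
  intro a _
  positivity

lemma cR_quarter (α : ℕ) (σ : ℝ) : cR α σ (1 / 4) =
    ((1 / La α σ : ℝ) : ℂ) * Complex.exp ((Sv α σ : ℝ) * Complex.I) := by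
  induction α with
  | zero => simp [cR, La, Sv]
  | succ α ih =>
    have e1 : cR (α + 1) σ (1 / 4) = cR α σ (1 / 4) *
        cf (Real.exp (-(3 ^ α * σ))) (3 ^ α * (1 / 4)) := by
      unfold cR; rw [Finset.prod_range_succ]
    have e2 : La (α + 1) σ = La α σ *
        ((1 + Real.exp (-(3 ^ α * σ))) / √(1 + Real.exp (-(3 ^ α * σ)) ^ 2)) := by
      unfold La; rw [Finset.prod_range_succ]
    have e3 : Sv (α + 1) σ = Sv α σ + (-1 : ℝ) ^ α * Real.arctan (Real.exp (-(3 ^ α * σ))) := by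
      unfold Sv; rw [Finset.sum_range_succ]
    rw [e1, e2, e3, ih, cf_quarter _ (Real.exp_pos _)]
    have e4 : (1 / (La α σ * ((1 + Real.exp (-(3 ^ α * σ))) / √(1 + Real.exp (-(3 ^ α * σ)) ^ 2))) : ℝ)
        = (1 / La α σ) * (√(1 + Real.exp (-(3 ^ α * σ)) ^ 2) / (1 + Real.exp (-(3 ^ α * σ)))) := by
      have := La_pos α σ
      field_simp
    rw [e4]
    rw [Complex.ofReal_mul (1 / La α σ), Complex.ofReal_add (Sv α σ), add_mul, Complex.exp_add]
    ring

/-! alternating sums -/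

lemma alt_bd (N : ℕ) : ∀ t : ℕ → ℝ, Antitone t → (∀ a, 0 ≤ t a) →
    0 ≤ ∑ a ∈ range N, (-1 : ℝ) ^ a * t a ∧ ∑ a ∈ range N, (-1 : ℝ) ^ a * t a ≤ t 0 := by
  induction N with
  | zero => intro t _ h0; simpa using h0 0
  | succ N ih =>
    intro t ht h0
    have h1 := ih (fun a => t (a + 1)) (fun a b hab => ht (by omega)) (fun a => h0 _)
    rw [Finset.sum_range_succ']
    have e : ∑ k ∈ range N, (-1 : ℝ) ^ (k + 1) * t (k + 1) =
        -∑ a ∈ range N, (-1 : ℝ) ^ a * t (a + 1) := by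
      rw [← Finset.sum_neg_distrib]
      apply Finset.sum_congr rfl
      intro k _
      rw [pow_succ]; ring
    rw [e]
    have h2 : t 1 ≤ t 0 := ht (by omega)
    have h3 := h1.1
    have h4 := h1.2
    simp only [zero_add] at h4
    constructor
    · simp only [pow_zero, one_mul]; linarith
    · simp only [pow_zero, one_mul]; linarith

lemma alt_two (N : ℕ) (t : ℕ → ℝ) : ∑ a ∈ range (N + 2), (-1 : ℝ) ^ a * t a =
    t 0 - t 1 + ∑ a ∈ range N, (-1 : ℝ) ^ a * t (a + 2) := by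
  rw [Finset.sum_range_succ', Finset.sum_range_succ']
  have e : ∑ k ∈ range N, (-1 : ℝ) ^ (k + 1 + 1) * t (k + 1 + 1) =
      ∑ a ∈ range N, (-1 : ℝ) ^ a * t (a + 2) := by
    apply Finset.sum_congr rfl
    intro k _
    rw [pow_succ, pow_succ]; ring
  rw [e]
  simp
  ring

lemma alt_gap (j : ℕ) : ∀ (N : ℕ) (t : ℕ → ℝ), Antitone t → (∀ a, 0 ≤ t a) → 2 * j + 1 < N →
    ∑ a ∈ range N, (-1 : ℝ) ^ a * t a ≤ t 0 - (t (2 * j + 1) - t (2 * j + 2)) := by
  induction j with
  | zero =>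
    intro N t ht h0 hN
    obtain ⟨N', rfl⟩ : ∃ N', N = N' + 2 := ⟨N - 2, by omega⟩
    rw [alt_two]
    have := (alt_bd N' (fun a => t (a + 2)) (fun a b hab => ht (by omega)) (fun a => h0 _)).2
    simp only [zero_add] at this
    simp only [mul_zero, zero_add]
    linarith
  | succ j ih =>
    intro N t ht h0 hN
    obtain ⟨N', rfl⟩ : ∃ N', N = N' + 2 := ⟨N - 2, by omega⟩
    rw [alt_two]
    have := ih N' (fun a => t (a + 2)) (fun a b hab => ht (by omega)) (fun a => h0 _) (by omega)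
    simp only [zero_add] at this
    have h12 : t 2 ≤ t 1 := ht (by omega)
    have e1 : 2 * (j + 1) + 1 = 2 * j + 1 + 2 := by ring
    have e2 : 2 * (j + 1) + 2 = 2 * j + 2 + 2 := by ring
    rw [e1, e2]
    linarith

lemma arctan_gap (x y : ℝ) (hx : 0 ≤ x) (hxy : x ≤ y) (hy : y ≤ 1) :
    (1 / 2) * (y - x) ≤ Real.arctan y - Real.arctan x := by
  have h := (convex_Icc (0:ℝ) 1).mul_sub_le_image_sub_of_le_deriv (f := Real.arctan) (C := 1 / 2)
    Real.continuous_arctan.continuousOn (Real.differentiable_arctan.differentiableOn) (by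
      intro z hz
      rw [interior_Icc] at hz
      rw [Real.deriv_arctan]
      apply one_div_le_one_div_of_le (by positivity)
      have := hz.1
      have := hz.2
      nlinarith)
  exact h x ⟨hx, by linarith⟩ y ⟨by linarith, hy⟩ hxy

lemma Sv_bd (α : ℕ) (σ : ℝ) (hσ : 0 < σ) (hσ9 : σ ≤ 1 / 9) (hα : 1 ≤ 3 ^ α * σ) :
    0 ≤ Sv α σ ∧ Sv α σ ≤ Real.pi / 4 - 1 / 81 := by
  set t : ℕ → ℝ := fun a => Real.arctan (Real.exp (-(3 ^ a * σ))) with ht
  have hanti : Antitone t := by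
    intro a b hab
    apply Real.arctan_strictMono.monotone
    apply Real.exp_le_exp.mpr
    have : (3:ℝ) ^ a ≤ 3 ^ b := pow_le_pow_right₀ (by norm_num) hab
    nlinarith
  have hnn : ∀ a, 0 ≤ t a := by
    intro a
    exact Real.arctan_nonneg.mpr (Real.exp_pos _).le
  have h0 : t 0 ≤ Real.pi / 4 := by
    rw [← Real.arctan_one]
    apply Real.arctan_strictMono.monotone
    rw [Real.exp_le_one_iff]
    simp only [pow_zero, one_mul]
    linarith
  refine ⟨(alt_bd α t hanti hnn).1, ?_⟩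
  obtain ⟨j, hj1, hj2⟩ := exists_nat_pow_near (x := 1 / (9 * σ)) (y := 9)
    (by rw [le_div_iff₀ (by positivity)]; linarith) (by norm_num)
  have hj1' : 9 ^ j * σ ≤ 1 / 9 := by
    rw [le_div_iff₀ (by positivity)] at hj1
    linarith
  have hj2' : 1 / 81 < 9 ^ j * σ := by
    rw [div_lt_iff₀ (by positivity), pow_succ] at hj2
    linarith
  have hm : (3:ℝ) ^ (2 * j + 1) * σ = 3 * (9 ^ j * σ) := by
    rw [pow_succ, pow_mul]; norm_num; ring
  have hm' : (3:ℝ) ^ (2 * j + 2) * σ = 9 * (9 ^ j * σ) := by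
    rw [pow_add, pow_mul]; norm_num; ring
  have hlt : 2 * j + 1 < α := by
    by_contra hc
    push Not at hc
    have h1 : (3:ℝ) ^ α ≤ 3 ^ (2 * j + 1) := pow_le_pow_right₀ (by norm_num) hc
    nlinarith
  have hg := alt_gap j α t hanti hnn hlt
  have hd : 1 / 81 ≤ t (2 * j + 1) - t (2 * j + 2) := by
    set v := 9 ^ j * σ with hv
    have e1 : t (2 * j + 1) = Real.arctan (Real.exp (-(3 * v))) := by rw [ht]; simp only [hm]
    have e2 : t (2 * j + 2) = Real.arctan (Real.exp (-(9 * v))) := by rw [ht]; simp only [hm']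
    rw [e1, e2]
    have hx : Real.exp (-(9 * v)) ≤ Real.exp (-(3 * v)) := by
      apply Real.exp_le_exp.mpr; linarith
    have hy : Real.exp (-(3 * v)) ≤ 1 := by
      rw [Real.exp_le_one_iff]; linarith
    have h1 := arctan_gap (Real.exp (-(9 * v))) (Real.exp (-(3 * v))) (Real.exp_pos _).le hx hy
    have h2 : Real.exp (-(3 * v)) = Real.exp (-(9 * v)) * Real.exp (6 * v) := by
      rw [← Real.exp_add]; congr 1; ring
    have h3 := Real.add_one_le_exp (6 * v)
    have h4 : Real.exp (-1) ≤ Real.exp (-(9 * v)) := by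
      apply Real.exp_le_exp.mpr; linarith
    have h5 : (1:ℝ) / 3 ≤ Real.exp (-1) := by
      rw [Real.exp_neg, ← one_div]
      apply one_div_le_one_div_of_le (Real.exp_pos _)
      have := Real.exp_one_lt_d9
      linarith
    have h6 : 2 / 81 ≤ Real.exp (-(3 * v)) - Real.exp (-(9 * v)) := by
      rw [h2]
      have : Real.exp (-(9 * v)) * (6 * v) ≤ Real.exp (-(9 * v)) * Real.exp (6 * v) -
          Real.exp (-(9 * v)) := by
        nlinarith [Real.exp_pos (-(9 * v))]
      have h7 : 1 / 3 * (6 / 81) ≤ Real.exp (-(9 * v)) * (6 * v) := by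
        apply mul_le_mul (by linarith) (by linarith) (by norm_num) (Real.exp_pos _).le
      linarith
    linarith
  have : Sv α σ = ∑ a ∈ range α, (-1 : ℝ) ^ a * t a := rfl
  rw [this]
  linarith

lemma ex_neg_cases (n : ℕ) : ex (-(n / 4)) = 1 ∨ ex (-(n / 4)) = -Complex.I ∨
    ex (-(n / 4)) = -1 ∨ ex (-(n / 4)) = Complex.I := by
  have hn : (n : ℝ) = 4 * ((n / 4 : ℕ) : ℝ) + ((n % 4 : ℕ) : ℝ) := by
    have := Nat.div_add_mod n 4
    exact_mod_cast this.symm
  have e : ex (-(n / 4)) = ex (-(((n % 4 : ℕ) : ℝ) / 4)) := by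
    have : -((n:ℝ) / 4) = -(((n % 4 : ℕ) : ℝ) / 4) - ((n / 4 : ℕ) : ℝ) := by
      rw [hn]; push_cast; ring_nf
    rw [this, ex_sub_nat]
  rw [e]
  have hlt : n % 4 < 4 := Nat.mod_lt _ (by norm_num)
  set r := n % 4
  interval_cases r
  · left
    apply Complex.ext
    · rw [ex_re]; simp
    · rw [ex_im]; simp
  · right; left
    apply Complex.ext
    · rw [ex_re, show 2 * Real.pi * (-(((1:ℕ):ℝ) / 4)) = -(Real.pi / 2) by push_cast; ring]; simp
    · rw [ex_im, show 2 * Real.pi * (-(((1:ℕ):ℝ) / 4)) = -(Real.pi / 2) by push_cast; ring]; simp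
  · right; right; left
    apply Complex.ext
    · rw [ex_re, show 2 * Real.pi * (-(((2:ℕ):ℝ) / 4)) = -Real.pi by push_cast; ring]; simp
    · rw [ex_im, show 2 * Real.pi * (-(((2:ℕ):ℝ) / 4)) = -Real.pi by push_cast; ring]; simp
  · right; right; right
    apply Complex.ext
    · rw [ex_re, show 2 * Real.pi * (-(((3:ℕ):ℝ) / 4)) = Real.pi / 2 - ((1:ℕ):ℝ) * (2 * Real.pi) by
        push_cast; ring, Real.cos_sub_nat_mul_two_pi]; simp
    · rw [ex_im, show 2 * Real.pi * (-(((3:ℕ):ℝ) / 4)) = Real.pi / 2 - ((1:ℕ):ℝ) * (2 * Real.pi) by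
        push_cast; ring, Real.sin_sub_nat_mul_two_pi]; simp

theorem sec : S_Sec := by
  refine ⟨1 / 324, 1 / 1000, by norm_num, by norm_num, by norm_num, ?_⟩
  intro σ hσ hσ0 α hα n
  have hL := La_pos α σ
  obtain ⟨hS0, hS1⟩ := Sv_bd α σ hσ (by linarith) hα
  rw [cR_quarter]
  set S := Sv α σ with hS
  -- cos - sin
  have hcs : 1 / 162 ≤ Real.cos S - Real.sin S := by
    have h1 := Real.mul_le_sin (x := Real.pi / 4 - S) (by linarith) (by linarith [Real.pi_pos])
    have h2 : Real.sin (Real.pi / 4 - S) = √2 / 2 * (Real.cos S - Real.sin S) := by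
      rw [Real.sin_sub, Real.sin_pi_div_four, Real.cos_pi_div_four]; ring
    have h3 : 1 / 162 ≤ 2 / Real.pi * (Real.pi / 4 - S) := by
      have h4 : 2 / Real.pi * (1 / 81) ≤ 2 / Real.pi * (Real.pi / 4 - S) := by
        apply mul_le_mul_of_nonneg_left (by linarith) (by positivity)
      have h5 : 1 / 2 ≤ 2 / Real.pi := by
        rw [div_le_div_iff₀ (by norm_num) Real.pi_pos]
        linarith [Real.pi_lt_four]
      nlinarith
    have h6 : √2 ≤ 2 := by
      rw [Real.sqrt_le_left (by norm_num)]; norm_num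
    have h7 : 0 < √2 := by positivity
    have h8 : 1 / 162 ≤ √2 / 2 * (Real.cos S - Real.sin S) := by linarith
    have h9 : 0 < Real.cos S - Real.sin S := by
      by_contra hc
      push Not at hc
      nlinarith
    nlinarith
  have hsin : 0 ≤ Real.sin S := Real.sin_nonneg_of_nonneg_of_le_pi hS0 (by linarith [Real.pi_pos])
  have hcs' : 1 / 162 ≤ Real.cos S + Real.sin S := by linarith
  have hq : ex (-(1 / 4)) = -Complex.I := by
    apply Complex.ext
    · rw [ex_re, show 2 * Real.pi * (-(1 / 4)) = -(Real.pi / 2) by ring]; simp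
    · rw [ex_im, show 2 * Real.pi * (-(1 / 4)) = -(Real.pi / 2) by ring]; simp
  have hes : Real.exp σ - 1 ≤ 2 * σ := by
    have := Real.abs_exp_sub_one_le (x := σ) (by rw [abs_of_pos hσ]; linarith)
    rw [abs_of_pos hσ] at this
    exact le_trans (le_abs_self _) this
  have hes0 : 0 ≤ Real.exp σ - 1 := by
    have := Real.add_one_le_exp σ
    linarith
  have hc1 : |Real.cos S| ≤ 1 := Real.abs_cos_le_one _
  have hs1 : |Real.sin S| ≤ 1 := Real.abs_sin_le_one _
  rw [hq]
  have hmain : ∀ z : ℂ, z * (((1 / La α σ : ℝ) : ℂ) * Complex.exp ((S : ℝ) * Complex.I) *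
      ((Real.exp σ : ℂ) * (-Complex.I) - 1)) = ((1 / La α σ : ℝ) : ℂ) *
      (z * (Complex.exp ((S : ℝ) * Complex.I) * ((Real.exp σ : ℂ) * (-Complex.I) - 1))) := by
    intro z; ring
  rw [hmain, Complex.re_ofReal_mul, abs_mul, abs_of_pos (by positivity : 0 < 1 / La α σ)]
  rw [show (1:ℝ) / 324 / La α σ = 1 / La α σ * (1 / 324) by ring]
  apply mul_le_mul_of_nonneg_left _ (by positivity)
  set w := Complex.exp ((S : ℝ) * Complex.I) * ((Real.exp σ : ℂ) * (-Complex.I) - 1) with hw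
  have hwre : w.re = -(Real.cos S - Real.sin S) + Real.sin S * (Real.exp σ - 1) := by
    rw [hw, Complex.mul_re, Complex.exp_ofReal_mul_I_re, Complex.exp_ofReal_mul_I_im]
    simp [-Complex.ofReal_exp]
    ring
  have hwim : w.im = -(Real.cos S + Real.sin S) - Real.cos S * (Real.exp σ - 1) := by
    rw [hw, Complex.mul_im, Complex.exp_ofReal_mul_I_re, Complex.exp_ofReal_mul_I_im]
    simp [-Complex.ofReal_exp]
    ring
  have b1 : Real.sin S * (Real.exp σ - 1) ≤ 1 / 500 := by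
    have : Real.sin S * (Real.exp σ - 1) ≤ 1 * (Real.exp σ - 1) :=
      mul_le_mul_of_nonneg_right (le_trans (le_abs_self _) hs1) hes0
    linarith
  have b2 : -(1 / 500) ≤ Real.cos S * (Real.exp σ - 1) := by
    have : -1 * (Real.exp σ - 1) ≤ Real.cos S * (Real.exp σ - 1) :=
      mul_le_mul_of_nonneg_right (by linarith [neg_abs_le (Real.cos S)]) hes0
    linarith
  have hre : w.re ≤ -(1 / 324) := by rw [hwre]; linarith
  have him : w.im ≤ -(1 / 324) := by rw [hwim]; linarith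
  rcases ex_neg_cases n with h | h | h | h
  · rw [h, one_mul, le_abs]; right; linarith
  · rw [h]
    have : (-Complex.I * w).re = w.im := by simp
    rw [this, le_abs]; right; linarith
  · rw [h]
    have : (-1 * w).re = -w.re := by simp
    rw [this, le_abs]; left; linarith
  · rw [h]
    have : (Complex.I * w).re = -w.im := by simp
    rw [this, le_abs]; left; linarith

end Pool.Agent.R21.EQ.SecP
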