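import Pool.Agent.R21.EQ.Stms

/-!
# Project EQ, piece S4: the sum over four preimages, rows near k/16
-/

open Finset

namespace Pool.Agent.R21.EQ.S4

open Pool.Agent.R21.EQ

theorem ex_eq (t : ℝ) : ex t = ((Real.cos (2 * Real.pi * t) : ℝ) : ℂ) +
    ((Real.sin (2 * Real.pi * t) : ℝ) : ℂ) * Complex.I := by
  unfold ex
  rw [Complex.exp_mul_I, Complex.ofReal_cos, Complex.ofReal_sin]

theorem normSq_num (y t : ℝ) : ‖1 + (y : ℂ) * ex t‖ ^ 2 =
    (1 + y) ^ 2 - 4 * y * Real.sin (Real.pi * t) ^ 2 := by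
  rw [← Complex.normSq_eq_norm_sq, ex_eq]
  have h1 : (1 : ℂ) + (y : ℂ) * (((Real.cos (2 * Real.pi * t) : ℝ) : ℂ) +
      ((Real.sin (2 * Real.pi * t) : ℝ) : ℂ) * Complex.I) =
      ((1 + y * Real.cos (2 * Real.pi * t) : ℝ) : ℂ) +
      ((y * Real.sin (2 * Real.pi * t) : ℝ) : ℂ) * Complex.I := by
    push_cast
    ring
  rw [h1, Complex.normSq_add_mul_I]
  have h2 : Real.cos (2 * Real.pi * t) = 1 - 2 * Real.sin (Real.pi * t) ^ 2 := by
    rw [show 2 * Real.pi * t = 2 * (Real.pi * t) by ring, Real.cos_two_mul]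
    have := Real.sin_sq_add_cos_sq (Real.pi * t)
    linarith
  have h3 := Real.sin_sq_add_cos_sq (2 * Real.pi * t)
  have h4 : (1 + y * Real.cos (2 * Real.pi * t)) ^ 2 + (y * Real.sin (2 * Real.pi * t)) ^ 2 =
      1 + 2 * y * Real.cos (2 * Real.pi * t) +
        y ^ 2 * (Real.sin (2 * Real.pi * t) ^ 2 + Real.cos (2 * Real.pi * t) ^ 2) := by ring
  rw [h4, h3, h2]
  ring

theorem norm_cf (y t : ℝ) (hy : 0 ≤ y) : ‖cf y t‖ = ‖1 + (y : ℂ) * ex t‖ / (1 + y) := by
  unfold cf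
  rw [norm_div]
  congr 1
  rw [show (1 : ℂ) + (y : ℂ) = ((1 + y : ℝ) : ℂ) by push_cast; ring, Complex.norm_real,
    Real.norm_eq_abs, abs_of_nonneg (by linarith)]

theorem cf_le_one (y t : ℝ) (hy : 0 ≤ y) : ‖cf y t‖ ≤ 1 := by
  rw [norm_cf y t hy, div_le_one (by linarith)]
  apply le_of_sq_le_sq _ (by linarith)
  rw [normSq_num]
  have := sq_nonneg (Real.sin (Real.pi * t))
  nlinarith [mul_nonneg hy this]

theorem cf_le (y t : ℝ) (hy : 1 / 3 ≤ y) (hy1 : y ≤ 1) :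
    ‖cf y t‖ ≤ Real.exp (-(1 / 6 * Real.sin (Real.pi * t) ^ 2)) := by
  rw [norm_cf y t (by linarith)]
  apply le_of_sq_le_sq _ (Real.exp_nonneg _)
  rw [div_pow, normSq_num, ← Real.exp_nat_mul]
  have h0 := sq_nonneg (Real.sin (Real.pi * t))
  have h1 : ((2 : ℕ) : ℝ) * -(1 / 6 * Real.sin (Real.pi * t) ^ 2) =
      -(1 / 3 * Real.sin (Real.pi * t) ^ 2) := by push_cast; ring
  rw [h1]
  have h2 : 1 - 1 / 3 * Real.sin (Real.pi * t) ^ 2 ≤
      Real.exp (-(1 / 3 * Real.sin (Real.pi * t) ^ 2)) := by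
    have := Real.add_one_le_exp (-(1 / 3 * Real.sin (Real.pi * t) ^ 2))
    linarith
  refine le_trans ?_ h2
  rw [div_le_iff₀ (by positivity)]
  have h3 : (1 + y) ^ 2 ≤ 12 * y := by nlinarith
  nlinarith [mul_le_mul_of_nonneg_left h3 h0]

theorem Rw_eq (α : ℕ) (σ θ : ℝ) : Rw α σ θ =
    ∏ a ∈ range α, ‖cf (Real.exp (-(3 ^ a * σ))) (3 ^ a * θ)‖ := by
  unfold Rw cR
  rw [norm_prod]

theorem Rw_nonneg (α : ℕ) (σ θ : ℝ) : 0 ≤ Rw α σ θ := norm_nonneg _

/-- the crude bound -/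
theorem Rw_le (α K : ℕ) (σ θ : ℝ) (hσ : 0 < σ) (hK : K ≤ α) (h : ∀ a < K, 3 ^ a * σ ≤ 1) :
    Rw α σ θ ≤ Real.exp (-(1 / 6 * ∑ a ∈ range K, Real.sin (Real.pi * (3 ^ a * θ)) ^ 2)) := by
  rw [Rw_eq, ← Finset.prod_range_mul_prod_Ico _ hK]
  have h1 : ∏ a ∈ Finset.Ico K α, ‖cf (Real.exp (-(3 ^ a * σ))) (3 ^ a * θ)‖ ≤ 1 := by
    apply Finset.prod_le_one
    · intro a _
      exact norm_nonneg _
    · intro a _
      exact cf_le_one _ _ (Real.exp_nonneg _)
  have h2 : ∏ a ∈ range K, ‖cf (Real.exp (-(3 ^ a * σ))) (3 ^ a * θ)‖ ≤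
      ∏ a ∈ range K, Real.exp (-(1 / 6 * Real.sin (Real.pi * (3 ^ a * θ)) ^ 2)) := by
    apply Finset.prod_le_prod
    · intro a _
      exact norm_nonneg _
    · intro a ha
      apply cf_le
      · have h3 := h a (Finset.mem_range.1 ha)
        have h4 : Real.exp (-1) ≤ Real.exp (-(3 ^ a * σ)) := Real.exp_le_exp.2 (by linarith)
        have h5 : 1 / 3 ≤ Real.exp (-1) := by
          rw [Real.exp_neg, one_div]
          apply inv_anti₀ (Real.exp_pos 1)
          have := Real.exp_one_lt_d9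
          linarith
        linarith
      · rw [Real.exp_le_one_iff]
        have : (0 : ℝ) ≤ 3 ^ a * σ := by positivity
        linarith
  have h3 : ∏ a ∈ range K, Real.exp (-(1 / 6 * Real.sin (Real.pi * (3 ^ a * θ)) ^ 2)) =
      Real.exp (-(1 / 6 * ∑ a ∈ range K, Real.sin (Real.pi * (3 ^ a * θ)) ^ 2)) := by
    rw [← Real.exp_sum, Finset.sum_neg_distrib, Finset.mul_sum]
  rw [← h3]
  calc (∏ a ∈ range K, ‖cf (Real.exp (-(3 ^ a * σ))) (3 ^ a * θ)‖) *
        ∏ a ∈ Finset.Ico K α, ‖cf (Real.exp (-(3 ^ a * σ))) (3 ^ a * θ)‖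
      ≤ (∏ a ∈ range K, ‖cf (Real.exp (-(3 ^ a * σ))) (3 ^ a * θ)‖) * 1 := by
        apply mul_le_mul_of_nonneg_left h1
        exact Finset.prod_nonneg (fun a _ => norm_nonneg _)
    _ ≤ _ := by rw [mul_one]; exact h2

theorem sin_ge (x : ℝ) : 2 * nn x ≤ |Real.sin (Real.pi * x)| := by
  have h1 : |x - round x| ≤ 1 / 2 := abs_sub_round x
  have hpi := Real.pi_pos
  have h2 : |Real.pi * (x - round x)| ≤ Real.pi / 2 := by
    rw [abs_mul, abs_of_pos hpi]
    nlinarith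
  have h3 := Real.mul_abs_le_abs_sin h2
  rw [abs_mul, abs_of_pos hpi] at h3
  have h4 : |Real.sin (Real.pi * (x - round x))| = |Real.sin (Real.pi * x)| := by
    have e1 : Real.pi * (x - round x) = Real.pi * x - (round x : ℤ) * Real.pi := by ring
    rw [e1, Real.sin_sub_int_mul_pi, abs_mul, abs_zpow, abs_neg, abs_one, one_zpow, one_mul]
  rw [h4] at h3
  unfold nn
  have h5 : 2 / Real.pi * (Real.pi * |x - round x|) = 2 * |x - round x| := by
    field_simp
  linarith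

theorem sin_sub_sq (A B : ℝ) : Real.sin (A - B) ^ 2 ≤ 2 * Real.sin A ^ 2 + 2 * Real.sin B ^ 2 := by
  rw [Real.sin_sub]
  have h1 := Real.sin_sq_add_cos_sq A
  have h2 := Real.sin_sq_add_cos_sq B
  have h3 : Real.cos A ^ 2 ≤ 1 := by nlinarith [sq_nonneg (Real.sin A)]
  have h4 : Real.cos B ^ 2 ≤ 1 := by nlinarith [sq_nonneg (Real.sin B)]
  have h5 : (Real.sin A * Real.cos B - Real.cos A * Real.sin B) ^ 2 ≤
      2 * (Real.sin A ^ 2 * Real.cos B ^ 2) + 2 * (Real.cos A ^ 2 * Real.sin B ^ 2) := by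
    nlinarith [sq_nonneg (Real.sin A * Real.cos B + Real.cos A * Real.sin B)]
  nlinarith [mul_le_mul_of_nonneg_left h4 (sq_nonneg (Real.sin A)),
    mul_le_mul_of_nonneg_right h3 (sq_nonneg (Real.sin B))]

/-- `nn (j / N) ≥ 1 / N` if `N` does not divide `j` -/
theorem nn_frac (j : ℤ) (N : ℕ) (hN : 0 < N) (h : ¬ (N : ℤ) ∣ j) : 1 / (N : ℝ) ≤ nn (j / N) := by
  unfold nn
  set r := round ((j : ℝ) / N) with hr
  have hN' : (0 : ℝ) < N := by exact_mod_cast hN
  have h1 : (j : ℝ) / N - r = ((j - N * r : ℤ) : ℝ) / N := by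
    push_cast
    field_simp
  rw [h1, abs_div, abs_of_pos hN']
  apply div_le_div_of_nonneg_right _ hN'.le
  have h2 : j - N * r ≠ 0 := by
    intro h3
    apply h
    exact ⟨r, by linarith⟩
  have h3 : 1 ≤ |j - N * r| := Int.one_le_abs h2
  exact_mod_cast h3

theorem sin_frac (j : ℤ) (N : ℕ) (hN : 0 < N) (h : ¬ (N : ℤ) ∣ j) :
    (2 / (N : ℝ)) ^ 2 ≤ Real.sin (Real.pi * (j / N)) ^ 2 := by
  have h1 := nn_frac j N hN h
  have h2 := sin_ge ((j : ℝ) / N)
  have hN' : (0 : ℝ) < N := by exact_mod_cast hN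
  rw [← sq_abs (Real.sin _)]
  have h3 : 2 / (N : ℝ) ≤ |Real.sin (Real.pi * ((j : ℝ) / N))| := by
    have : 2 / (N : ℝ) = 2 * (1 / (N : ℝ)) := by ring
    rw [this]
    linarith
  gcongr

theorem not_dvd_three_pow (N : ℕ) (hN : Nat.Coprime N 3) (a : ℕ) (j : ℤ) (h : ¬ (N : ℤ) ∣ j) :
    ¬ (N : ℤ) ∣ 3 ^ a * j := by
  intro h1
  apply h
  have h2 : IsCoprime (N : ℤ) (3 ^ a : ℤ) := by
    apply IsCoprime.pow_right
    exact_mod_cast Nat.isCoprime_iff_coprime.2 hN
  exact h2.dvd_of_dvd_mul_left h1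

theorem six : S_Six := by
  intro M hM ε hε
  obtain ⟨K, hK⟩ : ∃ K : ℕ, Real.exp (-(1 / 6 * (K * (1 / 256)))) ≤ ε := by
    obtain ⟨K, hK⟩ := exists_nat_gt (-(1536 * Real.log ε))
    refine ⟨K, ?_⟩
    rw [← Real.le_log_iff_exp_le hε]
    linarith
  have hM0 : 0 < M := by linarith
  refine ⟨1 / (64 * M) / 3 ^ K, by positivity, ?_, ?_⟩
  · rw [div_div, div_le_one (by positivity)]
    have h1 : (1 : ℝ) ≤ 3 ^ K := one_le_pow₀ (by norm_num)
    nlinarith
  · intro σ hσ hσ0 α hα k hk u hu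
    rw [le_div_iff₀ (by positivity)] at hσ0
    have hMs : 1 / (64 * M) ≤ 1 / 64 := by
      apply div_le_div_of_nonneg_left (by norm_num) (by norm_num)
      linarith
    have hsm : ∀ a ≤ K, 3 ^ a * σ ≤ 1 / (64 * M) := by
      intro a ha
      have h1 : (3 : ℝ) ^ a ≤ 3 ^ K := pow_le_pow_right₀ (by norm_num) ha
      nlinarith
    have hKα : K ≤ α := by
      by_contra hcon
      push Not at hcon
      have := hsm α hcon.le
      linarith
    refine (Rw_le α K σ _ hσ hKα (fun a ha => by have := hsm a ha.le; linarith)).trans ?_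
    refine le_trans ?_ hK
    apply Real.exp_le_exp.2
    have hsum : (K : ℝ) * (1 / 256) ≤
        ∑ a ∈ range K, Real.sin (Real.pi * (3 ^ a * (k / 16 + u))) ^ 2 := by
      have h1 : ∑ _a ∈ range K, (1 / 256 : ℝ) = (K : ℝ) * (1 / 256) := by
        rw [Finset.sum_const, Finset.card_range, nsmul_eq_mul]
      rw [← h1]
      apply Finset.sum_le_sum
      intro a ha
      have ha' := hsm a (Finset.mem_range.1 ha).le
      have hnd : ¬ ((16 : ℕ) : ℤ) ∣ 3 ^ a * (k : ℤ) := by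
        apply not_dvd_three_pow 16 (by norm_num)
        intro h2
        apply hk
        have h3 : (16 : ℕ) ∣ k := by exact_mod_cast h2
        exact (show 4 ∣ 16 by norm_num).trans h3
      have h2 := sin_frac (3 ^ a * (k : ℤ)) 16 (by norm_num) hnd
      have h3 := sin_sub_sq (Real.pi * (3 ^ a * (k / 16 + u))) (Real.pi * (3 ^ a * u))
      have e1 : Real.pi * (3 ^ a * ((k : ℝ) / 16 + u)) - Real.pi * (3 ^ a * u) =
          Real.pi * (((3 ^ a * (k : ℤ) : ℤ) : ℝ) / ((16 : ℕ) : ℝ)) := by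
        push_cast
        ring
      rw [e1] at h3
      have h4 : Real.sin (Real.pi * (3 ^ a * u)) ^ 2 ≤ (1 / 16) ^ 2 := by
        have h5 : |Real.sin (Real.pi * (3 ^ a * u))| ≤ |Real.pi * (3 ^ a * u)| := Real.abs_sin_le_abs
        have h6 : |Real.pi * (3 ^ a * u)| ≤ 1 / 16 := by
          rw [abs_mul, abs_mul, abs_of_pos Real.pi_pos, abs_of_pos (show (0 : ℝ) < 3 ^ a by positivity)]
          have h7 : (3 : ℝ) ^ a * |u| ≤ 3 ^ a * (M * σ) := by gcongr
          have h8 : (3 : ℝ) ^ a * (M * σ) ≤ 1 / 64 := by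
            calc (3 : ℝ) ^ a * (M * σ) = M * (3 ^ a * σ) := by ring
              _ ≤ M * (1 / (64 * M)) := by gcongr
              _ = 1 / 64 := by field_simp
          have h9 := Real.pi_lt_four
          have h10 : 0 ≤ (3 : ℝ) ^ a * |u| := by positivity
          nlinarith [Real.pi_pos]
        rw [← sq_abs (Real.sin _)]
        have := h5.trans h6
        gcongr
      have c1 : (2 / ((16 : ℕ) : ℝ)) ^ 2 = 1 / 64 := by norm_num
      have c2 : ((1 : ℝ) / 16) ^ 2 = 1 / 256 := by norm_num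
      rw [c1] at h2
      rw [c2] at h4
      linarith
    linarith

theorem sum4_of (h : S_Row) : S_Sum4 := by
  obtain ⟨M₀, hM₀, hrow⟩ := h
  refine ⟨max M₀ (3 ^ 480), hM₀.trans (le_max_left _ _), ?_⟩
  intro M hM α σ τ hσ hα hτ
  have hM1 : M₀ ≤ M := (le_max_left _ _).trans hM
  have hM2 : (3 : ℝ) ^ 480 ≤ M := (le_max_right _ _).trans hM
  have hMpos : 0 < M := lt_of_lt_of_le (by positivity) hM2
  have hnτ : nn τ ≤ 1 / 2 := abs_sub_round τ
  have hσM : 8 * (M * σ) < 1 := by nlinarith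
  -- the distances
  have hnn : ∀ m : ℕ, M * σ < nn ((τ + m) / 4) := by
    intro m
    have h1 : nn τ ≤ 4 * nn ((τ + m) / 4) := by
      unfold nn
      have h2 := round_le τ (4 * round ((τ + m) / 4) - (m : ℤ))
      have h3 : τ - ((4 * round ((τ + m) / 4) - (m : ℤ) : ℤ) : ℝ) =
          4 * ((τ + m) / 4 - round ((τ + m) / 4)) := by
        push_cast
        ring
      rw [h3, abs_mul, abs_of_pos (show (0 : ℝ) < 4 by norm_num)] at h2
      exact h2
    linarith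
  have hle : ∀ m : ℕ, Rw α σ ((τ + m) / 4) ≤ 57 / 100 := fun m =>
    hrow M hM1 α σ _ hσ hα (hnn m)
  -- products
  have hsm : ∀ a ≤ 480, 3 ^ a * σ ≤ 1 / 8 := by
    intro a ha
    have h1 : (3 : ℝ) ^ a ≤ 3 ^ 480 := pow_le_pow_right₀ (by norm_num) ha
    have h2 : (3 : ℝ) ^ a * σ ≤ M * σ := by
      apply mul_le_mul_of_nonneg_right (h1.trans hM2) hσ.le
    linarith
  have hKα : 480 ≤ α := by
    by_contra hcon
    push Not at hcon
    have := hsm α hcon.le
    linarith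
  have hprod : ∀ m m' : ℕ, m < 4 → m' < 4 → m ≠ m' →
      Rw α σ ((τ + m) / 4) * Rw α σ ((τ + m') / 4) ≤ 1 / 10000 := by
    intro m m' hm hm' hne
    have h1 := Rw_le α 480 σ ((τ + m) / 4) hσ hKα
      (fun a ha => by have := hsm a (le_of_lt ha); linarith)
    have h2 := Rw_le α 480 σ ((τ + m') / 4) hσ hKα
      (fun a ha => by have := hsm a (le_of_lt ha); linarith)
    have h3 := mul_le_mul h1 h2 (Rw_nonneg _ _ _) (Real.exp_nonneg _)
    refine h3.trans ?_
    rw [← Real.exp_add]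
    have hsum : (480 : ℝ) * (1 / 8) ≤ ∑ a ∈ range 480, (Real.sin (Real.pi * (3 ^ a * ((τ + m) / 4))) ^ 2 +
        Real.sin (Real.pi * (3 ^ a * ((τ + m') / 4))) ^ 2) := by
      have e0 : ∑ _a ∈ range 480, (1 / 8 : ℝ) = (480 : ℝ) * (1 / 8) := by
        rw [Finset.sum_const, Finset.card_range, nsmul_eq_mul]
        norm_num
      rw [← e0]
      apply Finset.sum_le_sum
      intro a _
      have hnd : ¬ ((4 : ℕ) : ℤ) ∣ 3 ^ a * ((m : ℤ) - m') := by
        apply not_dvd_three_pow 4 (by norm_num)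
        intro h4
        omega
      have h4 := sin_frac (3 ^ a * ((m : ℤ) - m')) 4 (by norm_num) hnd
      have h5 := sin_sub_sq (Real.pi * (3 ^ a * ((τ + m) / 4))) (Real.pi * (3 ^ a * ((τ + m') / 4)))
      have e1 : Real.pi * (3 ^ a * ((τ + m) / 4)) - Real.pi * (3 ^ a * ((τ + m') / 4)) =
          Real.pi * (((3 ^ a * ((m : ℤ) - m') : ℤ) : ℝ) / ((4 : ℕ) : ℝ)) := by
        push_cast
        ring
      rw [e1] at h5
      have c1 : (2 / ((4 : ℕ) : ℝ)) ^ 2 = 1 / 4 := by norm_num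
      rw [c1] at h4
      linarith
    rw [Finset.sum_add_distrib] at hsum
    have h6 : Real.exp (-(1 / 6 * ∑ a ∈ range 480, Real.sin (Real.pi * (3 ^ a * ((τ + m) / 4))) ^ 2) +
        -(1 / 6 * ∑ a ∈ range 480, Real.sin (Real.pi * (3 ^ a * ((τ + m') / 4))) ^ 2)) ≤
        Real.exp (-10) := by
      apply Real.exp_le_exp.2
      linarith
    refine h6.trans ?_
    have h7 : Real.exp (-10) = (Real.exp 1)⁻¹ ^ 10 := by
      rw [← Real.exp_neg, ← Real.exp_nat_mul]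
      norm_num
    rw [h7]
    have h8 : (Real.exp 1)⁻¹ ≤ (2.7 : ℝ)⁻¹ := by
      apply inv_anti₀ (by norm_num)
      have := Real.exp_one_gt_d9
      linarith
    calc (Real.exp 1)⁻¹ ^ 10 ≤ (2.7 : ℝ)⁻¹ ^ 10 := by
          apply pow_le_pow_left₀ (by positivity) h8
      _ ≤ 1 / 10000 := by norm_num
  -- conclusion
  set r : ℕ → ℝ := fun m => Rw α σ ((τ + m) / 4) with hr
  have hr0 : ∀ m, 0 ≤ r m := fun m => Rw_nonneg _ _ _
  have hr1 : ∀ m, r m ≤ 57 / 100 := hle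
  have hr2 : ∀ m m' : ℕ, m < 4 → m' < 4 → m ≠ m' → r m * r m' ≤ 1 / 10000 := hprod
  have hsmall : ∀ m m' : ℕ, m < 4 → m' < 4 → m ≠ m' → 1 / 100 < r m → r m' ≤ 1 / 100 := by
    intro m m' hm hm' hne hbig
    by_contra hcon
    push Not at hcon
    have := hr2 m m' hm hm' hne
    nlinarith
  have hs : ∑ m ∈ range 4, Rw α σ ((τ + m) / 4) = r 0 + r 1 + r 2 + r 3 := by
    rw [Finset.sum_range_succ, Finset.sum_range_succ, Finset.sum_range_succ,
      Finset.sum_range_succ, Finset.sum_range_zero, zero_add]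
  rw [hs]
  have b0 := hr1 0
  have b1 := hr1 1
  have b2 := hr1 2
  have b3 := hr1 3
  by_cases c0 : 1 / 100 < r 0
  · have := hsmall 0 1 (by norm_num) (by norm_num) (by norm_num) c0
    have := hsmall 0 2 (by norm_num) (by norm_num) (by norm_num) c0
    have := hsmall 0 3 (by norm_num) (by norm_num) (by norm_num) c0
    linarith
  by_cases c1 : 1 / 100 < r 1
  · have := hsmall 1 0 (by norm_num) (by norm_num) (by norm_num) c1
    have := hsmall 1 2 (by norm_num) (by norm_num) (by norm_num) c1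
    have := hsmall 1 3 (by norm_num) (by norm_num) (by norm_num) c1
    linarith
  by_cases c2 : 1 / 100 < r 2
  · have := hsmall 2 0 (by norm_num) (by norm_num) (by norm_num) c2
    have := hsmall 2 1 (by norm_num) (by norm_num) (by norm_num) c2
    have := hsmall 2 3 (by norm_num) (by norm_num) (by norm_num) c2
    linarith
  push Not at c0 c1 c2
  linarith

end Pool.Agent.R21.EQ.S4
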