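import Pool.Agent.R21.EQ.Stms

/-!
# Project EQ (MP_a28f5d_nt): sums over preimages (UBD, VBD, VSM)
-/

set_option autoImplicit false

open Finset

namespace Pool.Agent.R359.EQ

open Pool.Agent.R21.EQ

theorem ex_add_nat (t : ℝ) (n : ℕ) : ex (t + n) = ex t := by
  unfold ex
  have e : (((2 * Real.pi * (t + n) : ℝ) : ℂ)) * Complex.I =
      ((2 * Real.pi * t : ℝ) : ℂ) * Complex.I + n * (2 * Real.pi * Complex.I) := by
    push_cast
    ring
  rw [e, Complex.exp_add, Complex.exp_nat_mul_two_pi_mul_I, mul_one]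

theorem cR_add_nat (α : ℕ) (σ θ : ℝ) (n : ℕ) : cR α σ (θ + n) = cR α σ θ := by
  unfold cR
  refine Finset.prod_congr rfl fun a _ => ?_
  unfold cf
  have e : (3 : ℝ) ^ a * (θ + n) = 3 ^ a * θ + ((3 ^ a * n : ℕ) : ℝ) := by
    push_cast
    ring
  rw [e, ex_add_nat]

theorem Rw_add_nat (α : ℕ) (σ θ : ℝ) (n : ℕ) : Rw α σ (θ + n) = Rw α σ θ := by
  unfold Rw
  rw [cR_add_nat]

theorem norm_ex (t : ℝ) : ‖ex t‖ = 1 := by
  unfold ex
  exact Complex.norm_exp_ofReal_mul_I _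

theorem norm_cf_le {y : ℝ} (hy : 0 ≤ y) (t : ℝ) : ‖cf y t‖ ≤ 1 := by
  unfold cf
  have h1 : (0 : ℝ) < 1 + y := by linarith
  have h2 : ‖(1 : ℂ) + (y : ℂ)‖ = 1 + y := by
    have : (1 : ℂ) + (y : ℂ) = ((1 + y : ℝ) : ℂ) := by push_cast; ring
    rw [this, Complex.norm_real, Real.norm_eq_abs, abs_of_pos h1]
  rw [norm_div, h2, div_le_one h1]
  refine (norm_add_le _ _).trans ?_
  rw [norm_mul, norm_ex, norm_one, Complex.norm_real, Real.norm_eq_abs, abs_of_nonneg hy, mul_one]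

theorem Rw_nonneg (α : ℕ) (σ θ : ℝ) : 0 ≤ Rw α σ θ := norm_nonneg _

theorem Rw_le_one (α : ℕ) (σ θ : ℝ) : Rw α σ θ ≤ 1 := by
  unfold Rw cR
  rw [norm_prod]
  exact Finset.prod_le_one (fun _ _ => norm_nonneg _) fun a _ => norm_cf_le (Real.exp_pos _).le _

/-! ### sums -/

theorem sum_four (F : ℕ → ℝ) (N : ℕ) :
    ∑ k ∈ range (4 * N), F k = ∑ k ∈ range N, ∑ c ∈ range 4, F (4 * k + c) := by
  induction N with
  | zero => simp
  | succ N ih =>
    rw [Finset.sum_range_succ _ N, ← ih]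
    have e : 4 * (N + 1) = 4 * N + 1 + 1 + 1 + 1 := by ring
    rw [e, Finset.sum_range_succ, Finset.sum_range_succ, Finset.sum_range_succ,
      Finset.sum_range_succ]
    simp only [Finset.sum_range_succ, Finset.sum_range_zero]
    simp only [add_zero, zero_add, add_assoc]

theorem sum_prim (F : ℕ → ℝ) (N : ℕ) :
    ∑ k ∈ (range (4 * N)).filter (fun k => ¬ 4 ∣ k), F k =
      ∑ k ∈ range N, (F (4 * k + 1) + F (4 * k + 2) + F (4 * k + 3)) := by
  rw [Finset.sum_filter, sum_four]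
  refine Finset.sum_congr rfl fun k _ => ?_
  simp only [Finset.sum_range_succ, Finset.sum_range_zero]
  rw [if_neg (by omega), if_pos (by omega), if_pos (by omega), if_pos (by omega)]
  ring

theorem UU_zero (α : ℕ) (σ τ : ℝ) : UU α 0 σ τ = 1 := by
  simp [UU]

/-- a term of the sums splits -/
theorem term_split (α i : ℕ) (σ τ : ℝ) (k c : ℕ) :
    ∏ b ∈ range (i + 1), Rw α (4 ^ b * σ) (4 ^ b * ((τ + ((4 * k + c : ℕ) : ℝ)) / 4 ^ (i + 1))) =
      Rw α (4 ^ i * σ) ((τ + c) / 4) *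
        ∏ b ∈ range i, Rw α (4 ^ b * σ) (4 ^ b * (((τ + c) / 4 + k) / 4 ^ i)) := by
  rw [Finset.prod_range_succ, mul_comm]
  have e : (τ + ((4 * k + c : ℕ) : ℝ)) / 4 ^ (i + 1) = ((τ + c) / 4 + k) / 4 ^ i := by
    rw [pow_succ]
    push_cast
    field_simp
    ring
  rw [e]
  congr 1
  have e2 : (4 : ℝ) ^ i * (((τ + c) / 4 + k) / 4 ^ i) = (τ + c) / 4 + k := by
    field_simp
  rw [e2, Rw_add_nat]

theorem UU_succ (α i : ℕ) (σ τ : ℝ) : UU α (i + 1) σ τ =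
    ∑ c ∈ range 4, Rw α (4 ^ i * σ) ((τ + c) / 4) * UU α i σ ((τ + c) / 4) := by
  unfold UU
  rw [pow_succ, mul_comm (4 ^ i) 4, sum_four, Finset.sum_comm]
  refine Finset.sum_congr rfl fun c _ => ?_
  rw [Finset.mul_sum]
  refine Finset.sum_congr rfl fun k _ => ?_
  rw [← term_split]

theorem VV_succ (α i : ℕ) (σ v : ℝ) : VV α (i + 1) σ v =
    Rw α (4 ^ i * σ) ((v + (1 : ℕ)) / 4) * UU α i σ ((v + (1 : ℕ)) / 4) +
    Rw α (4 ^ i * σ) ((v + (2 : ℕ)) / 4) * UU α i σ ((v + (2 : ℕ)) / 4) +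
    Rw α (4 ^ i * σ) ((v + (3 : ℕ)) / 4) * UU α i σ ((v + (3 : ℕ)) / 4) := by
  unfold VV UU
  rw [pow_succ, mul_comm (4 ^ i) 4, sum_prim, Finset.mul_sum, Finset.mul_sum, Finset.mul_sum,
    ← Finset.sum_add_distrib, ← Finset.sum_add_distrib]
  refine Finset.sum_congr rfl fun k _ => ?_
  rw [← term_split, ← term_split, ← term_split]

theorem UU_nonneg (α i : ℕ) (σ τ : ℝ) : 0 ≤ UU α i σ τ :=
  Finset.sum_nonneg fun _ _ => Finset.prod_nonneg fun _ _ => Rw_nonneg _ _ _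

theorem UU_le (α i : ℕ) (σ τ : ℝ) : UU α i σ τ ≤ 4 ^ i := by
  unfold UU
  refine (Finset.sum_le_sum fun k _ => Finset.prod_le_one (fun _ _ => Rw_nonneg _ _ _)
    fun _ _ => Rw_le_one _ _ _).trans ?_
  simp

/-! ### distances to the nearest integer -/

theorem nn_four (x : ℝ) : nn (4 * x) ≤ 4 * nn x := by
  unfold nn
  have h := round_le (4 * x) (4 * round x)
  refine h.trans (le_of_eq ?_)
  push_cast
  rw [← mul_sub, abs_mul, abs_of_pos (by norm_num : (0 : ℝ) < 4)]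

theorem nn_add_nat (x : ℝ) (n : ℕ) : nn (x + n) = nn x := by
  unfold nn
  rw [round_add_natCast]
  push_cast
  congr 1
  ring

theorem nn_ge {x : ℝ} (h1 : 7 / 32 ≤ x) (h2 : x ≤ 25 / 32) : 7 / 32 ≤ nn x := by
  unfold nn
  set z := round x
  rcases le_or_gt z 0 with h | h
  · have h3 : (z : ℝ) ≤ 0 := by exact_mod_cast h
    rw [abs_of_nonneg (by linarith)]
    linarith
  · have h3 : (1 : ℝ) ≤ z := by exact_mod_cast h
    rw [abs_of_nonpos (by linarith)]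
    linarith

theorem one_le_shift {α i : ℕ} {σ : ℝ} (hσ : 0 < σ) (h : 1 ≤ 3 ^ α * σ) :
    1 ≤ 3 ^ α * (4 ^ i * σ) := by
  have h1 : (1 : ℝ) ≤ 4 ^ i := one_le_pow₀ (by norm_num)
  calc (1 : ℝ) ≤ 3 ^ α * σ := h
    _ = 3 ^ α * (1 * σ) := by ring
    _ ≤ 3 ^ α * (4 ^ i * σ) := by
        refine mul_le_mul_of_nonneg_left ?_ (by positivity)
        exact mul_le_mul_of_nonneg_right h1 hσ.le

theorem ubd_of (h : S_Sum4) : S_Ubd := by
  obtain ⟨M₀, hM₀, hS⟩ := h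
  refine ⟨M₀, hM₀, fun M hM α i σ τ hσ hα hτ => ?_⟩
  induction i generalizing τ with
  | zero => rw [UU_zero, pow_zero]
  | succ i ih =>
    have hp : (4 : ℝ) ^ (i + 1) * σ = 4 * (4 ^ i * σ) := by
      rw [pow_succ]
      ring
    rw [hp] at hτ
    have h1 := hS M hM α (4 ^ i * σ) τ (by positivity) (one_le_shift hσ hα) hτ
    rw [UU_succ]
    have h2 : ∀ c ∈ range 4, Rw α (4 ^ i * σ) ((τ + c) / 4) * UU α i σ ((τ + c) / 4) ≤
        Rw α (4 ^ i * σ) ((τ + c) / 4) * (3 / 5) ^ i := by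
      intro c _
      refine mul_le_mul_of_nonneg_left (ih _ ?_) (Rw_nonneg _ _ _)
      have h3 := nn_four ((τ + c) / 4)
      have e : 4 * ((τ + (c : ℝ)) / 4) = τ + c := by ring
      rw [e, nn_add_nat] at h3
      linarith
    refine (Finset.sum_le_sum h2).trans ?_
    rw [← Finset.sum_mul, pow_succ, mul_comm]
    exact mul_le_mul_of_nonneg_left h1 (by positivity)

theorem vbd_of (h1 : S_Ubd) (h2 : S_Qua) : S_Vbd := by
  obtain ⟨M₀, hM₀, hU⟩ := h1
  refine ⟨M₀, hM₀, fun M hM => ?_⟩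
  obtain ⟨C, hC, hQ⟩ := h2 M (hM₀.trans hM)
  refine ⟨5 * C, by positivity, fun α j σ v hj hσ hα h8 hv => ?_⟩
  have hM1 : 1 ≤ M := hM₀.trans hM
  obtain ⟨i, rfl⟩ : ∃ i, j = i + 1 := ⟨j - 1, by omega⟩
  rw [Nat.add_sub_cancel]
  have hp : (4 : ℝ) ^ (i + 1) * σ = 4 * (4 ^ i * σ) := by
    rw [pow_succ]
    ring
  rw [hp] at h8 hv
  have hs0 : 0 < (4 : ℝ) ^ i * σ := by positivity
  set s := (4 : ℝ) ^ i * σ with hs
  have hMs : s ≤ M * s := le_mul_of_one_le_left hs0.le hM1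
  have hs1 : s ≤ 1 := by nlinarith
  have hMs2 : M * s ≤ 1 / 32 := by nlinarith
  have hv4 : |v / 4| ≤ M * s := by
    rw [abs_div, abs_of_pos (by norm_num : (0 : ℝ) < 4), div_le_iff₀ (by norm_num)]
    linarith
  have hkey : ∀ c : ℕ, 1 ≤ c → c ≤ 3 → Rw α s ((v + c) / 4) * UU α i σ ((v + c) / 4) ≤
      C / La α s * (3 / 5) ^ i := by
    intro c hc1 hc3
    refine mul_le_mul ?_ ?_ (UU_nonneg _ _ _ _) ((Rw_nonneg α s ((v + c) / 4)).trans ?_)
    · have := hQ s hs0 hs1 α c (by omega) (v / 4) hv4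
      have e : (v + (c : ℝ)) / 4 = c / 4 + v / 4 := by ring
      rw [e]
      exact this
    · refine hU M hM α i σ _ hσ hα ?_
      rw [← hs]
      have h5 : 7 / 32 ≤ nn ((v + c) / 4) := by
        have hc1' : (1 : ℝ) ≤ c := by exact_mod_cast hc1
        have hc3' : (c : ℝ) ≤ 3 := by exact_mod_cast hc3
        have := abs_le.1 hv4
        refine nn_ge ?_ ?_ <;> linarith [this.1, this.2]
      linarith
    · have := hQ s hs0 hs1 α c (by omega) (v / 4) hv4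
      have e : (v + (c : ℝ)) / 4 = c / 4 + v / 4 := by ring
      rw [e]
      exact this
  rw [VV_succ]
  have a1 := hkey 1 le_rfl (by norm_num)
  have a2 := hkey 2 (by norm_num) (by norm_num)
  have a3 := hkey 3 (by norm_num) le_rfl
  have e : 5 * C * (3 / 5) ^ (i + 1) / La α s = 3 * (C / La α s * (3 / 5) ^ i) := by
    rw [pow_succ]
    ring
  rw [e]
  linarith

theorem vsm_of (h1 : S_Qua) (h2 : S_Six) (h3 : S_Lam) : S_Vsm := by
  intro M hM j hj ε hε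
  obtain ⟨i, rfl⟩ : ∃ i, j = i + 2 := ⟨j - 2, by omega⟩
  obtain ⟨C, hC, hQ⟩ := h1 M hM
  obtain ⟨hL1, hL2, hL3, -⟩ := h3
  set ε' := ε / (12 * C * 4 ^ i * 2 ^ (i + 1)) with hε'
  have hε'0 : 0 < ε' := by positivity
  obtain ⟨σ₁, hσ₁, hσ₁', hX⟩ := h2 M hM ε' hε'0
  have hp1 : (1 : ℝ) ≤ 4 ^ (i + 1) := one_le_pow₀ (by norm_num)
  refine ⟨σ₁ / 4 ^ (i + 1), by positivity, (div_le_self hσ₁.le hp1).trans hσ₁', ?_⟩
  intro σ hσ hσ' α hα v hv
  rw [le_div_iff₀ (by positivity)] at hσ'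
  have hs1 : (4 : ℝ) ^ (i + 1) * σ ≤ σ₁ := by linarith
  have hs2 : (4 : ℝ) ^ i * σ ≤ σ₁ := by
    have e : (4 : ℝ) ^ (i + 1) * σ = 4 * (4 ^ i * σ) := by
      rw [pow_succ]
      ring
    have : 0 < (4 : ℝ) ^ i * σ := by positivity
    linarith
  have hLa : La α σ ≤ 2 ^ (i + 1) * La α (4 ^ (i + 1) * σ) := by
    have : ∀ n : ℕ, La α σ ≤ 2 ^ n * La α (4 ^ n * σ) := by
      intro n
      induction n with
      | zero => simp
      | succ n ih =>
        refine ih.trans ?_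
        have h4 := hL3 α (4 ^ n * σ) (by positivity)
        have e : (4 : ℝ) ^ (n + 1) * σ = 4 * (4 ^ n * σ) := by
          rw [pow_succ]
          ring
        rw [e, pow_succ, mul_assoc]
        exact mul_le_mul_of_nonneg_left h4 (by positivity)
    exact this _
  have hLp : 0 < La α (4 ^ (i + 1) * σ) :=
    lt_of_lt_of_le one_pos (hL1 α _ (by positivity)).1
  have hLp0 : 0 < La α σ := lt_of_lt_of_le one_pos (hL1 α σ hσ).1
  -- the inner sums
  have hUU : ∀ c : ℕ, 1 ≤ c → c ≤ 3 → UU α (i + 1) σ ((v + c) / 4) ≤ 4 * (ε' * 4 ^ i) := by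
    intro c hc1 hc3
    rw [UU_succ]
    have h4 : ∀ c' ∈ range 4, Rw α (4 ^ i * σ) (((v + c) / 4 + c') / 4) *
        UU α i σ (((v + c) / 4 + c') / 4) ≤ ε' * 4 ^ i := by
      intro c' _
      refine mul_le_mul ?_ (UU_le _ _ _ _) (UU_nonneg _ _ _ _) hε'0.le
      have h5 := hX (4 ^ i * σ) (by positivity) hs2 α (one_le_shift hσ hα) (c + 4 * c')
        (by omega) (v / 16) ?_
      · have e : ((v + (c : ℝ)) / 4 + (c' : ℝ)) / 4 = ((c + 4 * c' : ℕ) : ℝ) / 16 + v / 16 := by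
          push_cast
          ring
        rw [e]
        exact h5
      · rw [abs_div, abs_of_pos (by norm_num : (0 : ℝ) < 16), div_le_iff₀ (by norm_num)]
        have e : M * (4 ^ (i + 2) * σ) = M * (4 ^ i * σ) * 16 := by
          rw [pow_add]
          ring
        linarith
    refine (Finset.sum_le_sum h4).trans ?_
    simp
  have hR : ∀ c : ℕ, 1 ≤ c → c ≤ 3 → Rw α (4 ^ (i + 1) * σ) ((v + c) / 4) ≤
      C / La α (4 ^ (i + 1) * σ) := by
    intro c hc1 hc3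
    have h5 := hQ (4 ^ (i + 1) * σ) (by positivity) (hs1.trans hσ₁') α c (by omega) (v / 4) ?_
    · have e : (v + (c : ℝ)) / 4 = c / 4 + v / 4 := by ring
      rw [e]
      exact h5
    · rw [abs_div, abs_of_pos (by norm_num : (0 : ℝ) < 4), div_le_iff₀ (by norm_num)]
      have e : M * (4 ^ (i + 2) * σ) = M * (4 ^ (i + 1) * σ) * 4 := by
        rw [pow_succ]
        ring
      linarith
  have hkey : ∀ c : ℕ, 1 ≤ c → c ≤ 3 → Rw α (4 ^ (i + 1) * σ) ((v + c) / 4) *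
      UU α (i + 1) σ ((v + c) / 4) ≤ (C / La α (4 ^ (i + 1) * σ)) * (4 * (ε' * 4 ^ i)) := by
    intro c hc1 hc3
    exact mul_le_mul (hR c hc1 hc3) (hUU c hc1 hc3) (UU_nonneg _ _ _ _) (by positivity)
  rw [VV_succ]
  have a1 := hkey 1 le_rfl (by norm_num)
  have a2 := hkey 2 (by norm_num) (by norm_num)
  have a3 := hkey 3 (by norm_num) le_rfl
  have hfin : 3 * ((C / La α (4 ^ (i + 1) * σ)) * (4 * (ε' * 4 ^ i))) ≤ ε / La α σ := by
    have e1 : 3 * ((C / La α (4 ^ (i + 1) * σ)) * (4 * (ε' * 4 ^ i))) =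
        (ε / 2 ^ (i + 1)) / La α (4 ^ (i + 1) * σ) := by
      rw [hε']
      field_simp
      ring
    rw [e1, div_le_div_iff₀ hLp hLp0]
    have h6 := mul_le_mul_of_nonneg_left hLa (by positivity : 0 ≤ ε / 2 ^ (i + 1))
    have e2 : ε / 2 ^ (i + 1) * (2 ^ (i + 1) * La α (4 ^ (i + 1) * σ)) =
        ε * La α (4 ^ (i + 1) * σ) := by
      field_simp
    linarith
  linarith

end Pool.Agent.R359.EQ
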